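import Mathlib

/-!
Algebraic identities behind the equivariant contraction (rotations, shears, commutator path).
-/

namespace Pool.Agent.Lib.MP_3c1a79_gt

section
variable {A : Type*} [Ring A] [Algebra ℂ A]

/-- rotation in the plane spanned by the columns `a`, `b` with dual rows `a'`, `b'`. -/
def rot (a b a' b' : A) (c s : ℂ) : A :=
  1 + (c - 1) • (a * a' + b * b') + s • (b * a' - a * b')

theorem rot_mul_rot {a b a' b' : A} (haa : a' * a = 1) (hbb : b' * b = 1) (hab : a' * b = 0)
    (hba : b' * a = 0) {c s : ℂ} (hcs : c ^ 2 + s ^ 2 = 1) :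
    rot a b a' b' c s * rot a b a' b' c (-s) = 1 := by
  have e1 : ∀ x, a' * (a * x) = x := fun x => by rw [← mul_assoc, haa, one_mul]
  have e2 : ∀ x, b' * (b * x) = x := fun x => by rw [← mul_assoc, hbb, one_mul]
  have e3 : ∀ x, a' * (b * x) = 0 := fun x => by rw [← mul_assoc, hab, zero_mul]
  have e4 : ∀ x, b' * (a * x) = 0 := fun x => by rw [← mul_assoc, hba, zero_mul]
  have hc : c ^ 2 = 1 - s ^ 2 := by linear_combination hcs
  simp only [rot, mul_add, add_mul, mul_sub, sub_mul, smul_mul_assoc, mul_smul_comm, mul_one,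
    one_mul, smul_add, smul_sub, mul_assoc, e1, e2, e3, e4, haa, hbb, hab, hba, smul_zero,
    sub_zero, zero_sub, add_zero, zero_add, smul_smul, mul_zero]
  match_scalars <;> ring_nf <;> simp [hc] <;> ring

theorem rot_apply {a b a' b' : A} (haa : a' * a = 1) (hba : b' * a = 0) :
    rot a b a' b' 0 1 * a = b := by
  simp only [rot, mul_add, add_mul, mul_sub, sub_mul, smul_mul_assoc, mul_smul_comm, mul_one,
    one_mul, smul_add, smul_sub, mul_assoc, haa, hba, smul_zero,
    sub_zero, zero_sub, add_zero, zero_add, smul_smul, mul_zero]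
  module

@[simp] theorem rot_one_zero (a b a' b' : A) : rot a b a' b' 1 0 = 1 := by
  simp [rot]

end


section
variable {A : Type*} [Ring A] [Algebra ℂ A]

noncomputable def rho (Q : A) (ζ : ℂ) : A := 1 + (ζ - 1) • Q

theorem rho_mul_rho {Q : A} (hQ : Q * Q = Q) (ζ ξ : ℂ) :
    rho Q ζ * rho Q ξ = rho Q (ζ * ξ) := by
  simp only [rho, mul_add, add_mul, smul_mul_assoc, mul_smul_comm, mul_one, one_mul, hQ, smul_smul]
  module

@[simp] theorem rho_one (Q : A) : rho Q 1 = 1 := by simp [rho]

end

section
variable {A : Type*} [Ring A] [StarRing A] [Algebra ℂ A] [StarModule ℂ A]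

noncomputable def qq (a b : A) : A := (1 / 2 : ℂ) • ((a - b) * star (a - b))

theorem star_qq (a b : A) : star (qq a b) = qq a b := by
  simp [qq]

theorem qq_idem {a b p : A} (ha : star a * a = p) (hb : star b * b = p) (hab : star a * b = 0)
    (hap : a * p = a) (hbp : b * p = b) : qq a b * qq a b = qq a b := by
  have hba : star b * a = 0 := by simpa using congrArg star hab
  have h1 : star (a - b) * (a - b) = (2 : ℂ) • p := by
    rw [star_sub, sub_mul, mul_sub, mul_sub, ha, hb, hab, hba, two_smul]; abel
  have h2 : (a - b) * (star (a - b) * (a - b)) * star (a - b) = (2 : ℂ) • ((a - b) * star (a - b)) := by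
    rw [h1, mul_smul_comm, sub_mul, hap, hbp, smul_mul_assoc]
  have h3 : qq a b * qq a b = (1 / 2 : ℂ) • (1 / 2 : ℂ) •
      ((a - b) * (star (a - b) * (a - b)) * star (a - b)) := by
    simp only [qq, smul_mul_assoc, mul_smul_comm, mul_assoc]
  rw [h3, h2, qq, smul_smul, smul_smul]
  norm_num

theorem rho_qq_left {a b p : A} (ha : star a * a = p) (hab : star a * b = 0)
    (hap : a * p = a) (hbp : b * p = b) : rho (qq a b) (-1) * a = b := by
  have hba : star b * a = 0 := by simpa using congrArg star hab
  have h1 : star (a - b) * a = p := by rw [star_sub, sub_mul, ha, hba, sub_zero]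
  simp only [rho, qq, add_mul, one_mul, smul_mul_assoc, mul_assoc, h1, smul_smul]
  simp only [sub_mul, hap, hbp]
  module

theorem qq_comm (a b : A) : qq a b = qq b a := by
  simp only [qq]; rw [← neg_sub b a, star_neg, neg_mul_neg]

theorem rho_qq_right {a b p : A} (hb : star b * b = p) (hab : star a * b = 0)
    (hap : a * p = a) (hbp : b * p = b) : rho (qq a b) (-1) * b = a := by
  rw [qq_comm]
  exact rho_qq_left hb (by simpa using congrArg star hab) hbp hap

theorem rho_qq_fix {a b c : A} (ha : star a * c = 0) (hb : star b * c = 0) (ζ : ℂ) :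
    rho (qq a b) ζ * c = c := by
  simp only [rho, qq, add_mul, one_mul, smul_mul_assoc, mul_assoc, star_sub, sub_mul, ha, hb]
  simp

theorem star_rho_neg_one {Q : A} (hQ : star Q = Q) : star (rho Q (-1)) = rho Q (-1) := by
  simp [rho, hQ]

theorem conj_swap {R a b m : A} (hR : star R = R) (h : R * a = b) :
    R * (a * m * star a) * R = b * m * star b := by
  have h' : star a * R = star b := by rw [← h, star_mul, hR]
  calc R * (a * m * star a) * R = (R * a) * m * (star a * R) := by simp only [mul_assoc]
    _ = _ := by rw [h, h']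

/-- The algebra behind the infinite swindle. -/
theorem swindle {v s S e δ f g b b' : A}
    (hv : star v * v = 1) (hss : star s * s = 1) (hSS : star S * S = 1) (hsS : star s * S = 0)
    (he : e = 1 - v * star v) (hb : b = v * s) (hb' : b' = v * S)
    (heδ : e * δ = δ) (hδe : δ * e = δ)
    (hff : f * f = f) (hsf : star f = f) (hfg : f * g = g) (hgf : g * f = g)
    (hg : g = s * δ * star s + S * g * star S)
    {R₁ R₁' R₂ : A} (h₁ : R₁ = rho (qq e (b' * s * e)) (-1))
    (h₁' : R₁' = rho (qq (b * f) (b' * S * f)) (-1))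
    (h₂ : R₂ = rho (qq (b * f) (b' * f)) (-1)) :
    (R₁ * R₁' * R₂) * (1 + b * g * star b) * (R₂ * R₁' * R₁) =
      (1 + δ) * (1 + b * g * star b) := by
  have hSs : star S * s = 0 := by simpa using congrArg star hsS
  have hse : star e = e := by rw [he]; simp
  have hev : e * v = 0 := by rw [he, sub_mul, mul_assoc, hv]; simp
  have hve : star v * e = 0 := by simpa [hse] using congrArg star hev
  have hee : e * e = e := by
    nth_rw 2 [he]; rw [mul_sub, ← mul_assoc, hev]; simp
  have hbb : star b * b = 1 := by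
    rw [hb, star_mul, mul_assoc, ← mul_assoc (star v), hv, one_mul, hss]
  have hbb' : star b' * b' = 1 := by
    rw [hb', star_mul, mul_assoc, ← mul_assoc (star v), hv, one_mul, hSS]
  have hbb'0 : star b * b' = 0 := by
    rw [hb, hb', star_mul, mul_assoc, ← mul_assoc (star v), hv, one_mul, hsS]
  have hb'b0 : star b' * b = 0 := by simpa using congrArg star hbb'0
  have heb : e * b = 0 := by rw [hb, ← mul_assoc, hev, zero_mul]
  have heb' : e * b' = 0 := by rw [hb', ← mul_assoc, hev, zero_mul]
  have hbe : star b * e = 0 := by simpa [hse] using congrArg star heb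
  have hb'e : star b' * e = 0 := by simpa [hse] using congrArg star heb'
  -- cancellation lemmas
  have c1 : ∀ x, star b * (b * x) = x := fun x => by rw [← mul_assoc, hbb, one_mul]
  have c2 : ∀ x, star b' * (b' * x) = x := fun x => by rw [← mul_assoc, hbb', one_mul]
  have c3 : ∀ x, star b * (b' * x) = 0 := fun x => by rw [← mul_assoc, hbb'0, zero_mul]
  have c4 : ∀ x, star b' * (b * x) = 0 := fun x => by rw [← mul_assoc, hb'b0, zero_mul]
  have c5 : ∀ x, star s * (s * x) = x := fun x => by rw [← mul_assoc, hss, one_mul]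
  have c6 : ∀ x, star S * (S * x) = x := fun x => by rw [← mul_assoc, hSS, one_mul]
  have c7 : ∀ x, star s * (S * x) = 0 := fun x => by rw [← mul_assoc, hsS, zero_mul]
  have c8 : ∀ x, star S * (s * x) = 0 := fun x => by rw [← mul_assoc, hSs, zero_mul]
  have c9 : ∀ x, e * (b * x) = 0 := fun x => by rw [← mul_assoc, heb, zero_mul]
  have c10 : ∀ x, e * (b' * x) = 0 := fun x => by rw [← mul_assoc, heb', zero_mul]
  -- reflections
  have i2 : R₂ * R₂ = 1 := by
    rw [h₂, rho_mul_rho (qq_idem (p := f) ?_ ?_ ?_ ?_ ?_)]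
    · norm_num
    · simp only [star_mul, mul_assoc, c1, hsf, hff]
    · simp only [star_mul, mul_assoc, c2, hsf, hff]
    · simp only [star_mul, mul_assoc, c3, mul_zero]
    · simp only [mul_assoc, hff]
    · simp only [mul_assoc, hff]
  have i1' : R₁' * R₁' = 1 := by
    rw [h₁', rho_mul_rho (qq_idem (p := f) ?_ ?_ ?_ ?_ ?_)]
    · norm_num
    · simp only [star_mul, mul_assoc, c1, hsf, hff]
    · simp only [star_mul, mul_assoc, c2, c6, hsf, hff]
    · simp only [star_mul, mul_assoc, c3, mul_zero]
    · simp only [mul_assoc, hff]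
    · simp only [mul_assoc, hff]
  have i1 : R₁ * R₁ = 1 := by
    rw [h₁, rho_mul_rho (qq_idem (p := e) ?_ ?_ ?_ ?_ ?_)]
    · norm_num
    · simp only [hse, hee]
    · simp only [star_mul, mul_assoc, c2, c5, hse, hee]
    · simp only [hse, mul_assoc, c10]
    · simp only [hee]
    · simp only [mul_assoc, hee]
  have s2 : star R₂ = R₂ := by rw [h₂]; exact star_rho_neg_one (star_qq _ _)
  have s1' : star R₁' = R₁' := by rw [h₁']; exact star_rho_neg_one (star_qq _ _)
  have s1 : star R₁ = R₁ := by rw [h₁]; exact star_rho_neg_one (star_qq _ _)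
  have m2 : R₂ * (b * f) = b' * f := by
    rw [h₂]
    refine rho_qq_left (p := f) ?_ ?_ ?_ ?_
    · simp only [star_mul, mul_assoc, c1, hsf, hff]
    · simp only [star_mul, mul_assoc, c3, mul_zero]
    · simp only [mul_assoc, hff]
    · simp only [mul_assoc, hff]
  have m1' : R₁' * (b' * S * f) = b * f := by
    rw [h₁']
    refine rho_qq_right (p := f) ?_ ?_ ?_ ?_
    · simp only [star_mul, mul_assoc, c2, c6, hsf, hff]
    · simp only [star_mul, mul_assoc, c3, mul_zero]
    · simp only [mul_assoc, hff]
    · simp only [mul_assoc, hff]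
  have m1'f : R₁' * (b' * s * e) = b' * s * e := by
    rw [h₁']
    refine rho_qq_fix ?_ ?_ _
    · simp only [star_mul, mul_assoc, c3, mul_zero]
    · simp only [star_mul, mul_assoc, c2, c8, mul_zero]
  have m1 : R₁ * (b' * s * e) = e := by
    rw [h₁]
    refine rho_qq_right (p := e) ?_ ?_ ?_ ?_
    · simp only [star_mul, mul_assoc, c2, c5, hse, hee]
    · simp only [hse, mul_assoc, c10]
    · simp only [hee]
    · simp only [mul_assoc, hee]
  have m1f : R₁ * (b * f) = b * f := by
    rw [h₁]
    refine rho_qq_fix ?_ ?_ _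
    · simp only [hse, c9]
    · simp only [star_mul, mul_assoc, c4, mul_zero]
  -- the conjugations
  have x0 : b * g * star b = (b * f) * g * star (b * f) := by
    simp only [star_mul, hsf, mul_assoc]
    rw [← mul_assoc g f, hgf, ← mul_assoc f g, hfg]
  have x1 : (b' * f) * g * star (b' * f) =
      (b' * s * e) * δ * star (b' * s * e) + (b' * S * f) * g * star (b' * S * f) := by
    have e1 : (b' * f) * g * star (b' * f) = b' * g * star b' := by
      simp only [star_mul, hsf, mul_assoc]
      rw [← mul_assoc g f, hgf, ← mul_assoc f g, hfg]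
    have e2 : (b' * s * e) * δ * star (b' * s * e) = b' * (s * δ * star s) * star b' := by
      simp only [star_mul, hse, mul_assoc]
      rw [← mul_assoc δ e, hδe, ← mul_assoc e δ, heδ]
    have e3 : (b' * S * f) * g * star (b' * S * f) = b' * (S * g * star S) * star b' := by
      simp only [star_mul, hsf, mul_assoc]
      rw [← mul_assoc g f, hgf, ← mul_assoc f g, hfg]
    rw [e1, e2, e3, ← add_mul, ← mul_add, ← hg]
  have x2 : R₂ * (b * g * star b) * R₂ = (b' * f) * g * star (b' * f) := by
    rw [x0]; exact conj_swap s2 m2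
  have x3 : R₁' * (R₂ * (b * g * star b) * R₂) * R₁' =
      (b' * s * e) * δ * star (b' * s * e) + (b * f) * g * star (b * f) := by
    rw [x2, x1, mul_add, add_mul, conj_swap s1' m1'f, conj_swap s1' m1']
  have x4 : R₁ * (R₁' * (R₂ * (b * g * star b) * R₂) * R₁') * R₁ = δ + b * g * star b := by
    rw [x3, mul_add, add_mul, conj_swap s1 m1, conj_swap s1 m1f, ← x0, hse, heδ, hδe]
  have hδb : δ * b = 0 := by rw [← hδe, mul_assoc, heb, mul_zero]
  calc (R₁ * R₁' * R₂) * (1 + b * g * star b) * (R₂ * R₁' * R₁)
      = R₁ * (R₁' * (R₂ * R₂) * R₁') * R₁ +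
        R₁ * (R₁' * (R₂ * (b * g * star b) * R₂) * R₁') * R₁ := by
          simp only [mul_add, add_mul, mul_one, mul_assoc]
    _ = 1 + (δ + b * g * star b) := by
          rw [x4, i2, mul_one, i1', mul_one, i1]
    _ = _ := by
          rw [add_mul, one_mul, mul_add, mul_one, ← mul_assoc δ, ← mul_assoc δ, hδb]
          simp only [zero_mul]; abel

end
end Pool.Agent.Lib.MP_3c1a79_gt
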