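import Mathlib
import Pool.Agent.Lib.MP_3c1a79_gt.Alg

/-!
The stages of the contraction, in an abstract setting: `B` is the star algebra of continuous maps,
`E` the equivariant ones, `JC` the jointly continuous paths, `R` the homotopy relation.
-/

namespace Pool.Agent.Lib.MP_3c1a79_gt

variable {B : Type*} [Ring B] [StarRing B] [Algebra ℂ B] [StarModule ℂ B]

/-- the abstract context in which the stages are carried out -/
structure PathCtx (E : StarSubalgebra ℂ B) (JC : (ℝ → B) → Prop) (R : B → B → Prop) : Prop where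
  const : ∀ b : B, JC fun _ => b
  add : ∀ {F H : ℝ → B}, JC F → JC H → JC fun t => F t + H t
  mul : ∀ {F H : ℝ → B}, JC F → JC H → JC fun t => F t * H t
  smul : ∀ {c : ℝ → ℂ} {F : ℝ → B}, Continuous c → JC F → JC fun t => c t • F t
  inv : ∀ {f h : B}, f ∈ E → f * h = 1 → h * f = 1 → h ∈ E
  path : ∀ F : ℝ → B, JC F → (∀ t ∈ Set.Icc (0 : ℝ) 1, F t ∈ E ∧ IsUnit (F t)) → R (F 0) (F 1)
  symm : ∀ {a b : B}, R a b → R b a
  trans : ∀ {a b c : B}, R a b → R b c → R a c

variable {E : StarSubalgebra ℂ B} {JC : (ℝ → B) → Prop} {R : B → B → Prop}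

namespace PathCtx

variable (P : PathCtx E JC R)
include P

theorem rot {a b a' b' : B} {c s : ℝ → ℂ} (hc : Continuous c) (hs : Continuous s) :
    JC (fun t => MP_3c1a79_gt.rot a b a' b' (c t) (s t)) := by
  unfold MP_3c1a79_gt.rot
  exact P.add (P.add (P.const 1) (P.smul (hc.sub continuous_const) (P.const _)))
    (P.smul hs (P.const _))

theorem rho {Q : B} {c : ℝ → ℂ} (hc : Continuous c) :
    JC (fun t => MP_3c1a79_gt.rho Q (c t)) := by
  unfold MP_3c1a79_gt.rho
  exact P.add (P.const 1) (P.smul (hc.sub continuous_const) (P.const _))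

omit P

theorem rot_mem {a b a' b' : B} (ha : a ∈ E) (hb : b ∈ E)
    (ha' : a' ∈ E) (hb' : b' ∈ E) (c s : ℂ) : MP_3c1a79_gt.rot a b a' b' c s ∈ E := by
  unfold MP_3c1a79_gt.rot
  exact add_mem (add_mem (one_mem _) (E.smul_mem (add_mem (mul_mem ha ha') (mul_mem hb hb')) _))
    (E.smul_mem (sub_mem (mul_mem hb ha') (mul_mem ha hb')) _)

theorem rho_mem {Q : B} (hQ : Q ∈ E) (c : ℂ) : MP_3c1a79_gt.rho Q c ∈ E := by
  unfold MP_3c1a79_gt.rho
  exact add_mem (one_mem _) (E.smul_mem hQ _)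

theorem qq_mem {a b : B} (ha : a ∈ E) (hb : b ∈ E) : qq a b ∈ E := by
  unfold MP_3c1a79_gt.qq
  exact E.smul_mem (mul_mem (sub_mem ha hb) (star_mem (sub_mem ha hb))) _

omit [StarRing B] [StarModule ℂ B] in
theorem isUnit_rot {a b a' b' : B} (haa : a' * a = 1) (hbb : b' * b = 1) (hab : a' * b = 0)
    (hba : b' * a = 0) {c s : ℂ} (hcs : c ^ 2 + s ^ 2 = 1) :
    IsUnit (MP_3c1a79_gt.rot a b a' b' c s) := by
  refine ⟨⟨MP_3c1a79_gt.rot a b a' b' c s, MP_3c1a79_gt.rot a b a' b' c (-s),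
    rot_mul_rot haa hbb hab hba hcs, ?_⟩, rfl⟩
  have := rot_mul_rot haa hbb hab hba (c := c) (s := -s) (by rw [neg_sq]; exact hcs)
  rwa [neg_neg] at this

omit [StarRing B] [StarModule ℂ B] in
theorem isUnit_rho {Q : B} (hQ : Q * Q = Q) {ζ : ℂ} (hζ : ζ ≠ 0) :
    IsUnit (MP_3c1a79_gt.rho Q ζ) := by
  refine ⟨⟨MP_3c1a79_gt.rho Q ζ, MP_3c1a79_gt.rho Q ζ⁻¹, ?_, ?_⟩, rfl⟩
  · rw [rho_mul_rho hQ, mul_inv_cancel₀ hζ, rho_one]
  · rw [rho_mul_rho hQ, inv_mul_cancel₀ hζ, rho_one]

include P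

/-- Stage A -/
theorem stageA {y V W : B} (hy : y ∈ E) (hV : V ∈ E) (hW : W ∈ E)
    (VV : star V * V = 1) (WW : star W * W = 1)
    (hsmall : ∀ t ∈ Set.Icc (0 : ℝ) 1,
      IsUnit (y - ((t : ℝ) : ℂ) • (W * (star W * y * V) * star V))) :
    ∃ T : B, T ∈ E ∧ IsUnit T ∧ R y T ∧ star W * T * V = 0 := by
  set Z : B := W * (star W * y * V) * star V with hZ
  have hZm : Z ∈ E :=
    mul_mem (mul_mem hW (mul_mem (mul_mem (star_mem hW) hy) hV)) (star_mem hV)
  have key := P.path (fun t => y + (-((t : ℝ) : ℂ)) • Z) ?_ ?_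
  · refine ⟨y - Z, sub_mem hy hZm, ?_, ?_, ?_⟩
    · have := hsmall 1 (by simp)
      simpa using this
    · simpa [← sub_eq_add_neg] using key
    · have h1 : star W * Z * V = star W * y * V := by
        rw [hZ]
        calc star W * (W * (star W * y * V) * star V) * V =
            (star W * W) * (star W * y * V) * (star V * V) := by simp only [mul_assoc]
          _ = _ := by rw [WW, VV, one_mul, mul_one]
      rw [mul_sub, sub_mul, h1, sub_self]
  · exact P.add (P.const y) (P.smul (by fun_prop) (P.const Z))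
  · intro t ht
    refine ⟨add_mem hy (E.smul_mem hZm _), ?_⟩
    have := hsmall t ht
    rwa [sub_eq_add_neg, ← neg_smul] at this

/-- a rotation stage -/
theorem stageRot {T a b a' b' : B} (hT : T ∈ E) (uT : IsUnit T)
    (ha : a ∈ E) (hb : b ∈ E) (ha' : a' ∈ E) (hb' : b' ∈ E)
    (haa : a' * a = 1) (hbb : b' * b = 1) (hab : a' * b = 0) (hba : b' * a = 0) :
    R T (MP_3c1a79_gt.rot a b a' b' 0 1 * T) := by
  have key := P.path
    (fun t => MP_3c1a79_gt.rot a b a' b' (Real.cos (Real.pi / 2 * t) : ℂ)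
      (Real.sin (Real.pi / 2 * t) : ℂ) * T) ?_ ?_
  · simp only [mul_zero, Real.cos_zero, Real.sin_zero, mul_one, Real.cos_pi_div_two,
      Real.sin_pi_div_two, Complex.ofReal_zero, Complex.ofReal_one, rot_one_zero, one_mul] at key
    exact key
  · refine P.mul (P.rot ?_ ?_) (P.const T)
    · fun_prop
    · fun_prop
  · intro t _
    refine ⟨mul_mem (rot_mem ha hb ha' hb' _ _) hT, (isUnit_rot haa hbb hab hba ?_).mul uT⟩
    rw [← Complex.ofReal_pow, ← Complex.ofReal_pow, ← Complex.ofReal_add, Real.cos_sq_add_sin_sq,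
      Complex.ofReal_one]

/-- Stages B and C -/
theorem stageBC {T V W : B} (hT : T ∈ E) (uT : IsUnit T)
    (hV : V ∈ E) (hW : W ∈ E)
    (VV : star V * V = 1) (WW : star W * W = 1) (WV : star W * V = 0)
    (hWTV : star W * T * V = 0) :
    ∃ T' : B, T' ∈ E ∧ IsUnit T' ∧ R T T' ∧ T' * V = V := by
  obtain ⟨u, rfl⟩ := uT
  set T : B := (u : B) with hTdef
  set Ti : B := ((u⁻¹ : Bˣ) : B) with hTi
  have t1 : T * Ti = 1 := by simp [hTi, hTdef]
  have t2 : Ti * T = 1 := by simp [hTi, hTdef]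
  have hTim : Ti ∈ E := P.inv hT t1 t2
  have VW : star V * W = 0 := by simpa using congrArg star WV
  set a : B := T * V with ha
  set a' : B := star V * Ti * (1 - W * star W) with ha'
  have am : a ∈ E := mul_mem hT hV
  have am' : a' ∈ E := mul_mem (mul_mem (star_mem hV) hTim)
    (sub_mem (one_mem _) (mul_mem hW (star_mem hW)))
  have haa : a' * a = 1 := by
    rw [ha', ha, mul_sub, sub_mul, mul_one]
    have e1 : star V * Ti * (T * V) = 1 := by
      rw [mul_assoc, ← mul_assoc Ti, t2, one_mul, VV]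
    have e2 : star V * Ti * (W * star W) * (T * V) = star V * Ti * W * (star W * T * V) := by
      simp only [mul_assoc]
    rw [e1, e2, hWTV, mul_zero, sub_zero]
  have haW : a' * W = 0 := by
    rw [ha', mul_assoc, sub_mul, one_mul, mul_assoc W, WW, mul_one, sub_self, mul_zero]
  have hWa : star W * a = 0 := by rw [ha, ← mul_assoc, hWTV]
  have s1 := P.stageRot hT u.isUnit am hW am' (star_mem hW) haa WW haW hWa
  set T1 : B := MP_3c1a79_gt.rot a W a' (star W) 0 1 * T with hT1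
  have T1V : T1 * V = W := by
    rw [hT1, mul_assoc]; exact rot_apply haa hWa
  have T1m : T1 ∈ E := mul_mem (rot_mem am hW am' (star_mem hW) _ _) hT
  have T1u : IsUnit T1 := (isUnit_rot haa WW haW hWa (by norm_num)).mul u.isUnit
  have s2 := P.stageRot T1m T1u hW hV (star_mem hW) (star_mem hV) WW VV WV VW
  refine ⟨MP_3c1a79_gt.rot W V (star W) (star V) 0 1 * T1, mul_mem (rot_mem hW hV (star_mem hW)
    (star_mem hV) _ _) T1m, (isUnit_rot WW VV WV VW (by norm_num)).mul T1u, P.trans s1 s2, ?_⟩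
  rw [mul_assoc, T1V]
  exact rot_apply WW VW

/-- Stage D -/
theorem stageD {T V : B} (hT : T ∈ E) (uT : IsUnit T)
    (hV : V ∈ E) (VV : star V * V = 1) (hTV : T * V = V) :
    ∃ D : B, D ∈ E ∧ IsUnit D ∧ R T D ∧ D * V = V ∧ star V * D = star V := by
  obtain ⟨u, rfl⟩ := uT
  set T : B := (u : B) with hTdef
  set Ti : B := ((u⁻¹ : Bˣ) : B) with hTi
  have t1 : T * Ti = 1 := by simp [hTi, hTdef]
  have t2 : Ti * T = 1 := by simp [hTi, hTdef]
  have hTim : Ti ∈ E := P.inv hT t1 t2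
  have hTiV : Ti * V = V := by
    calc Ti * V = Ti * (T * V) := by rw [hTV]
      _ = V := by rw [← mul_assoc, t2, one_mul]
  set N : B := V * star V * T * (1 - V * star V) with hN
  have hNm : N ∈ E := mul_mem (mul_mem (mul_mem hV (star_mem hV)) hT)
    (sub_mem (one_mem _) (mul_mem hV (star_mem hV)))
  set Y : B := N * Ti with hY
  have hYm : Y ∈ E := mul_mem hNm hTim
  have e0 : (1 - V * star V) * V = 0 := by rw [sub_mul, one_mul, mul_assoc, VV, mul_one, sub_self]
  have YY : Y * Y = 0 := by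
    have : Y * Y = V * star V * T * ((1 - V * star V) * (Ti * V)) * star V * T *
        (1 - V * star V) * Ti := by
      rw [hY, hN]; simp only [mul_assoc]
    rw [this, hTiV, e0]; simp
  have YT : Y * T = N := by rw [hY, mul_assoc, t2, mul_one]
  have hunit : ∀ c : ℂ, IsUnit (1 + c • Y) := by
    intro c
    refine ⟨⟨1 + c • Y, 1 - c • Y, ?_, ?_⟩, rfl⟩
    · simp only [add_mul, mul_sub, mul_one, one_mul, smul_mul_assoc, mul_smul_comm, YY, smul_zero]
      abel
    · simp only [sub_mul, mul_add, mul_one, one_mul, smul_mul_assoc, mul_smul_comm, YY, smul_zero]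
      abel
  have key := P.path (fun t => (1 + (-((t : ℝ) : ℂ)) • Y) * T) ?_ ?_
  · refine ⟨T - N, sub_mem hT hNm, ?_, ?_, ?_, ?_⟩
    · have := (hunit (-1)).mul u.isUnit
      rwa [neg_one_smul, ← sub_eq_add_neg, sub_mul, one_mul, YT] at this
    · simp only [Complex.ofReal_zero, Complex.ofReal_one, neg_zero, zero_smul, add_zero, one_mul,
        neg_one_smul, ← sub_eq_add_neg, sub_mul, YT] at key
      exact key
    · rw [sub_mul, hTV, hN, mul_assoc, e0, mul_zero, sub_zero]
    · have e3 : star V * N = star V * T - star V * T * (V * star V) := by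
        rw [hN, ← mul_assoc, ← mul_assoc, ← mul_assoc, VV, one_mul, mul_sub, mul_one]
      rw [mul_sub, e3, sub_sub_cancel, ← mul_assoc, mul_assoc (star V) T, hTV, VV, one_mul]
  · exact P.mul (P.add (P.const 1) (P.smul (by fun_prop) (P.const Y))) (P.const T)
  · intro t _
    exact ⟨mul_mem (add_mem (one_mem _) (E.smul_mem hYm _)) hT,
      (hunit _).mul u.isUnit⟩

omit P [Algebra ℂ B] [StarModule ℂ B] in
theorem sS_zero {s S : B} (hss : star s * s = 1)
    (hSS : star S * S = 1) (hsum : s * star s + S * star S = 1) : star s * S = 0 := by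
  have h := congrArg (fun x => star s * x * S) hsum
  simp only [mul_add, add_mul, mul_one] at h
  have h1 : star s * (s * star s) * S = star s * S := by
    rw [← mul_assoc, hss, one_mul]
  have h2 : star s * (S * star S) * S = star s * S := by
    rw [mul_assoc, mul_assoc, hSS, mul_one]
  rw [h1, h2] at h
  simpa using h

/-- Stage E : the swindle -/
theorem stageE {D V : B} (hD : D ∈ E) (uD : IsUnit D)
    (hV : V ∈ E) (VV : star V * V = 1) (hDV : D * V = V) (hVD : star V * D = star V)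
    {s S : B} (ss : star s * s = 1) (SS : star S * S = 1) (hsum : s * star s + S * star S = 1)
    (sm : s ∈ E) (Sm : S ∈ E)
    (Φ : B →⋆ₐ[ℂ] B) (hΦ : ∀ a, Φ a = s * a * star s + S * Φ a * star S)
    (Φm : ∀ a ∈ E, Φ a ∈ E) :
    R 1 D := by
  obtain ⟨u, rfl⟩ := uD
  set D : B := (u : B) with hDdef
  set Di : B := ((u⁻¹ : Bˣ) : B) with hDi
  have d1 : D * Di = 1 := by simp [hDi, hDdef]
  have d2 : Di * D = 1 := by simp [hDi, hDdef]
  have hDim : Di ∈ E := P.inv hD d1 d2
  have sS := sS_zero ss SS hsum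
  set e : B := 1 - V * star V with he
  set δ : B := D - 1 with hδ
  set δ' : B := Di - 1 with hδ'
  set b : B := V * s with hb
  set b' : B := V * S with hb'
  have em : e ∈ E := sub_mem (one_mem _) (mul_mem hV (star_mem hV))
  have bm : b ∈ E := mul_mem hV sm
  have bm' : b' ∈ E := mul_mem hV Sm
  have δm : δ ∈ E := sub_mem hD (one_mem _)
  have δm' : δ' ∈ E := sub_mem hDim (one_mem _)
  have hδV : δ * V = 0 := by rw [hδ, sub_mul, hDV, one_mul, sub_self]
  have hVδ : star V * δ = 0 := by rw [hδ, mul_sub, hVD, mul_one, sub_self]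
  have heδ : e * δ = δ := by rw [he, sub_mul, one_mul, mul_assoc, hVδ, mul_zero, sub_zero]
  have hδe : δ * e = δ := by rw [he, mul_sub, mul_one, ← mul_assoc, hδV, zero_mul, sub_zero]
  have hse : star e = e := by rw [he]; simp
  have hev : e * V = 0 := by rw [he, sub_mul, mul_assoc, VV]; simp
  have hee : e * e = e := by
    nth_rw 2 [he]; rw [mul_sub, ← mul_assoc, hev]; simp
  set f : B := Φ e with hf
  set g : B := Φ δ with hg
  have hff : f * f = f := by rw [hf, ← map_mul, hee]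
  have hsf : star f = f := by rw [hf, ← map_star, hse]
  have hfg : f * g = g := by rw [hf, hg, ← map_mul, heδ]
  have hgf : g * f = g := by rw [hf, hg, ← map_mul, hδe]
  set Q₁ : B := qq e (b' * s * e) with hQ₁
  set Q₁' : B := qq (b * f) (b' * S * f) with hQ₁'
  set Q₂ : B := qq (b * f) (b' * f) with hQ₂
  have hbb : star b * b = 1 := by
    rw [hb, star_mul, mul_assoc, ← mul_assoc (star V), VV, one_mul, ss]
  have hbb' : star b' * b' = 1 := by
    rw [hb', star_mul, mul_assoc, ← mul_assoc (star V), VV, one_mul, SS]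
  have hbb'0 : star b * b' = 0 := by
    rw [hb, hb', star_mul, mul_assoc, ← mul_assoc (star V), VV, one_mul, sS]
  have heb' : e * b' = 0 := by rw [hb', ← mul_assoc, hev, zero_mul]
  have c1 : ∀ x, star b * (b * x) = x := fun x => by rw [← mul_assoc, hbb, one_mul]
  have c2 : ∀ x, star b' * (b' * x) = x := fun x => by rw [← mul_assoc, hbb', one_mul]
  have c3 : ∀ x, star b * (b' * x) = 0 := fun x => by rw [← mul_assoc, hbb'0, zero_mul]
  have c5 : ∀ x, star s * (s * x) = x := fun x => by rw [← mul_assoc, ss, one_mul]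
  have c6 : ∀ x, star S * (S * x) = x := fun x => by rw [← mul_assoc, SS, one_mul]
  have c10 : ∀ x, e * (b' * x) = 0 := fun x => by rw [← mul_assoc, heb', zero_mul]
  have I2 : Q₂ * Q₂ = Q₂ := by
    refine qq_idem (p := f) ?_ ?_ ?_ ?_ ?_
    · simp only [star_mul, mul_assoc, c1, hsf, hff]
    · simp only [star_mul, mul_assoc, c2, hsf, hff]
    · simp only [star_mul, mul_assoc, c3, mul_zero]
    · simp only [mul_assoc, hff]
    · simp only [mul_assoc, hff]
  have I1' : Q₁' * Q₁' = Q₁' := by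
    refine qq_idem (p := f) ?_ ?_ ?_ ?_ ?_
    · simp only [star_mul, mul_assoc, c1, hsf, hff]
    · simp only [star_mul, mul_assoc, c2, c6, hsf, hff]
    · simp only [star_mul, mul_assoc, c3, mul_zero]
    · simp only [mul_assoc, hff]
    · simp only [mul_assoc, hff]
  have I1 : Q₁ * Q₁ = Q₁ := by
    refine qq_idem (p := e) ?_ ?_ ?_ ?_ ?_
    · simp only [hse, hee]
    · simp only [star_mul, mul_assoc, c2, c5, hse, hee]
    · simp only [hse, mul_assoc, c10]
    · simp only [hee]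
    · simp only [mul_assoc, hee]
  have fm : f ∈ E := Φm _ em
  have Q1m : Q₁ ∈ E := qq_mem em (mul_mem (mul_mem bm' sm) em)
  have Q1m' : Q₁' ∈ E := qq_mem (mul_mem bm fm) (mul_mem (mul_mem bm' Sm) fm)
  have Q2m : Q₂ ∈ E := qq_mem (mul_mem bm fm) (mul_mem bm' fm)
  -- the two inverse elements
  set K : B := 1 + b * g * star b with hK
  set K' : B := 1 + b * Φ δ' * star b with hK'
  have hKm : K ∈ E := add_mem (one_mem _) (mul_mem (mul_mem bm (Φm _ δm)) (star_mem bm))
  have hKm' : K' ∈ E :=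
    add_mem (one_mem _) (mul_mem (mul_mem bm (Φm _ δm')) (star_mem bm))
  have KK' : K * K' = 1 := by
    have h1 : δ + δ' + δ * δ' = 0 := by
      rw [hδ, hδ', sub_mul, mul_sub, d1]; simp
    have h2 : g + Φ δ' + g * Φ δ' = 0 := by
      rw [hg, ← map_mul, ← map_add, ← map_add, h1, map_zero]
    calc K * K' = 1 + b * (g + Φ δ' + g * Φ δ') * star b := by
          rw [hK, hK']
          simp only [mul_add, add_mul, mul_one, one_mul, mul_assoc, c1]; abel
      _ = 1 := by rw [h2]; simp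
  have K'K : K' * K = 1 := by
    have h1 : δ' + δ + δ' * δ = 0 := by
      rw [hδ, hδ', sub_mul, mul_sub, d2]; simp
    have h2 : Φ δ' + g + Φ δ' * g = 0 := by
      rw [hg, ← map_mul, ← map_add, ← map_add, h1, map_zero]
    calc K' * K = 1 + b * (Φ δ' + g + Φ δ' * g) * star b := by
          rw [hK, hK']
          simp only [mul_add, add_mul, mul_one, one_mul, mul_assoc, c1]; abel
      _ = 1 := by rw [h2]; simp
  have uK : IsUnit K := ⟨⟨K, K', KK', K'K⟩, rfl⟩
  have uK' : IsUnit K' := ⟨⟨K', K, K'K, KK'⟩, rfl⟩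
  let z : ℝ → ℂ := fun t => Complex.exp (Real.pi * t * Complex.I)
  let z' : ℝ → ℂ := fun t => Complex.exp (-(Real.pi * t * Complex.I))
  have hz : Continuous z := by fun_prop
  have hz' : Continuous z' := by fun_prop
  have z0 : z 0 = 1 := by simp [z]
  have z0' : z' 0 = 1 := by simp [z']
  have z1 : z 1 = -1 := by simp [z]
  have z1' : z' 1 = -1 := by
    simp only [z', Complex.ofReal_one, mul_one, Complex.exp_neg, Complex.exp_pi_mul_I]; norm_num
  have key := P.path
    (fun t => (MP_3c1a79_gt.rho Q₁ (z t) * MP_3c1a79_gt.rho Q₁' (z t) *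
      MP_3c1a79_gt.rho Q₂ (z t)) * K *
      (MP_3c1a79_gt.rho Q₂ (z' t) * MP_3c1a79_gt.rho Q₁' (z' t) *
        MP_3c1a79_gt.rho Q₁ (z' t)) * K') ?_ ?_
  · simp only [z0, z0', rho_one, one_mul, mul_one, KK', z1, z1'] at key
    have sw := swindle (v := V) (s := s) (S := S) (e := e) (δ := δ) (f := f) (g := g) (b := b)
      (b' := b') VV ss SS sS he hb hb' heδ hδe hff hsf hfg hgf (hΦ δ) rfl rfl rfl
    rw [← hQ₁, ← hQ₁', ← hQ₂, ← hK] at sw
    rw [sw, mul_assoc, KK', mul_one, hδ, add_sub_cancel] at key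
    exact key
  · exact P.mul (P.mul (P.mul (P.mul (P.mul (P.rho hz) (P.rho hz)) (P.rho hz)) (P.const K))
      (P.mul (P.mul (P.rho hz') (P.rho hz')) (P.rho hz'))) (P.const K')
  · intro t _
    refine ⟨mul_mem (mul_mem (mul_mem (mul_mem (mul_mem (rho_mem Q1m _) (rho_mem Q1m' _))
      (rho_mem Q2m _)) hKm) (mul_mem (mul_mem (rho_mem Q2m _) (rho_mem Q1m' _))
      (rho_mem Q1m _))) hKm', ?_⟩
    have n1 : z t ≠ 0 := Complex.exp_ne_zero _
    have n2 : z' t ≠ 0 := Complex.exp_ne_zero _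
    exact ((((((isUnit_rho I1 n1).mul (isUnit_rho I1' n1)).mul (isUnit_rho I2 n1)).mul uK).mul
      (((isUnit_rho I2 n2).mul (isUnit_rho I1' n2)).mul (isUnit_rho I1 n2)))).mul uK'

/-- All stages together. -/
theorem contract {y V W : B} (hy : y ∈ E) (hV : V ∈ E) (hW : W ∈ E)
    (VV : star V * V = 1) (WW : star W * W = 1) (WV : star W * V = 0)
    (hsmall : ∀ t ∈ Set.Icc (0 : ℝ) 1,
      IsUnit (y - ((t : ℝ) : ℂ) • (W * (star W * y * V) * star V)))
    {s S : B} (ss : star s * s = 1) (SS : star S * S = 1) (hsum : s * star s + S * star S = 1)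
    (sm : s ∈ E) (Sm : S ∈ E)
    (Φ : B →⋆ₐ[ℂ] B) (hΦ : ∀ a, Φ a = s * a * star s + S * Φ a * star S)
    (Φm : ∀ a ∈ E, Φ a ∈ E) :
    R y 1 := by
  obtain ⟨T₁, m₁, u₁, r₁, h₁⟩ := P.stageA hy hV hW VV WW hsmall
  obtain ⟨T₂, m₂, u₂, r₂, h₂⟩ := P.stageBC m₁ u₁ hV hW VV WW WV h₁
  obtain ⟨D, m₃, u₃, r₃, h₃, h₄⟩ := P.stageD m₂ u₂ hV VV h₂
  have r₄ := P.stageE m₃ u₃ hV VV h₃ h₄ ss SS hsum sm Sm Φ hΦ Φm
  exact P.trans r₁ (P.trans r₂ (P.trans r₃ (P.symm r₄)))

end PathCtx
end Pool.Agent.Lib.MP_3c1a79_gt
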