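import Mathlib
import Pool.Agent.Lib.MP_3c1a79_gt.Stages

/-!
The stages for continuous maps into a C*-algebra.
-/

namespace Pool.Agent.Lib.MP_3c1a79_gt

open ContinuousMap

variable {A : Type*} [CStarAlgebra A] {X : Type*} [TopologicalSpace X] {G : Type*}
  (act : G → X → X) (σ : G → A →⋆ₐ[ℂ] A)

/-- the star algebra of equivariant continuous maps -/
def EqA : StarSubalgebra ℂ C(X, A) where
  carrier := {f | ∀ g x, f (act g x) = σ g (f x)}
  mul_mem' := fun {a b} ha hb g x => by
    simp only [ContinuousMap.mul_apply, ha g x, hb g x, map_mul]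
  one_mem' := fun g x => by simp
  add_mem' := fun {a b} ha hb g x => by
    simp only [ContinuousMap.add_apply, ha g x, hb g x, map_add]
  zero_mem' := fun g x => by simp
  algebraMap_mem' := fun r g x => by
    simp [Algebra.algebraMap_eq_smul_one]
  star_mem' := fun {a} ha g x => by
    simp only [ContinuousMap.star_apply, ha g x, map_star]

variable {act σ}

theorem mem_EqA {f : C(X, A)} : f ∈ EqA act σ ↔ ∀ g x, f (act g x) = σ g (f x) := Iff.rfl

theorem inv_mem_EqA {f h : C(X, A)} (hf : f ∈ EqA act σ) (h1 : f * h = 1) (h2 : h * f = 1) :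
    h ∈ EqA act σ := by
  intro g x
  have e1 : h (act g x) * f (act g x) = 1 := by
    have := congrArg (fun k : C(X, A) => k (act g x)) h2
    simpa using this
  have e2 : f x * h x = 1 := by
    have := congrArg (fun k : C(X, A) => k x) h1
    simpa using this
  have e3 : f (act g x) * σ g (h x) = 1 := by
    rw [hf g x, ← map_mul, e2, map_one]
  calc h (act g x) = h (act g x) * (f (act g x) * σ g (h x)) := by rw [e3, mul_one]
    _ = σ g (h x) := by rw [← mul_assoc, e1, one_mul]

variable (act σ)

/-- admissible maps: equivariant and unit valued -/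
def Adm (f : C(X, A)) : Prop := f ∈ EqA act σ ∧ IsUnit f

variable {act σ}

/-- joint continuity predicate -/
def JC (F : ℝ → C(X, A)) : Prop := Continuous fun p : ℝ × X => F p.1 p.2

theorem homotopicWith_of {P : C(X, A) → Prop} (F : ℝ → C(X, A)) (hc : JC F)
    (hP : ∀ t ∈ Set.Icc (0 : ℝ) 1, P (F t)) : HomotopicWith (F 0) (F 1) P := by
  refine ⟨{ toFun := fun p => F p.1 p.2, continuous_toFun := ?_, map_zero_left := ?_,
            map_one_left := ?_, prop' := ?_ }⟩
  · exact hc.comp (by fun_prop : Continuous fun p : unitInterval × X => ((p.1 : ℝ), p.2))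
  · intro x; simp
  · intro x; simp
  · intro t
    exact hP t t.2

variable (act σ)

theorem pathCtx : PathCtx (EqA act σ) (JC (X := X) (A := A))
    (fun f g => HomotopicWith f g (Adm act σ)) where
  const f := by unfold JC; fun_prop
  add hF hH := Continuous.add hF hH
  mul hF hH := Continuous.mul hF hH
  smul hc hF := Continuous.smul (hc.comp continuous_fst) hF
  inv := inv_mem_EqA
  path F hF h := homotopicWith_of F hF h
  symm h := h.symm
  trans h h' := h.trans h'

theorem norm_le_one_of_isometry {v : A} (hv : star v * v = 1) : ‖v‖ ≤ 1 := by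
  nontriviality A
  have := CStarRing.norm_star_mul_self (x := v)
  rw [hv, CStarRing.norm_one] at this
  nlinarith [norm_nonneg v]

theorem small_isUnit {y V W : C(X, A)} (yy : star y * y = 1) (yy' : y * star y = 1)
    (VV : star V * V = 1) (WW : star W * W = 1)
    (hsmall : ∀ x, ‖star (W x) * y x * V x‖ < 1) {t : ℝ} (ht : t ∈ Set.Icc (0 : ℝ) 1) :
    IsUnit (y - ((t : ℝ) : ℂ) • (W * (star W * y * V) * star V)) := by
  rw [ContinuousMap.isUnit_iff_forall_isUnit]
  intro x
  have p1 : star (y x) * y x = 1 := by simpa using congrArg (fun k : C(X, A) => k x) yy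
  have p1' : y x * star (y x) = 1 := by simpa using congrArg (fun k : C(X, A) => k x) yy'
  have p2 : star (V x) * V x = 1 := by simpa using congrArg (fun k : C(X, A) => k x) VV
  have p3 : star (W x) * W x = 1 := by simpa using congrArg (fun k : C(X, A) => k x) WW
  set Z : A := W x * (star (W x) * y x * V x) * star (V x) with hZ
  have e : (y - (t : ℂ) • (W * (star W * y * V) * star V)) x =
      y x * (1 - (t : ℂ) • (star (y x) * Z)) := by
    rw [mul_sub, mul_one, mul_smul_comm, ← mul_assoc (y x) (star (y x)) Z, p1', one_mul]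
    rfl
  rw [e]
  have hyu : IsUnit (y x) := ⟨⟨y x, star (y x), p1', p1⟩, rfl⟩
  refine hyu.mul ?_
  have e1 : ‖y x‖ ≤ 1 := norm_le_one_of_isometry p1
  have e2 : ‖V x‖ ≤ 1 := norm_le_one_of_isometry p2
  have e3 : ‖W x‖ ≤ 1 := norm_le_one_of_isometry p3
  have e4 : ‖Z‖ ≤ ‖star (W x) * y x * V x‖ := by
    calc _ ≤ ‖W x * (star (W x) * y x * V x)‖ * ‖star (V x)‖ := norm_mul_le _ _
      _ ≤ (‖W x‖ * ‖star (W x) * y x * V x‖) * ‖star (V x)‖ := by
          gcongr; exact norm_mul_le _ _
      _ ≤ (1 * ‖star (W x) * y x * V x‖) * 1 := by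
          gcongr; rw [norm_star]; exact e2
      _ = _ := by ring
  have n1 : ‖(t : ℂ) • (star (y x) * Z)‖ < 1 := by
    rw [norm_smul]
    have e6 : ‖(t : ℂ)‖ ≤ 1 := by
      rw [Complex.norm_real, Real.norm_eq_abs, abs_of_nonneg ht.1]; exact ht.2
    calc ‖(t : ℂ)‖ * ‖star (y x) * Z‖ ≤ 1 * (‖star (y x)‖ * ‖Z‖) := by
          gcongr; exact norm_mul_le _ _
      _ ≤ 1 * (1 * ‖Z‖) := by gcongr; rw [norm_star]; exact e1
      _ ≤ ‖star (W x) * y x * V x‖ := by simpa using e4
      _ < 1 := hsmall x
  exact isUnit_one_sub_of_norm_lt_one n1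

variable {act σ}

/-- The contraction through invertible equivariant maps, given the isometries `V`, `W`. -/
theorem contract_of_isometries {y V W : C(X, A)} (hy : y ∈ EqA act σ) (hV : V ∈ EqA act σ)
    (hW : W ∈ EqA act σ) (yy : star y * y = 1) (yy' : y * star y = 1)
    (VV : star V * V = 1) (WW : star W * W = 1) (WV : star W * V = 0)
    (hsmall : ∀ x, ‖star (W x) * y x * V x‖ < 1)
    {s S : A} (hss : star s * s = 1) (hSS : star S * S = 1) (hsum : s * star s + S * star S = 1)
    (hσs : ∀ g, σ g s = s) (hσS : ∀ g, σ g S = S)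
    (φ : A →⋆ₐ[ℂ] A) (hφc : Continuous φ) (hφ : ∀ a, φ a = s * a * star s + S * φ a * star S)
    (hσφ : ∀ g a, σ g (φ a) = φ (σ g a)) :
    HomotopicWith y 1 (Adm act σ) := by
  refine (pathCtx act σ).contract hy hV hW VV WW WV
    (fun t ht => small_isUnit yy yy' VV WW hsmall ht)
    (s := ContinuousMap.const X s) (S := ContinuousMap.const X S)
    ?_ ?_ ?_ ?_ ?_ (ContinuousMap.compStarAlgHom X φ hφc) ?_ ?_
  · ext x; exact hss
  · ext x; exact hSS
  · ext x; exact hsum
  · intro g x; exact (hσs g).symm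
  · intro g x; exact (hσS g).symm
  · intro a; ext x; exact hφ (a x)
  · intro f hf g x
    have := hf g x
    simp only [ContinuousMap.compStarAlgHom_apply, ContinuousMap.comp_apply,
      ContinuousMap.coe_mk]
    rw [this, hσφ]

end Pool.Agent.Lib.MP_3c1a79_gt
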