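import Mathlib

/-!
The polar retraction of the invertible elements of a C*-algebra onto the unitary ones.
-/

namespace Pool.Agent.Lib.MP_3c1a79_gt

variable {A : Type*} [CStarAlgebra A] [PartialOrder A] [StarOrderedRing A]

/-- polar retraction -/
noncomputable def pol (T : A) : A := T * Ring.inverse (CFC.sqrt (star T * T))

theorem isUnit_sqrt {a : A} (ha : 0 ≤ a) (hu : IsUnit a) : IsUnit (CFC.sqrt a) := by
  have h : IsUnit (CFC.sqrt a ^ 2) := by rw [sq, CFC.sqrt_mul_sqrt_self a ha]; exact hu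
  exact (isUnit_pow_iff two_ne_zero).1 h

theorem isUnit_star_mul {T : A} (hT : IsUnit T) : IsUnit (star T * T) := hT.star.mul hT

theorem pol_mem {T : A} (hT : IsUnit T) : pol T ∈ unitary A := by
  have h0 : 0 ≤ star T * T := star_mul_self_nonneg T
  have hb := isUnit_sqrt h0 (isUnit_star_mul hT)
  have hbb := CFC.sqrt_mul_sqrt_self (star T * T) h0
  have hsa : star (CFC.sqrt (star T * T)) = CFC.sqrt (star T * T) :=
    (CFC.sqrt_nonneg (star T * T)).isSelfAdjoint
  set b := CFC.sqrt (star T * T) with hbdef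
  have hsi : star (Ring.inverse b) = Ring.inverse b := by
    rw [← Ring.inverse_star, hsa]
  have h1 : star (pol T) * pol T = 1 := by
    have : star (pol T) * pol T = Ring.inverse b * (star T * T) * Ring.inverse b := by
      rw [pol, star_mul, ← hbdef, hsi]; simp only [mul_assoc]
    rw [this, ← hbb, ← mul_assoc, Ring.inverse_mul_cancel _ hb, one_mul,
      Ring.mul_inverse_cancel _ hb]
  have hu : IsUnit (pol T) := hT.mul (hb.ringInverse)
  refine Unitary.mem_iff.2 ⟨h1, ?_⟩
  obtain ⟨v, hv⟩ := hu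
  rw [← hv] at h1 ⊢
  have : star (v : A) = (v⁻¹ : Aˣ) := by
    calc star (v : A) = star (v : A) * (v * (v⁻¹ : Aˣ)) := by simp
      _ = (v⁻¹ : Aˣ) := by rw [← mul_assoc, h1, one_mul]
  rw [this]; simp

theorem pol_of_mem {T : A} (hT : T ∈ unitary A) : pol T = T := by
  rw [pol, Unitary.star_mul_self_of_mem hT, CFC.sqrt_one, Ring.inverse_one, mul_one]

theorem map_sqrt (φ : A →⋆ₐ[ℂ] A) {a : A} (ha : 0 ≤ a) : φ (CFC.sqrt a) = CFC.sqrt (φ a) := by
  symm
  apply CFC.sqrt_unique
  · rw [← map_mul, CFC.sqrt_mul_sqrt_self a ha]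
  · exact map_nonneg φ (CFC.sqrt_nonneg a)

theorem map_inverse (φ : A →⋆ₐ[ℂ] A) {a : A} (ha : IsUnit a) :
    φ (Ring.inverse a) = Ring.inverse (φ a) := by
  obtain ⟨u, rfl⟩ := ha
  have h : φ (u : A) = ((Units.map (φ : A →* A) u : Aˣ) : A) := rfl
  rw [h, Ring.inverse_unit, Ring.inverse_unit]
  rfl

theorem map_pol (φ : A →⋆ₐ[ℂ] A) {T : A} (hT : IsUnit T) : φ (pol T) = pol (φ T) := by
  have h0 : 0 ≤ star T * T := star_mul_self_nonneg T
  rw [pol, pol, map_mul, map_inverse φ (isUnit_sqrt h0 (isUnit_star_mul hT)), map_sqrt φ h0,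
    map_mul, map_star]

theorem continuousAt_pol {T : A} (hT : IsUnit T) : ContinuousAt pol T := by
  have h0 : 0 ≤ star T * T := star_mul_self_nonneg T
  refine ContinuousAt.mul continuousAt_id ?_
  have h1 : ContinuousAt (fun T : A => CFC.sqrt (star T * T)) T := by
    have h2 := CFC.continuousOn_sqrt (A := A) (star T * T) h0
    have h3 : Filter.Tendsto (fun T : A => star T * T) (nhds T)
        (nhdsWithin (star T * T) {a : A | 0 ≤ a}) := by
      refine tendsto_nhdsWithin_iff.2 ⟨?_, ?_⟩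
      · exact (continuous_star.mul continuous_id).continuousAt
      · exact Filter.Eventually.of_forall fun x => star_mul_self_nonneg x
    exact h2.tendsto.comp h3
  obtain ⟨u, hu⟩ := isUnit_sqrt h0 (isUnit_star_mul hT)
  have h4 := NormedRing.inverse_continuousAt u
  rw [hu] at h4
  exact ContinuousAt.comp (f := fun T : A => CFC.sqrt (star T * T)) h4 h1

end Pool.Agent.Lib.MP_3c1a79_gt
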