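import Mathlib

/-!
Selection of a pair of orthogonal isometries over the nerve of a covering.
-/

namespace Pool.Agent.Lib.MP_3c1a79_gt

/-! ### coefficients -/

noncomputable def k0 (τ : ℝ) : ℝ := √(1 - 2 * τ)
noncomputable def k1 (τ : ℝ) : ℝ := √(1 - |2 * τ - 1|)
noncomputable def k2 (τ : ℝ) : ℝ := √(2 * τ - 1)

theorem k0_mul_k2 (τ : ℝ) : k0 τ * k2 τ = 0 := by
  unfold k0 k2
  rcases le_total (1 - 2 * τ) 0 with h | h
  · rw [Real.sqrt_eq_zero_of_nonpos h, zero_mul]
  · rw [Real.sqrt_eq_zero_of_nonpos (by linarith : 2 * τ - 1 ≤ 0), mul_zero]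

theorem k_sq {τ : ℝ} (h0 : 0 ≤ τ) (h1 : τ ≤ 1) : k0 τ ^ 2 + k1 τ ^ 2 + k2 τ ^ 2 = 1 := by
  unfold k0 k1 k2
  rcases le_total (2 * τ) 1 with h | h
  · rw [Real.sqrt_eq_zero_of_nonpos (by linarith : 2 * τ - 1 ≤ 0), abs_of_nonpos (by linarith),
      Real.sq_sqrt (by linarith), Real.sq_sqrt (by linarith)]
    ring
  · rw [Real.sqrt_eq_zero_of_nonpos (by linarith : 1 - 2 * τ ≤ 0), abs_of_nonneg (by linarith),
      Real.sq_sqrt (by linarith), Real.sq_sqrt (by linarith)]
    ring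

@[simp] theorem k0_zero : k0 0 = 1 := by simp [k0]
@[simp] theorem k1_zero : k1 0 = 0 := by simp [k1]
@[simp] theorem k2_zero : k2 0 = 0 := by simp [k2, Real.sqrt_eq_zero_of_nonpos]
@[simp] theorem k0_one : k0 1 = 0 := by
  unfold k0; exact Real.sqrt_eq_zero_of_nonpos (by norm_num)
@[simp] theorem k1_one : k1 1 = 0 := by
  unfold k1; exact Real.sqrt_eq_zero_of_nonpos (by norm_num)
@[simp] theorem k2_one : k2 1 = 1 := by
  unfold k2; norm_num

theorem k0_of_half_le {τ : ℝ} (h : 1 / 2 ≤ τ) : k0 τ = 0 := by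
  unfold k0; exact Real.sqrt_eq_zero_of_nonpos (by linarith)

theorem continuous_k0 : Continuous k0 := by unfold k0; fun_prop
theorem continuous_k1 : Continuous k1 := by unfold k1; fun_prop
theorem continuous_k2 : Continuous k2 := by unfold k2; fun_prop

section
variable {A : Type*} [CStarAlgebra A]

/-- mixture -/
noncomputable def mix (τ : ℝ) (a b p : A) : A := k0 τ • a + k1 τ • b + k2 τ • p

theorem mix_zero (a b p : A) : mix 0 a b p = a := by simp [mix]
theorem mix_one (a b p : A) : mix 1 a b p = p := by simp [mix]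

theorem star_mix_mul_mix {τ : ℝ} (h0 : 0 ≤ τ) (h1 : τ ≤ 1) {a b p a' b' p' C ε : A}
    (h00 : star a' * C * a = ε) (h11 : star b' * C * b = ε) (h22 : star p' * C * p = ε)
    (h01 : star a' * C * b = 0) (h10 : star b' * C * a = 0)
    (h12 : star b' * C * p = 0) (h21 : star p' * C * b = 0) :
    star (mix τ a' b' p') * C * mix τ a b p = ε := by
  have e : star (mix τ a' b' p') * C * mix τ a b p =
      (k0 τ * k0 τ) • (star a' * C * a) + (k1 τ * k1 τ) • (star b' * C * b) +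
      (k2 τ * k2 τ) • (star p' * C * p) + (k0 τ * k1 τ) • (star a' * C * b) +
      (k1 τ * k0 τ) • (star b' * C * a) + (k1 τ * k2 τ) • (star b' * C * p) +
      (k2 τ * k1 τ) • (star p' * C * b) + (k0 τ * k2 τ) • (star a' * C * p) +
      (k2 τ * k0 τ) • (star p' * C * a) := by
    simp only [mix, star_add, star_smul, star_trivial, add_mul, mul_add, smul_mul_assoc,
      mul_smul_comm, smul_add, smul_smul]
    module
  rw [e, h00, h11, h22, h01, h10, h12, h21, k0_mul_k2, mul_comm (k2 τ) (k0 τ), k0_mul_k2]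
  simp only [smul_zero, zero_smul, add_zero]
  rw [← add_smul, ← add_smul, ← sq, ← sq, ← sq, k_sq h0 h1, one_smul]

end

/-! ### a recursion principle on finite sets -/

theorem exists_rec {ι D : Type*} [Inhabited D]
    (R : Finset ι → (Finset ι → D) → D → Prop)
    (hR : ∀ F f f' d, (∀ E, E ⊂ F → f E = f' E) → R F f d → R F f' d)
    (ex : ∀ F f, ∃ d, R F f d) : ∃ f : Finset ι → D, ∀ F, R F f (f F) := by
  classical
  choose g hg using ex
  let H : ∀ s : Finset ι, (∀ t, t ⊂ s → D) → D :=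
    fun F prev => g F (fun E => if h : E ⊂ F then prev E h else default)
  let f : Finset ι → D := fun F => Finset.strongInduction H F
  refine ⟨f, fun F => ?_⟩
  have h1 : f F = g F (fun E => if E ⊂ F then f E else default) := by
    have : f F = H F (fun t _ => f t) := Finset.strongInduction_eq H F
    rw [this]
    simp only [H]
    congr 1
  rw [h1]
  refine hR F _ f _ ?_ (hg F _)
  intro E hE
  simp [hE]


section
variable {A : Type*} [CStarAlgebra A]

/-- general position: for finitely many elements `T` there are three isometries `u i` in `M` with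
`star (u i) * T * u j = 0` for `i ≠ j`. -/
def GenPos (M : StarSubalgebra ℂ A) : Prop :=
  ∀ 𝒯 : Set A, 𝒯.Finite → ∃ u : Fin 3 → A, (∀ i, u i ∈ M) ∧ (∀ i, star (u i) * u i = 1) ∧
    ∀ T ∈ 𝒯, ∀ i j, i ≠ j → star (u i) * T * u j = 0

theorem GenPos.fg {M : StarSubalgebra ℂ A} (h : GenPos M) (N : Submodule ℝ A) (hN : N.FG) :
    ∃ u : Fin 3 → A, (∀ i, u i ∈ M) ∧ (∀ i, star (u i) * u i = 1) ∧
      ∀ T ∈ N, ∀ i j, i ≠ j → star (u i) * T * u j = 0 := by
  obtain ⟨s, rfl⟩ := hN
  obtain ⟨u, h1, h2, h3⟩ := h (s : Set A) s.finite_toSet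
  refine ⟨u, h1, h2, fun T hT i j hij => ?_⟩
  induction hT using Submodule.span_induction with
  | mem x hx => exact h3 x hx i j hij
  | zero => simp
  | add x y _ _ hx hy => rw [mul_add, add_mul, hx, hy, add_zero]
  | smul a x _ hx => rw [mul_smul_comm, smul_mul_assoc, hx, smul_zero]

variable {ι : Type*}

/-- the type of the data attached to a simplex: two functions with values in a finite dimensional
space. -/
def Dat (ι : Type*) (A : Type*) [CStarAlgebra A] : Type _ :=
  {d : (ι → ℝ) → A × A // ∃ N : Submodule ℝ A, N.FG ∧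
    ∀ t, (d t).1 ∈ N ∧ (d t).2 ∈ N ∧ star (d t).1 ∈ N ∧ star (d t).2 ∈ N}

instance : Inhabited (Dat ι A) :=
  ⟨⟨fun _ => 0, ⊥, Submodule.fg_bot, fun t => by simp⟩⟩

variable [DecidableEq ι]

/-- basic test elements -/
def Base (c : ι → A) (j' : A) (F : Finset ι) (f : Finset ι → Dat ι A) : Set A :=
  {x | x = 1 ∨ x = j' ∨ x = star j' ∨ (∃ α ∈ F, x = c α) ∨ ∃ β ∈ F, ∃ t : ι → ℝ,
    x = ((f (F.erase β)).1 t).1 ∨ x = ((f (F.erase β)).1 t).2 ∨
    x = star ((f (F.erase β)).1 t).1 ∨ x = star ((f (F.erase β)).1 t).2}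

theorem Base_subset_fg (c : ι → A) (j' : A) (F : Finset ι) (f : Finset ι → Dat ι A) :
    ∃ N : Submodule ℝ A, N.FG ∧ Base c j' F f ⊆ N := by
  classical
  choose N hN h1 using fun E => (f E).2
  refine ⟨(Submodule.span ℝ ((insert 1 (insert j' (insert (star j') (F.image c))) : Finset A) :
    Set A)) ⊔ F.sup (fun β => N (F.erase β)), ?_, ?_⟩
  · refine Submodule.FG.sup (Submodule.fg_span (Finset.finite_toSet _)) ?_
    exact Submodule.fg_finset_sup F _ (fun i _ => hN _)
  · intro x hx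
    have hspan : ∀ z ∈ (insert 1 (insert j' (insert (star j') (F.image c))) : Finset A),
        z ∈ (Submodule.span ℝ ((insert 1 (insert j' (insert (star j') (F.image c))) : Finset A) :
          Set A)) ⊔ F.sup (fun β => N (F.erase β)) := by
      intro z hz
      exact Submodule.mem_sup_left (Submodule.subset_span hz)
    have hsup : ∀ β ∈ F, ∀ z ∈ N (F.erase β),
        z ∈ (Submodule.span ℝ ((insert 1 (insert j' (insert (star j') (F.image c))) : Finset A) :
          Set A)) ⊔ F.sup (fun β => N (F.erase β)) := by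
      intro β hβ z hz
      refine Submodule.mem_sup_right ?_
      exact (Finset.le_sup (f := fun β => N (F.erase β)) hβ) hz
    rcases hx with rfl | rfl | rfl | ⟨α, hα, rfl⟩ | ⟨β, hβ, t, h⟩
    · exact hspan _ (by simp)
    · exact hspan _ (by simp)
    · exact hspan _ (by simp)
    · exact hspan _ (by simp only [Finset.mem_insert, Finset.mem_image]; exact Or.inr (Or.inr (Or.inr ⟨α, hα, rfl⟩)))
    · have := h1 (F.erase β) t
      rcases h with rfl | rfl | rfl | rfl
      · exact hsup β hβ _ this.1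
      · exact hsup β hβ _ this.2.1
      · exact hsup β hβ _ this.2.2.1
      · exact hsup β hβ _ this.2.2.2

/-- the ratio `min / max` -/
noncomputable def ratio (F : Finset ι) (t : ι → ℝ) : ℝ :=
  if h : F.Nonempty then F.inf' h t / F.sup' h t else 0

/-- the recursion formula, at a given minimising index -/
noncomputable def stepAt (j j' : A) (F : Finset ι) (f : Finset ι → Dat ι A) (u : Fin 3 → A)
    (β : ι) (t : ι → ℝ) : A × A :=
  (mix (ratio F t) (((f (F.erase β)).1 (fun a => t a - t β)).1 * j)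
      (((f (F.erase β)).1 (fun a => t a - t β)).1 * j' * u 2) (u 0),
   mix (ratio F t) (((f (F.erase β)).1 (fun a => t a - t β)).2 * j)
      (((f (F.erase β)).1 (fun a => t a - t β)).2 * j' * u 2) (u 1))

/-- the recursion relation -/
def Rel (M : StarSubalgebra ℂ A) (c : ι → A) (j j' : A) (F : Finset ι)
    (f : Finset ι → Dat ι A) (d : Dat ι A) : Prop :=
  (F = ∅ → ∀ t, d.1 t = 0) ∧
  (F.Nonempty → ∃ u : Fin 3 → A, (∀ i, u i ∈ M) ∧ (∀ i, star (u i) * u i = 1) ∧
    (∀ x ∈ Base c j' F f, ∀ y ∈ Base c j' F f, ∀ z ∈ Base c j' F f, ∀ i k, i ≠ k →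
      star (u i) * (x * y * z) * u k = 0) ∧
    ∀ t, ∃ β ∈ F, (∀ α ∈ F, t β ≤ t α) ∧ d.1 t = stepAt j j' F f u β t)

theorem Rel_congr (M : StarSubalgebra ℂ A) (c : ι → A) (j j' : A) (F : Finset ι)
    (f f' : Finset ι → Dat ι A) (d : Dat ι A) (h : ∀ E, E ⊂ F → f E = f' E)
    (hR : Rel M c j j' F f d) : Rel M c j j' F f' d := by
  have h' : ∀ β ∈ F, f (F.erase β) = f' (F.erase β) := fun β hβ => h _ (Finset.erase_ssubset hβ)
  have hB : Base c j' F f' = Base c j' F f := by
    ext x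
    simp only [Base, Set.mem_setOf_eq]
    refine or_congr Iff.rfl (or_congr Iff.rfl (or_congr Iff.rfl (or_congr Iff.rfl ?_)))
    constructor
    · rintro ⟨β, hβ, h2⟩
      exact ⟨β, hβ, by rw [h' β hβ]; exact h2⟩
    · rintro ⟨β, hβ, h2⟩
      exact ⟨β, hβ, by rw [← h' β hβ]; exact h2⟩
  refine ⟨hR.1, fun hF => ?_⟩
  obtain ⟨u, h1, h2, h3, h4⟩ := hR.2 hF
  refine ⟨u, h1, h2, by rw [hB]; exact h3, fun t => ?_⟩
  obtain ⟨β, hβ, hm, he⟩ := h4 t
  refine ⟨β, hβ, hm, ?_⟩
  rw [he]; simp only [stepAt, h' β hβ]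

theorem Rel_exists {M : StarSubalgebra ℂ A} (hGP : GenPos M) (c : ι → A) (j j' : A) (F : Finset ι)
    (f : Finset ι → Dat ι A) : ∃ d, Rel M c j j' F f d := by
  classical
  rcases F.eq_empty_or_nonempty with rfl | hF
  · refine ⟨⟨fun _ => 0, ⊥, Submodule.fg_bot, fun t => by simp⟩, fun _ t => rfl, fun h => ?_⟩
    simp at h
  obtain ⟨N, hN, hsub⟩ := Base_subset_fg c j' F f
  obtain ⟨u, u1, u2, u3⟩ := hGP.fg (N * N * N) ((hN.mul hN).mul hN)
  have hmin : ∀ t : ι → ℝ, ∃ β ∈ F, ∀ α ∈ F, t β ≤ t α := fun t => F.exists_min_image t hF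
  choose β hβ hβm using hmin
  let L : Submodule ℝ A := Submodule.span ℝ (({1, j, star j, j' * u 2, star (j' * u 2), u 0, u 1,
    star (u 0), star (u 1)} : Finset A) : Set A)
  have hL : ∀ x ∈ ({1, j, star j, j' * u 2, star (j' * u 2), u 0, u 1,
    star (u 0), star (u 1)} : Finset A), x ∈ L := fun x hx => Submodule.subset_span hx
  have hL1 : (1 : A) ∈ L := hL _ (by simp)
  have l1 : j ∈ L := hL _ (by simp)
  have l2 : star j ∈ L := hL _ (by simp)
  have l3 : j' * u 2 ∈ L := hL _ (by simp)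
  have l4 : star (j' * u 2) ∈ L := hL _ (by simp only [Finset.mem_insert]; tauto)
  have l5 : u 0 ∈ L := hL _ (by simp)
  have l6 : u 1 ∈ L := hL _ (by simp)
  have l7 : star (u 0) ∈ L := hL _ (by simp)
  have l8 : star (u 1) ∈ L := hL _ (by simp)
  have hN1 : (1 : A) ∈ N := hsub (Or.inl rfl)
  have hLN : ∀ x ∈ L, x ∈ L * N * L := fun x hx => by
    have := Submodule.mul_mem_mul (Submodule.mul_mem_mul hx hN1) hL1
    simpa using this
  have hNL : ∀ x ∈ N, ∀ y ∈ L, x * y ∈ L * N * L := fun x hx y hy => by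
    have := Submodule.mul_mem_mul (Submodule.mul_mem_mul hL1 hx) hy
    simpa using this
  have hLN' : ∀ x ∈ N, ∀ y ∈ L, y * x ∈ L * N * L := fun x hx y hy => by
    have := Submodule.mul_mem_mul (Submodule.mul_mem_mul hy hx) hL1
    simpa using this
  have hmix : ∀ τ : ℝ, ∀ a b p : A, a ∈ L * N * L → b ∈ L * N * L → p ∈ L * N * L →
      mix τ a b p ∈ L * N * L := fun τ a b p ha hb hp =>
    add_mem (add_mem (Submodule.smul_mem _ _ ha) (Submodule.smul_mem _ _ hb))
      (Submodule.smul_mem _ _ hp)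
  have hsmix : ∀ τ : ℝ, ∀ a b p : A, star (mix τ a b p) = mix τ (star a) (star b) (star p) := by
    intro τ a b p; simp [mix]
  refine ⟨⟨fun t => stepAt j j' F f u (β t) t, L * N * L, ?_, ?_⟩, ?_, ?_⟩
  · exact ((Submodule.fg_span (Finset.finite_toSet _)).mul hN).mul
      (Submodule.fg_span (Finset.finite_toSet _))
  · intro t
    have n1 : ((f (F.erase (β t))).1 (fun a => t a - t (β t))).1 ∈ N :=
      hsub (Or.inr (Or.inr (Or.inr (Or.inr ⟨β t, hβ t, _, Or.inl rfl⟩))))
    have n2 : ((f (F.erase (β t))).1 (fun a => t a - t (β t))).2 ∈ N :=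
      hsub (Or.inr (Or.inr (Or.inr (Or.inr ⟨β t, hβ t, _, Or.inr (Or.inl rfl)⟩))))
    have n3 : star ((f (F.erase (β t))).1 (fun a => t a - t (β t))).1 ∈ N :=
      hsub (Or.inr (Or.inr (Or.inr (Or.inr ⟨β t, hβ t, _, Or.inr (Or.inr (Or.inl rfl))⟩))))
    have n4 : star ((f (F.erase (β t))).1 (fun a => t a - t (β t))).2 ∈ N :=
      hsub (Or.inr (Or.inr (Or.inr (Or.inr ⟨β t, hβ t, _, Or.inr (Or.inr (Or.inr rfl))⟩))))
    refine ⟨?_, ?_, ?_, ?_⟩
    · refine hmix _ _ _ _ (hNL _ n1 _ l1) ?_ (hLN _ l5)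
      rw [mul_assoc _ j' (u 2)]; exact hNL _ n1 _ l3
    · refine hmix _ _ _ _ (hNL _ n2 _ l1) ?_ (hLN _ l6)
      rw [mul_assoc _ j' (u 2)]; exact hNL _ n2 _ l3
    · simp only [stepAt]
      rw [hsmix]
      refine hmix _ _ _ _ ?_ ?_ (hLN _ l7)
      · rw [star_mul]; exact hLN' _ n3 _ l2
      · rw [mul_assoc _ j' (u 2), star_mul]; exact hLN' _ n3 _ l4
    · simp only [stepAt]
      rw [hsmix]
      refine hmix _ _ _ _ ?_ ?_ (hLN _ l8)
      · rw [star_mul]; exact hLN' _ n4 _ l2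
      · rw [mul_assoc _ j' (u 2), star_mul]; exact hLN' _ n4 _ l4
  · intro h; exact absurd h hF.ne_empty
  · intro _
    refine ⟨u, u1, u2, ?_, fun t => ⟨β t, hβ t, hβm t, rfl⟩⟩
    intro x hx y hy z hz i k hik
    exact u3 _ (Submodule.mul_mem_mul (Submodule.mul_mem_mul (hsub hx) (hsub hy)) (hsub hz)) i k hik

/-- existence of the recursive data -/
theorem exists_data {M : StarSubalgebra ℂ A} (hGP : GenPos M) (c : ι → A) (j j' : A) :
    ∃ f : Finset ι → Dat ι A, ∀ F, Rel M c j j' F f (f F) :=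
  exists_rec (Rel M c j j') (Rel_congr M c j j') (Rel_exists hGP c j j')

end

end Pool.Agent.Lib.MP_3c1a79_gt
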