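import Mathlib
import Pool.Agent.Lib.MP_3c1a79_gt.Selection

/-!
Properties of the recursively defined isometries over the nerve.
-/

namespace Pool.Agent.Lib.MP_3c1a79_gt

variable {A : Type*} [CStarAlgebra A]

theorem sandwich {τ : ℝ} (h0 : 0 ≤ τ) (h1 : τ ≤ 1) {j j' k Sa Sb pa pb C ε : A}
    (hj : star j * j = 1) (hj' : star j' * j' = 1) (hjj' : star j * j' = 0)
    (hk : star k * k = 1) (hε : star Sa * C * Sb = ε) (hε' : ε = 0 ∨ ε = 1)
    (hp : star pa * C * pb = ε) (ha : star k * (star j' * star Sa * C) * pb = 0)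
    (hb : star pa * (C * Sb * j') * k = 0) :
    star (mix τ (Sa * j) (Sa * j' * k) pa) * C * mix τ (Sb * j) (Sb * j' * k) pb = ε := by
  have hj'j : star j' * j = 0 := by simpa using congrArg star hjj'
  have comm : ∀ x y : A, star x * y = 1 → star x * ε * y = ε := by
    intro x y h
    rcases hε' with rfl | rfl
    · simp
    · simpa using h
  have comm0 : ∀ x y : A, star x * y = 0 → star x * ε * y = 0 := by
    intro x y h
    rcases hε' with rfl | rfl
    · simp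
    · simpa using h
  apply star_mix_mul_mix h0 h1
  · calc star (Sa * j) * C * (Sb * j) = star j * (star Sa * C * Sb) * j := by
          simp only [star_mul, mul_assoc]
      _ = ε := by rw [hε]; exact comm _ _ hj
  · calc star (Sa * j' * k) * C * (Sb * j' * k) =
          star (j' * k) * (star Sa * C * Sb) * (j' * k) := by simp only [star_mul, mul_assoc]
      _ = ε := by
          rw [hε]; refine comm _ _ ?_
          rw [star_mul, mul_assoc, ← mul_assoc (star j'), hj', one_mul, hk]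
  · exact hp
  · calc star (Sa * j) * C * (Sb * j' * k) =
          star j * (star Sa * C * Sb) * (j' * k) := by simp only [star_mul, mul_assoc]
      _ = 0 := by
          rw [hε]; refine comm0 _ _ ?_
          rw [← mul_assoc, hjj', zero_mul]
  · calc star (Sa * j' * k) * C * (Sb * j) =
          star (j' * k) * (star Sa * C * Sb) * j := by simp only [star_mul, mul_assoc]
      _ = 0 := by
          rw [hε]; refine comm0 _ _ ?_
          rw [star_mul, mul_assoc, hj'j, mul_zero]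
  · rw [← ha]; simp only [star_mul, mul_assoc]
  · rw [← hb]; simp only [mul_assoc]

/-- positivity on a simplex -/
def Pos {ι : Type*} (F : Finset ι) (t : ι → ℝ) : Prop := (∀ α ∈ F, 0 ≤ t α) ∧ ∃ α ∈ F, 0 < t α

theorem mix_mem {M : StarSubalgebra ℂ A} {τ : ℝ} {a b p : A} (ha : a ∈ M) (hb : b ∈ M)
    (hp : p ∈ M) : mix τ a b p ∈ M := by
  have h : ∀ (r : ℝ) (x : A), x ∈ M → r • x ∈ M := by
    intro r x hx
    have : r • x = (r : ℂ) • x := (Complex.coe_smul r x).symm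
    rw [this]
    exact M.smul_mem hx _
  exact add_mem (add_mem (h _ _ ha) (h _ _ hb)) (h _ _ hp)

variable {ι : Type*} [DecidableEq ι]

section data

variable {M : StarSubalgebra ℂ A} {c : ι → A} {j j' : A} {f : Finset ι → Dat ι A}

theorem data_mem (hjM : j ∈ M) (hjM' : j' ∈ M) (hf : ∀ F, Rel M c j j' F f (f F)) :
    ∀ F t, ((f F).1 t).1 ∈ M ∧ ((f F).1 t).2 ∈ M := by
  intro F
  induction F using Finset.strongInduction with
  | H F ih =>
    intro t
    rcases F.eq_empty_or_nonempty with rfl | hF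
    · rw [(hf ∅).1 rfl t]; exact ⟨M.zero_mem, M.zero_mem⟩
    · obtain ⟨u, h1, -, -, h4⟩ := (hf F).2 hF
      obtain ⟨β, hβ, -, he⟩ := h4 t
      rw [he]
      have := ih _ (Finset.erase_ssubset hβ) (fun a => t a - t β)
      exact ⟨mix_mem (mul_mem this.1 hjM) (mul_mem (mul_mem this.1 hjM') (h1 2)) (h1 0),
        mix_mem (mul_mem this.2 hjM) (mul_mem (mul_mem this.2 hjM') (h1 2)) (h1 1)⟩

theorem inf'_eq {F : Finset ι} (hF : F.Nonempty) {t : ι → ℝ} {β : ι} (hβ : β ∈ F)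
    (hm : ∀ α ∈ F, t β ≤ t α) : F.inf' hF t = t β :=
  le_antisymm (Finset.inf'_le _ hβ) (Finset.le_inf' _ _ hm)

theorem ratio_eq_zero {F : Finset ι} {t : ι → ℝ} {β : ι} (hβ : β ∈ F)
    (hm : ∀ α ∈ F, t β ≤ t α) (h0 : t β = 0) : ratio F t = 0 := by
  have hF : F.Nonempty := ⟨β, hβ⟩
  rw [ratio, dif_pos hF, inf'_eq hF hβ hm, h0, zero_div]

theorem ratio_nonneg {F : Finset ι} {t : ι → ℝ} (hp : Pos F t) : 0 ≤ ratio F t := by
  obtain ⟨hn, α, hα, hpos⟩ := hp
  have hF : F.Nonempty := ⟨α, hα⟩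
  rw [ratio, dif_pos hF]
  refine div_nonneg (Finset.le_inf' _ _ hn) ?_
  exact hpos.le.trans (Finset.le_sup' _ hα)

theorem sup'_pos {F : Finset ι} {t : ι → ℝ} (hp : Pos F t) (hF : F.Nonempty) :
    0 < F.sup' hF t := by
  obtain ⟨hn, α, hα, hpos⟩ := hp
  exact hpos.trans_le (Finset.le_sup' _ hα)

theorem ratio_le_one {F : Finset ι} {t : ι → ℝ} (hp : Pos F t) : ratio F t ≤ 1 := by
  obtain ⟨α, hα, -⟩ := hp.2
  have hF : F.Nonempty := ⟨α, hα⟩
  rw [ratio, dif_pos hF, div_le_one (sup'_pos hp hF)]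
  exact (Finset.inf'_le _ hα).trans (Finset.le_sup' _ hα)

theorem ratio_eq_one {F : Finset ι} {t : ι → ℝ} {β : ι} (hβ : β ∈ F) (hp : Pos F t)
    (he : ∀ α ∈ F, t α ≤ t β) (hm : ∀ α ∈ F, t β ≤ t α) : ratio F t = 1 := by
  have hF : F.Nonempty := ⟨β, hβ⟩
  have h1 : F.sup' hF t = t β :=
    le_antisymm (Finset.sup'_le _ _ he) (Finset.le_sup' _ hβ)
  have h2 := sup'_pos hp hF
  rw [ratio, dif_pos hF, inf'_eq hF hβ hm, h1]
  rw [h1] at h2
  exact div_self h2.ne'

theorem data_zero (hf : ∀ F, Rel M c j j' F f (f F)) :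
    ∀ (F : Finset ι), ∀ α ∈ F, ∀ t, Pos F t → t α = 0 →
      (f F).1 t = (((f (F.erase α)).1 t).1 * j, ((f (F.erase α)).1 t).2 * j) := by
  intro F
  induction F using Finset.strongInduction with
  | H F ih =>
    intro α hα t hp h0
    obtain ⟨u, -, -, -, h4⟩ := (hf F).2 ⟨α, hα⟩
    obtain ⟨β, hβ, hm, he⟩ := h4 t
    have hβ0 : t β = 0 := le_antisymm (h0 ▸ hm α hα) (hp.1 β hβ)
    have hr := ratio_eq_zero hβ hm hβ0
    have ht : (fun a => t a - t β) = t := by ext a; rw [hβ0, sub_zero]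
    have he' : (f F).1 t = (((f (F.erase β)).1 t).1 * j, ((f (F.erase β)).1 t).2 * j) := by
      rw [he, stepAt, hr, ht, mix_zero, mix_zero]
    by_cases hab : α = β
    · subst hab; exact he'
    · obtain ⟨γ, hγ, hγp⟩ := hp.2
      have hγβ : γ ≠ β := by rintro rfl; rw [hβ0] at hγp; exact lt_irrefl _ hγp
      have hγα : γ ≠ α := by rintro rfl; rw [h0] at hγp; exact lt_irrefl _ hγp
      have p1 : Pos (F.erase β) t :=
        ⟨fun a ha => hp.1 a (Finset.mem_of_mem_erase ha), γ, Finset.mem_erase.2 ⟨hγβ, hγ⟩, hγp⟩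
      have p2 : Pos (F.erase α) t :=
        ⟨fun a ha => hp.1 a (Finset.mem_of_mem_erase ha), γ, Finset.mem_erase.2 ⟨hγα, hγ⟩, hγp⟩
      have i1 := ih _ (Finset.erase_ssubset hβ) α (Finset.mem_erase.2 ⟨hab, hα⟩) t p1 h0
      have i2 := ih _ (Finset.erase_ssubset hα) β (Finset.mem_erase.2 ⟨Ne.symm hab, hβ⟩) t p2 hβ0
      rw [he', i1, i2, Finset.erase_right_comm]

theorem data_indep (hf : ∀ F, Rel M c j j' F f (f F)) {F : Finset ι} {β β' : ι} (hβ : β ∈ F)
    (hβ' : β' ∈ F) {t : ι → ℝ} (hm : ∀ α ∈ F, t β ≤ t α) (hm' : ∀ α ∈ F, t β' ≤ t α)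
    (hγ : ∃ γ ∈ F, t β < t γ) :
    (f (F.erase β)).1 (fun a => t a - t β) = (f (F.erase β')).1 (fun a => t a - t β') := by
  have hbb : t β = t β' := le_antisymm (hm _ hβ') (hm' _ hβ)
  rw [← hbb]
  by_cases hne : β = β'
  · subst hne; rfl
  obtain ⟨γ, hγF, hγ⟩ := hγ
  have g1 : γ ≠ β := by rintro rfl; exact lt_irrefl _ hγ
  have g2 : γ ≠ β' := by rintro rfl; rw [hbb] at hγ; exact lt_irrefl _ hγ
  set t' : ι → ℝ := fun a => t a - t β with ht'
  have p1 : Pos (F.erase β) t' :=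
    ⟨fun a ha => sub_nonneg.2 (hm a (Finset.mem_of_mem_erase ha)), γ,
      Finset.mem_erase.2 ⟨g1, hγF⟩, sub_pos.2 hγ⟩
  have p2 : Pos (F.erase β') t' :=
    ⟨fun a ha => sub_nonneg.2 (hm a (Finset.mem_of_mem_erase ha)), γ,
      Finset.mem_erase.2 ⟨g2, hγF⟩, sub_pos.2 hγ⟩
  have i1 := data_zero hf (F.erase β) β' (Finset.mem_erase.2 ⟨Ne.symm hne, hβ'⟩) t' p1
    (by simp [ht', hbb])
  have i2 := data_zero hf (F.erase β') β (Finset.mem_erase.2 ⟨hne, hβ⟩) t' p2 (by simp [ht'])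
  rw [i1, i2, Finset.erase_right_comm]

/-- the formula holds at every minimising index -/
theorem data_formula (hf : ∀ F, Rel M c j j' F f (f F)) {F : Finset ι} (hF : F.Nonempty) :
    ∃ u : Fin 3 → A, (∀ i, u i ∈ M) ∧ (∀ i, star (u i) * u i = 1) ∧
    (∀ x ∈ Base c j' F f, ∀ y ∈ Base c j' F f, ∀ z ∈ Base c j' F f, ∀ i k, i ≠ k →
      star (u i) * (x * y * z) * u k = 0) ∧
    ∀ t, Pos F t → ∀ β ∈ F, (∀ α ∈ F, t β ≤ t α) → (f F).1 t = stepAt j j' F f u β t := by
  obtain ⟨u, h1, h2, h3, h4⟩ := (hf F).2 hF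
  refine ⟨u, h1, h2, h3, fun t hp β hβ hm => ?_⟩
  obtain ⟨β', hβ', hm', he⟩ := h4 t
  rw [he]
  by_cases hγ : ∃ γ ∈ F, t β < t γ
  · have := data_indep hf hβ hβ' hm hm' hγ
    simp only [stepAt, this]
  · push Not at hγ
    have hr := ratio_eq_one hβ hp hγ hm
    simp only [stepAt, hr, mix_one]

theorem data_main (hj : star j * j = 1) (hj' : star j' * j' = 1) (hjj' : star j * j' = 0)
    (hf : ∀ F, Rel M c j j' F f (f F)) :
    ∀ (F : Finset ι) (t : ι → ℝ), Pos F t →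
      star ((f F).1 t).1 * ((f F).1 t).1 = 1 ∧ star ((f F).1 t).2 * ((f F).1 t).2 = 1 ∧
      star ((f F).1 t).2 * ((f F).1 t).1 = 0 ∧
      ∀ α ∈ F, (∀ γ ∈ F, t γ ≤ t α) → star ((f F).1 t).2 * c α * ((f F).1 t).1 = 0 := by
  intro F
  induction F using Finset.strongInduction with
  | H F ih =>
    intro t hp
    obtain ⟨γ₀, hγ₀, hγ₀p⟩ := hp.2
    have hF : F.Nonempty := ⟨γ₀, hγ₀⟩
    obtain ⟨u, h1, h2, h3, h4⟩ := data_formula hf hF
    obtain ⟨β, hβ, hm⟩ := F.exists_min_image t hF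
    have he := h4 t hp β hβ hm
    have b1 : (1 : A) ∈ Base c j' F f := Or.inl rfl
    have b2 : j' ∈ Base c j' F f := Or.inr (Or.inl rfl)
    have b3 : star j' ∈ Base c j' F f := Or.inr (Or.inr (Or.inl rfl))
    have bc : ∀ α ∈ F, c α ∈ Base c j' F f := fun α hα =>
      Or.inr (Or.inr (Or.inr (Or.inl ⟨α, hα, rfl⟩)))
    by_cases hγ : ∃ γ ∈ F, t β < t γ
    · obtain ⟨γ, hγF, hγ⟩ := hγ
      have g1 : γ ≠ β := by rintro rfl; exact lt_irrefl _ hγ
      set t' : ι → ℝ := fun a => t a - t β with ht'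
      have p1 : Pos (F.erase β) t' :=
        ⟨fun a ha => sub_nonneg.2 (hm a (Finset.mem_of_mem_erase ha)), γ,
          Finset.mem_erase.2 ⟨g1, hγF⟩, sub_pos.2 hγ⟩
      obtain ⟨i1, i2, i3, i4⟩ := ih _ (Finset.erase_ssubset hβ) t' p1
      have s1 : ((f (F.erase β)).1 t').1 ∈ Base c j' F f :=
        Or.inr (Or.inr (Or.inr (Or.inr ⟨β, hβ, _, Or.inl rfl⟩)))
      have s3 : star ((f (F.erase β)).1 t').1 ∈ Base c j' F f :=
        Or.inr (Or.inr (Or.inr (Or.inr ⟨β, hβ, _, Or.inr (Or.inr (Or.inl rfl))⟩)))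
      have s2 : ((f (F.erase β)).1 t').2 ∈ Base c j' F f :=
        Or.inr (Or.inr (Or.inr (Or.inr ⟨β, hβ, _, Or.inr (Or.inl rfl)⟩)))
      have s4 : star ((f (F.erase β)).1 t').2 ∈ Base c j' F f :=
        Or.inr (Or.inr (Or.inr (Or.inr ⟨β, hβ, _, Or.inr (Or.inr (Or.inr rfl))⟩)))
      have r0 := ratio_nonneg hp
      have r1 := ratio_le_one hp
      rw [he]
      simp only [stepAt]
      refine ⟨?_, ?_, ?_, ?_⟩
      · have := sandwich r0 r1 (C := 1) (ε := 1) hj hj' hjj' (h2 2)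
          (by simpa using i1) (Or.inr rfl) (by simpa using h2 0)
          (h3 _ b3 _ s3 _ b1 2 0 (by decide)) (h3 _ b1 _ s1 _ b2 0 2 (by decide))
        simpa using this
      · have := sandwich r0 r1 (C := 1) (ε := 1) hj hj' hjj' (h2 2)
          (by simpa using i2) (Or.inr rfl) (by simpa using h2 1)
          (h3 _ b3 _ s4 _ b1 2 1 (by decide)) (h3 _ b1 _ s2 _ b2 1 2 (by decide))
        simpa using this
      · have := sandwich r0 r1 (C := 1) (ε := 0) hj hj' hjj' (h2 2)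
          (by simpa using i3) (Or.inl rfl) (by simpa using h3 _ b1 _ b1 _ b1 1 0 (by decide))
          (h3 _ b3 _ s4 _ b1 2 0 (by decide)) (h3 _ b1 _ s1 _ b2 1 2 (by decide))
        simpa using this
      · intro α hα hαm
        have hαβ : α ≠ β := by
          rintro rfl
          exact absurd (hαm γ hγF) (not_le.2 hγ)
        have hαe : α ∈ F.erase β := Finset.mem_erase.2 ⟨hαβ, hα⟩
        have i5 := i4 α hαe (fun γ' hγ' => by
          simp only [ht']
          exact sub_le_sub_right (hαm γ' (Finset.mem_of_mem_erase hγ')) _)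
        exact sandwich r0 r1 (C := c α) (ε := 0) hj hj' hjj' (h2 2)
          i5 (Or.inl rfl) (by simpa using h3 _ (bc α hα) _ b1 _ b1 1 0 (by decide))
          (h3 _ b3 _ s4 _ (bc α hα) 2 0 (by decide)) (h3 _ (bc α hα) _ s1 _ b2 1 2 (by decide))
    · push Not at hγ
      have hr := ratio_eq_one hβ hp hγ hm
      rw [he]
      simp only [stepAt, hr, mix_one]
      refine ⟨h2 0, h2 1, ?_, ?_⟩
      · simpa using h3 _ b1 _ b1 _ b1 1 0 (by decide)
      · intro α hα _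
        simpa using h3 _ (bc α hα) _ b1 _ b1 1 0 (by decide)

end data

end Pool.Agent.Lib.MP_3c1a79_gt
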