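import Mathlib
import Pool.Agent.Lib.MP_3c1a79_gt.Nerve

/-!
Continuity of the recursively defined isometries.
-/

namespace Pool.Agent.Lib.MP_3c1a79_gt

open Filter Topology

variable {A : Type*} [CStarAlgebra A] {ι : Type*} [DecidableEq ι]

theorem norm_le_one_of_iso {v : A} (hv : star v * v = 1) : ‖v‖ ≤ 1 := by
  nontriviality A
  have := CStarRing.norm_star_mul_self (x := v)
  rw [hv, CStarRing.norm_one] at this
  nlinarith [norm_nonneg v]

theorem continuousOn_ratio (F : Finset ι) : ContinuousOn (ratio F) {t | Pos F t} := by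
  intro t ht
  obtain ⟨α, hα, -⟩ := ht.2
  have hF : F.Nonempty := ⟨α, hα⟩
  have : ratio F = fun t => F.inf' hF t / F.sup' hF t := by
    ext t; rw [ratio, dif_pos hF]
  rw [this]
  refine ContinuousAt.continuousWithinAt (ContinuousAt.div ?_ ?_ (sup'_pos ht hF).ne')
  · exact ContinuousAt.finset_inf'_apply (f := fun i (t : ι → ℝ) => t i) hF
      (fun i _ => (continuous_apply i).continuousAt)
  · exact ContinuousAt.finset_sup'_apply (f := fun i (t : ι → ℝ) => t i) hF
      (fun i _ => (continuous_apply i).continuousAt)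

/-- closed pieces -/
def Piece (F : Finset ι) (β : ι) : Set (ι → ℝ) := {t | ∀ α ∈ F, t β ≤ t α}

omit [DecidableEq ι] in
theorem isClosed_Piece (F : Finset ι) (β : ι) : IsClosed (Piece F β) := by
  have : Piece F β = ⋂ α ∈ F, {t : ι → ℝ | t β ≤ t α} := by
    ext t; simp [Piece]
  rw [this]
  exact isClosed_biInter fun α _ => isClosed_le (continuous_apply β) (continuous_apply α)

/-- one summand of the mixture -/
theorem tendsto_summand {F : Finset ι} {β : ι} (hβ : β ∈ F) {S : (ι → ℝ) → A}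
    (hS : ContinuousOn S {t | Pos (F.erase β) t})
    (hbd : ∀ t, Pos (F.erase β) t → ‖S t‖ ≤ 1) (R : A)
    {k : ℝ → ℝ} (hk : Continuous k) (hk1 : k 1 = 0)
    {t₀ : ι → ℝ} (h₀ : Pos F t₀) (h₀' : t₀ ∈ Piece F β) :
    ContinuousWithinAt (fun t => k (ratio F t) • (S (fun a => t a - t β) * R))
      ({t | Pos F t} ∩ Piece F β) t₀ := by
  have hr : ContinuousWithinAt (ratio F) ({t | Pos F t} ∩ Piece F β) t₀ :=
    ((continuousOn_ratio F) t₀ h₀).mono Set.inter_subset_left
  have hkr : ContinuousWithinAt (fun t => k (ratio F t)) ({t | Pos F t} ∩ Piece F β) t₀ :=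
    hk.continuousAt.comp_continuousWithinAt hr
  have hshift : Continuous (fun (t : ι → ℝ) (a : ι) => t a - t β) := by fun_prop
  by_cases hγ : ∃ γ ∈ F, t₀ β < t₀ γ
  · obtain ⟨γ, hγF, hγ⟩ := hγ
    refine hkr.smul (ContinuousWithinAt.mul ?_ continuousWithinAt_const)
    have hU : {t : ι → ℝ | t β < t γ} ∈ 𝓝 t₀ :=
      (isOpen_lt (continuous_apply β) (continuous_apply γ)).mem_nhds hγ
    rw [← continuousWithinAt_inter hU]
    have hmaps : Set.MapsTo (fun (t : ι → ℝ) (a : ι) => t a - t β)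
        (({t | Pos F t} ∩ Piece F β) ∩ {t : ι → ℝ | t β < t γ}) {t | Pos (F.erase β) t} := by
      rintro t ⟨⟨-, h2⟩, h3⟩
      refine ⟨fun α hα => sub_nonneg.2 (h2 α (Finset.mem_of_mem_erase hα)), γ,
        Finset.mem_erase.2 ⟨?_, hγF⟩, sub_pos.2 h3⟩
      rintro rfl; exact lt_irrefl _ hγ
    exact ContinuousWithinAt.comp (hS _ (hmaps ⟨⟨h₀, h₀'⟩, hγ⟩)) hshift.continuousWithinAt hmaps
  · push Not at hγ
    have hr1 : ratio F t₀ = 1 := ratio_eq_one hβ h₀ hγ h₀'
    have hval : k (ratio F t₀) • (S (fun a => t₀ a - t₀ β) * R) = 0 := by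
      rw [hr1, hk1, zero_smul]
    rw [ContinuousWithinAt, hval]
    have hb : ∀ᶠ t in 𝓝[{t | Pos F t} ∩ Piece F β] t₀,
        ‖k (ratio F t) • (S (fun a => t a - t β) * R)‖ ≤ |k (ratio F t)| * ‖R‖ := by
      filter_upwards [self_mem_nhdsWithin] with t ht
      obtain ⟨ht1, ht2⟩ := ht
      rw [norm_smul, Real.norm_eq_abs]
      by_cases hγt : ∃ γ ∈ F, t β < t γ
      · obtain ⟨γ, hγF, hγ⟩ := hγt
        have hp : Pos (F.erase β) (fun a => t a - t β) := by
          refine ⟨fun α hα => sub_nonneg.2 (ht2 α (Finset.mem_of_mem_erase hα)), γ,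
            Finset.mem_erase.2 ⟨?_, hγF⟩, sub_pos.2 hγ⟩
          rintro rfl; exact lt_irrefl _ hγ
        refine mul_le_mul_of_nonneg_left ?_ (abs_nonneg _)
        calc _ ≤ ‖S (fun a => t a - t β)‖ * ‖R‖ := norm_mul_le _ _
          _ ≤ 1 * ‖R‖ := by gcongr; exact hbd _ hp
          _ = _ := one_mul _
      · push Not at hγt
        have hr1 : ratio F t = 1 := ratio_eq_one hβ ht1 hγt ht2
        rw [hr1, hk1]; simp
    refine squeeze_zero_norm' hb ?_
    have : Tendsto (fun t => |k (ratio F t)| * ‖R‖) (𝓝[{t | Pos F t} ∩ Piece F β] t₀)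
        (𝓝 (|k (ratio F t₀)| * ‖R‖)) := (hkr.abs.mul continuousWithinAt_const)
    rw [hr1, hk1, abs_zero, zero_mul] at this
    exact this

theorem continuousOn_mixStep {F : Finset ι} {β : ι} (hβ : β ∈ F) {S : (ι → ℝ) → A}
    (hS : ContinuousOn S {t | Pos (F.erase β) t})
    (hbd : ∀ t, Pos (F.erase β) t → ‖S t‖ ≤ 1) (j j' k p : A) :
    ContinuousOn (fun t => mix (ratio F t) (S (fun a => t a - t β) * j)
      (S (fun a => t a - t β) * j' * k) p) ({t | Pos F t} ∩ Piece F β) := by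
  intro t₀ ht₀
  have e : (fun t => mix (ratio F t) (S (fun a => t a - t β) * j)
      (S (fun a => t a - t β) * j' * k) p) =
      fun t => k0 (ratio F t) • (S (fun a => t a - t β) * j) +
        k1 (ratio F t) • (S (fun a => t a - t β) * (j' * k)) + k2 (ratio F t) • p := by
    ext t; simp only [mix, mul_assoc]
  rw [e]
  have hr : ContinuousWithinAt (ratio F) ({t | Pos F t} ∩ Piece F β) t₀ :=
    ((continuousOn_ratio F) t₀ ht₀.1).mono Set.inter_subset_left
  refine ContinuousWithinAt.add (ContinuousWithinAt.add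
    (tendsto_summand hβ hS hbd j continuous_k0 k0_one ht₀.1 ht₀.2)
    (tendsto_summand hβ hS hbd (j' * k) continuous_k1 k1_one ht₀.1 ht₀.2)) ?_
  exact (continuous_k2.continuousAt.comp_continuousWithinAt hr).smul continuousWithinAt_const

theorem continuousOn_glue {Y : Type*} [TopologicalSpace Y] {F : Finset ι} {g : (ι → ℝ) → Y}
    (h : ∀ β ∈ F, ContinuousOn g ({t | Pos F t} ∩ Piece F β)) :
    ContinuousOn g {t | Pos F t} := by
  have hU : {t : ι → ℝ | Pos F t} ⊆ ⋃ β ∈ (F : Set ι), ({t | Pos F t} ∩ Piece F β) := by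
    intro t ht
    obtain ⟨α, hα, -⟩ := ht.2
    obtain ⟨β, hβ, hm⟩ := F.exists_min_image t ⟨α, hα⟩
    exact Set.mem_biUnion (Finset.mem_coe.2 hβ) ⟨ht, hm⟩
  intro t₀ ht₀
  refine ContinuousWithinAt.mono ?_ hU
  rw [ContinuousWithinAt, nhdsWithin_biUnion F.finite_toSet]
  rw [tendsto_iSup]
  intro β
  rw [tendsto_iSup]
  intro hβ
  by_cases h₀ : t₀ ∈ Piece F β
  · exact h β hβ t₀ ⟨ht₀, h₀⟩
  · have : 𝓝[{t | Pos F t} ∩ Piece F β] t₀ = ⊥ := by
      rw [← notMem_closure_iff_nhdsWithin_eq_bot]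
      intro hc
      exact h₀ ((isClosed_Piece F β).closure_subset_iff.2 Set.inter_subset_right hc)
    rw [this]
    exact tendsto_bot

variable {M : StarSubalgebra ℂ A} {c : ι → A} {j j' : A} {f : Finset ι → Dat ι A}

theorem data_continuous (hj : star j * j = 1) (hj' : star j' * j' = 1) (hjj' : star j * j' = 0)
    (hf : ∀ F, Rel M c j j' F f (f F)) :
    ∀ (F : Finset ι), ContinuousOn (fun t => ((f F).1 t).1) {t | Pos F t} ∧
      ContinuousOn (fun t => ((f F).1 t).2) {t | Pos F t} := by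
  intro F
  induction F using Finset.strongInduction with
  | H F ih =>
    rcases F.eq_empty_or_nonempty with rfl | hF
    · have : {t : ι → ℝ | Pos (∅ : Finset ι) t} = ∅ := by
        ext t; simp [Pos]
      rw [this]
      exact ⟨continuousOn_empty _, continuousOn_empty _⟩
    obtain ⟨u, h1, h2, h3, h4⟩ := data_formula hf hF
    have bd : ∀ β ∈ F, ∀ t, Pos (F.erase β) t → ‖((f (F.erase β)).1 t).1‖ ≤ 1 ∧
        ‖((f (F.erase β)).1 t).2‖ ≤ 1 := by
      intro β _ t ht
      have := data_main hj hj' hjj' hf (F.erase β) t ht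
      exact ⟨norm_le_one_of_iso this.1, norm_le_one_of_iso this.2.1⟩
    constructor
    · refine continuousOn_glue fun β hβ => ?_
      refine (continuousOn_mixStep hβ (ih _ (Finset.erase_ssubset hβ)).1
        (fun t ht => (bd β hβ t ht).1) j j' (u 2) (u 0)).congr ?_
      rintro t ⟨ht1, ht2⟩
      show ((f F).1 t).1 = _
      rw [h4 t ht1 β hβ ht2]; rfl
    · refine continuousOn_glue fun β hβ => ?_
      refine (continuousOn_mixStep hβ (ih _ (Finset.erase_ssubset hβ)).2
        (fun t ht => (bd β hβ t ht).2) j j' (u 2) (u 1)).congr ?_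
      rintro t ⟨ht1, ht2⟩
      show ((f F).1 t).2 = _
      rw [h4 t ht1 β hβ ht2]; rfl

end Pool.Agent.Lib.MP_3c1a79_gt
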