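import Mathlib
import Pool.Agent.Lib.MP_3c1a79_gt.NerveCont

/-!
The selection theorem on a pseudo-metric space.
-/

namespace Pool.Agent.Lib.MP_3c1a79_gt

open Filter Topology

variable {A : Type*} [CStarAlgebra A]

theorem star_mul_zero_of_sum {B : Type*} [Ring B] [StarRing B] {s S : B} (hss : star s * s = 1)
    (hSS : star S * S = 1) (hsum : s * star s + S * star S = 1) : star s * S = 0 := by
  have h := congrArg (fun x => star s * x * S) hsum
  simp only [mul_add, add_mul, mul_one] at h
  have h1 : star s * (s * star s) * S = star s * S := by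
    rw [← mul_assoc, hss, one_mul]
  have h2 : star s * (S * star S) * S = star s * S := by
    rw [mul_assoc, mul_assoc, hSS, mul_one]
  rw [h1, h2] at h
  simpa using h

/-- The selection theorem. -/
theorem selection {X : Type*} [PseudoMetricSpace X] {M : StarSubalgebra ℂ A} (hGP : GenPos M)
    {s S : A} (hs : s ∈ M) (hS : S ∈ M) (hss : star s * s = 1) (hSS : star S * S = 1)
    (hsum : s * star s + S * star S = 1) (c : X → A) {μ : ℝ} (hμ : 0 < μ) :
    ∃ V W : X → A, Continuous V ∧ Continuous W ∧ (∀ x, V x ∈ M) ∧ (∀ x, W x ∈ M) ∧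
      (∀ x, star (V x) * V x = 1) ∧ (∀ x, star (W x) * W x = 1) ∧
      (∀ x, star (W x) * V x = 0) ∧
      ∀ x, ∃ α : X, dist x α < μ ∧ star (W x) * c α * V x = 0 := by
  classical
  have hsS := star_mul_zero_of_sum hss hSS hsum
  have hSs : star S * s = 0 := by simpa using congrArg star hsS
  set j : A := s * star s + S * s * star S with hjdef
  set j' : A := S * S with hj'def
  have a1 : ∀ x, star s * (s * x) = x := fun x => by rw [← mul_assoc, hss, one_mul]
  have a2 : ∀ x, star S * (S * x) = x := fun x => by rw [← mul_assoc, hSS, one_mul]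
  have a3 : ∀ x, star s * (S * x) = 0 := fun x => by rw [← mul_assoc, hsS, zero_mul]
  have a4 : ∀ x, star S * (s * x) = 0 := fun x => by rw [← mul_assoc, hSs, zero_mul]
  have hjM : j ∈ M := add_mem (mul_mem hs (star_mem hs)) (mul_mem (mul_mem hS hs) (star_mem hS))
  have hjM' : j' ∈ M := mul_mem hS hS
  have hj : star j * j = 1 := by
    rw [← hsum, hjdef]
    simp only [star_add, star_mul, star_star, add_mul, mul_add, mul_assoc, a1, a2, a3, a4,
      mul_zero, add_zero, zero_add]
  have hj' : star j' * j' = 1 := by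
    rw [hj'def]; simp only [star_mul, mul_assoc, a2, hSS]
  have hjj' : star j * j' = 0 := by
    rw [hjdef, hj'def]
    simp only [star_add, star_mul, star_star, add_mul, mul_assoc, a2, a3, hsS, mul_zero, add_zero]
  have hje : j * s = s := by
    rw [hjdef]; simp only [add_mul, mul_assoc, hss, hSs, mul_one, mul_zero, add_zero]
  obtain ⟨f, hf⟩ := exists_data (ι := X) hGP c j j'
  obtain ⟨ρ, hρ⟩ := PartitionOfUnity.exists_isSubordinate (s := (Set.univ : Set X)) isClosed_univ
    (fun α : X => Metric.ball α μ) (fun α => Metric.isOpen_ball)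
    (fun x _ => Set.mem_iUnion.2 ⟨x, Metric.mem_ball_self hμ⟩)
  let τ : X → X → ℝ := fun x α => ρ α x
  have hτ : Continuous τ := continuous_pi fun α => (ρ α).continuous
  have hpos : ∀ (F : Finset X) x, ρ.finsupport x ⊆ F → Pos F (τ x) := by
    intro F x hF
    refine ⟨fun α _ => ρ.nonneg α x, ?_⟩
    obtain ⟨i, hi⟩ := ρ.exists_pos (Set.mem_univ x)
    exact ⟨i, hF ((ρ.mem_finsupport x).2 (by simpa using hi.ne')), hi⟩
  -- independence of the simplex
  have hindep : ∀ (x : X) (G : Finset X),
      ((f (ρ.finsupport x ∪ G)).1 (τ x)).1 * s = ((f (ρ.finsupport x)).1 (τ x)).1 * s ∧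
      ((f (ρ.finsupport x ∪ G)).1 (τ x)).2 * s = ((f (ρ.finsupport x)).1 (τ x)).2 * s := by
    intro x G
    induction G using Finset.induction with
    | empty => simp
    | insert a G ha ih =>
      by_cases hmem : a ∈ ρ.finsupport x ∪ G
      · have : ρ.finsupport x ∪ insert a G = ρ.finsupport x ∪ G := by
          rw [Finset.union_insert, Finset.insert_eq_of_mem hmem]
        rw [this]; exact ih
      · have h1 : ρ.finsupport x ∪ insert a G = insert a (ρ.finsupport x ∪ G) := by
          rw [Finset.union_insert]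
        have h0 : τ x a = 0 := by
          by_contra hne
          exact hmem (Finset.mem_union_left _ ((ρ.mem_finsupport x).2 (by simpa using hne)))
        have h2 := data_zero hf (insert a (ρ.finsupport x ∪ G)) a (Finset.mem_insert_self _ _)
          (τ x) (hpos _ x (Finset.subset_union_left.trans (Finset.subset_insert _ _))) h0
        rw [Finset.erase_insert hmem] at h2
        rw [h1, h2]
        simp only [mul_assoc, hje]
        exact ih
  have hindep' : ∀ (x : X) (F : Finset X), ρ.finsupport x ⊆ F →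
      ((f F).1 (τ x)).1 * s = ((f (ρ.finsupport x)).1 (τ x)).1 * s ∧
      ((f F).1 (τ x)).2 * s = ((f (ρ.finsupport x)).1 (τ x)).2 * s := by
    intro x F hF
    have := hindep x F
    rwa [Finset.union_eq_right.2 hF] at this
  have hmain := data_main hj hj' hjj' hf
  have hcont := data_continuous hj hj' hjj' hf
  have hmem := data_mem hjM hjM' hf
  refine ⟨fun x => ((f (ρ.finsupport x)).1 (τ x)).1 * s,
    fun x => ((f (ρ.finsupport x)).1 (τ x)).2 * s, ?_, ?_, ?_, ?_, ?_, ?_, ?_, ?_⟩
  · rw [continuous_iff_continuousAt]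
    intro x₀
    have hev := ρ.eventually_finsupport_subset x₀
    have h1 : (fun x => ((f (ρ.finsupport x)).1 (τ x)).1 * s) =ᶠ[𝓝 x₀]
        fun x => ((f (ρ.fintsupport x₀)).1 (τ x)).1 * s := by
      filter_upwards [hev] with x hx
      exact ((hindep' x _ hx).1).symm
    refine ContinuousAt.congr ?_ h1.symm
    refine ContinuousAt.mul ?_ continuousAt_const
    have h2 : Tendsto τ (𝓝 x₀) (𝓝[{t | Pos (ρ.fintsupport x₀) t}] (τ x₀)) := by
      refine tendsto_nhdsWithin_iff.2 ⟨hτ.continuousAt, ?_⟩
      filter_upwards [hev] with x hx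
      exact hpos _ x hx
    exact ((hcont (ρ.fintsupport x₀)).1 (τ x₀) (hpos _ _ (ρ.finsupport_subset_fintsupport x₀))).tendsto.comp h2
  · rw [continuous_iff_continuousAt]
    intro x₀
    have hev := ρ.eventually_finsupport_subset x₀
    have h1 : (fun x => ((f (ρ.finsupport x)).1 (τ x)).2 * s) =ᶠ[𝓝 x₀]
        fun x => ((f (ρ.fintsupport x₀)).1 (τ x)).2 * s := by
      filter_upwards [hev] with x hx
      exact ((hindep' x _ hx).2).symm
    refine ContinuousAt.congr ?_ h1.symm
    refine ContinuousAt.mul ?_ continuousAt_const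
    have h2 : Tendsto τ (𝓝 x₀) (𝓝[{t | Pos (ρ.fintsupport x₀) t}] (τ x₀)) := by
      refine tendsto_nhdsWithin_iff.2 ⟨hτ.continuousAt, ?_⟩
      filter_upwards [hev] with x hx
      exact hpos _ x hx
    exact ((hcont (ρ.fintsupport x₀)).2 (τ x₀) (hpos _ _ (ρ.finsupport_subset_fintsupport x₀))).tendsto.comp h2
  · exact fun x => mul_mem (hmem _ _).1 hs
  · exact fun x => mul_mem (hmem _ _).2 hs
  · intro x
    have := (hmain _ (τ x) (hpos _ x subset_rfl)).1
    rw [star_mul, mul_assoc, ← mul_assoc (star ((f (ρ.finsupport x)).1 (τ x)).1), this, one_mul,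
      hss]
  · intro x
    have := (hmain _ (τ x) (hpos _ x subset_rfl)).2.1
    rw [star_mul, mul_assoc, ← mul_assoc (star ((f (ρ.finsupport x)).1 (τ x)).2), this, one_mul,
      hss]
  · intro x
    have := (hmain _ (τ x) (hpos _ x subset_rfl)).2.2.1
    rw [star_mul, mul_assoc, ← mul_assoc (star ((f (ρ.finsupport x)).1 (τ x)).2), this, zero_mul,
      mul_zero]
  · intro x
    have hp := hpos _ x subset_rfl
    obtain ⟨γ, hγ, hγp⟩ := hp.2
    obtain ⟨α, hα, hαm⟩ := (ρ.finsupport x).exists_max_image (τ x) ⟨γ, hγ⟩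
    refine ⟨α, ?_, ?_⟩
    · have h1 : ρ α x ≠ 0 := by
        have := hγp.trans_le (hαm γ hγ)
        exact this.ne'
      have h2 : x ∈ tsupport (ρ α) := subset_tsupport _ h1
      exact hρ α h2
    · have := (hmain _ (τ x) hp).2.2.2 α hα hαm
      calc star (((f (ρ.finsupport x)).1 (τ x)).2 * s) * c α *
            (((f (ρ.finsupport x)).1 (τ x)).1 * s)
          = star s * (star ((f (ρ.finsupport x)).1 (τ x)).2 * c α *
            ((f (ρ.finsupport x)).1 (τ x)).1) * s := by simp only [star_mul, mul_assoc]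
        _ = 0 := by rw [this, mul_zero, zero_mul]

end Pool.Agent.Lib.MP_3c1a79_gt
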