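import Mathlib
import Pool.Agent.Lib.MP_3c1a79_gt.Conc
import Pool.Agent.Lib.MP_3c1a79_gt.Select
import Pool.Agent.Lib.MP_3c1a79_gt.Polar

/-!
The abstract contraction theorem.
-/

namespace Pool.Agent.Lib.MP_3c1a79_gt

open ContinuousMap

variable {A : Type*} [CStarAlgebra A] {G : Type*} [Group G]

/-- the algebra of fixed points -/
def Fixed {A : Type*} [CStarAlgebra A] {G : Type*} (σ : G → A →⋆ₐ[ℂ] A) : StarSubalgebra ℂ A where
  carrier := {a | ∀ g, σ g a = a}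
  mul_mem' := fun {a b} ha hb g => by rw [map_mul, ha g, hb g]
  one_mem' := fun g => map_one _
  add_mem' := fun {a b} ha hb g => by rw [map_add, ha g, hb g]
  zero_mem' := fun g => map_zero _
  algebraMap_mem' := fun r g => by simp [Algebra.algebraMap_eq_smul_one]
  star_mem' := fun {a} ha g => by rw [map_star, ha g]

theorem mem_Fixed {σ : G → A →⋆ₐ[ℂ] A} {a : A} : a ∈ Fixed σ ↔ ∀ g, σ g a = a := Iff.rfl

/-- a copy of the unitary group, to carry the orbit pseudo-metric -/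
structure Orb (A : Type*) [CStarAlgebra A] where
  /-- the underlying unitary -/
  val : unitary A

variable {σ : G → A →⋆ₐ[ℂ] A}

theorem norm_σ (h1 : ∀ a, σ 1 a = a) (hm : ∀ g h a, σ (g * h) a = σ g (σ h a)) (g : G) (a : A) :
    ‖σ g a‖ = ‖a‖ := by
  refine le_antisymm (NonUnitalStarAlgHom.norm_apply_le (σ g) a) ?_
  have : a = σ g⁻¹ (σ g a) := by rw [← hm, inv_mul_cancel, h1]
  calc ‖a‖ = ‖σ g⁻¹ (σ g a)‖ := by rw [← this]
    _ ≤ _ := NonUnitalStarAlgHom.norm_apply_le (σ g⁻¹) _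

/-- orbit distance -/
noncomputable def orbDist (σ : G → A →⋆ₐ[ℂ] A) (x y : A) : ℝ := ⨅ g : G, ‖x - σ g y‖

theorem orbDist_bdd (x y : A) : BddBelow (Set.range fun g : G => ‖x - σ g y‖) :=
  ⟨0, by rintro _ ⟨g, rfl⟩; exact norm_nonneg _⟩

theorem orbDist_le (x y : A) (g : G) : orbDist σ x y ≤ ‖x - σ g y‖ := ciInf_le (orbDist_bdd x y) g

theorem orbDist_nonneg (x y : A) : 0 ≤ orbDist σ x y := le_ciInf fun _ => norm_nonneg _

theorem orbDist_symm_le (h1 : ∀ a, σ 1 a = a) (hm : ∀ g h a, σ (g * h) a = σ g (σ h a))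
    (x y : A) : orbDist σ x y ≤ orbDist σ y x := by
  refine le_ciInf fun g => ?_
  have e : ‖y - σ g x‖ = ‖x - σ g⁻¹ y‖ := by
    rw [← norm_σ h1 hm g⁻¹ (y - σ g x), map_sub, ← hm, inv_mul_cancel, h1, norm_sub_rev]
  rw [e]
  exact orbDist_le x y g⁻¹

theorem orbDist_triangle (h1 : ∀ a, σ 1 a = a) (hm : ∀ g h a, σ (g * h) a = σ g (σ h a))
    (x y z : A) : orbDist σ x z ≤ orbDist σ x y + orbDist σ y z := by
  refine le_of_forall_pos_lt_add fun ε hε => ?_
  obtain ⟨g, hg⟩ := exists_lt_of_ciInf_lt (show orbDist σ x y < orbDist σ x y + ε / 2 by linarith)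
  obtain ⟨h, hh⟩ := exists_lt_of_ciInf_lt (show orbDist σ y z < orbDist σ y z + ε / 2 by linarith)
  have e : x - σ (g * h) z = (x - σ g y) + σ g (y - σ h z) := by
    rw [map_sub, hm]; abel
  have := orbDist_le (σ := σ) x z (g * h)
  have h3 : ‖x - σ (g * h) z‖ ≤ ‖x - σ g y‖ + ‖y - σ h z‖ := by
    rw [e]
    exact (norm_add_le _ _).trans (by rw [norm_σ h1 hm])
  linarith

/-- the orbit pseudo-metric -/
@[reducible] noncomputable def orbMetric (h1 : ∀ a, σ 1 a = a)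
    (hm : ∀ g h a, σ (g * h) a = σ g (σ h a)) : PseudoMetricSpace (Orb A) where
  dist x y := orbDist σ (x.val : A) (y.val : A)
  dist_self x := le_antisymm (by simpa [h1] using orbDist_le (σ := σ) (x.val : A) (x.val : A) 1)
    (orbDist_nonneg _ _)
  dist_comm x y := le_antisymm (orbDist_symm_le h1 hm _ _) (orbDist_symm_le h1 hm _ _)
  dist_triangle x y z := orbDist_triangle h1 hm _ _ _

/-- The selection of invariant isometries over the unitary group. -/
theorem invariant_selection (h1 : ∀ a, σ 1 a = a) (hm : ∀ g h a, σ (g * h) a = σ g (σ h a))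
    (hGP : GenPos (Fixed σ)) {s S : A} (hs : ∀ g, σ g s = s) (hS : ∀ g, σ g S = S)
    (hss : star s * s = 1) (hSS : star S * S = 1) (hsum : s * star s + S * star S = 1) :
    ∃ V W : C(unitary A, A), (∀ g x, σ g (V x) = V x) ∧ (∀ g x, σ g (W x) = W x) ∧
      (∀ g (x y : unitary A), (y : A) = σ g (x : A) → V y = V x) ∧
      (∀ g (x y : unitary A), (y : A) = σ g (x : A) → W y = W x) ∧
      (∀ x, star (V x) * V x = 1) ∧ (∀ x, star (W x) * W x = 1) ∧
      (∀ x, star (W x) * V x = 0) ∧ ∀ x : unitary A, ‖star (W x) * (x : A) * V x‖ < 1 := by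
  letI := orbMetric (A := A) h1 hm
  obtain ⟨V, W, cV, cW, mV, mW, VV, WW, WV, hα⟩ := selection (X := Orb A) hGP
    (mem_Fixed.2 hs) (mem_Fixed.2 hS) hss hSS hsum (fun x => (x.val : A))
    (μ := 1 / 2) (by norm_num)
  have hcont : Continuous (fun x : unitary A => (⟨x⟩ : Orb A)) := by
    refine Metric.continuous_iff.2 fun x ε hε => ⟨ε, hε, fun y hy => ?_⟩
    calc dist (⟨y⟩ : Orb A) ⟨x⟩ ≤ ‖(y : A) - σ 1 (x : A)‖ := orbDist_le _ _ 1
      _ = ‖(y : A) - x‖ := by rw [h1]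
      _ < ε := by
        rw [← dist_eq_norm]; exact hy
  have hinv : ∀ (f : Orb A → A), Continuous f → ∀ g (x y : unitary A), (y : A) = σ g (x : A) →
      f ⟨y⟩ = f ⟨x⟩ := by
    intro f hf g x y hxy
    have hd : dist (⟨y⟩ : Orb A) ⟨x⟩ = 0 := by
      refine le_antisymm ?_ dist_nonneg
      calc dist (⟨y⟩ : Orb A) ⟨x⟩ ≤ ‖(y : A) - σ g (x : A)‖ := orbDist_le _ _ g
        _ = 0 := by rw [hxy, sub_self, norm_zero]
    exact ((Metric.inseparable_iff.2 hd).map hf).eq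
  refine ⟨⟨fun x => V ⟨x⟩, cV.comp hcont⟩, ⟨fun x => W ⟨x⟩, cW.comp hcont⟩,
    fun g x => mV ⟨x⟩ g, fun g x => mW ⟨x⟩ g, fun g x y hxy => hinv V cV g x y hxy,
    fun g x y hxy => hinv W cW g x y hxy, fun x => VV ⟨x⟩, fun x => WW ⟨x⟩, fun x => WV ⟨x⟩,
    fun x => ?_⟩
  obtain ⟨α, hd, h0⟩ := hα ⟨x⟩
  obtain ⟨g, hg⟩ := exists_lt_of_ciInf_lt hd
  show ‖star (W ⟨x⟩) * (x : A) * V ⟨x⟩‖ < 1
  have e0 : star (W ⟨x⟩) * σ g (α.val : A) * V ⟨x⟩ = 0 := by
    have := congrArg (σ g) h0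
    rw [map_mul, map_mul, map_star, mW ⟨x⟩ g, mV ⟨x⟩ g, map_zero] at this
    exact this
  have e1 : star (W ⟨x⟩) * (x : A) * V ⟨x⟩ =
      star (W ⟨x⟩) * ((x : A) - σ g (α.val : A)) * V ⟨x⟩ := by
    rw [mul_sub, sub_mul, e0, sub_zero]
  rw [e1]
  have n1 := norm_le_one_of_isometry (VV ⟨x⟩)
  have n2 := norm_le_one_of_isometry (WW ⟨x⟩)
  calc _ ≤ ‖star (W ⟨x⟩) * ((x : A) - σ g (α.val : A))‖ * ‖V ⟨x⟩‖ := norm_mul_le _ _
    _ ≤ (‖star (W ⟨x⟩)‖ * ‖(x : A) - σ g (α.val : A)‖) * ‖V ⟨x⟩‖ := by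
        gcongr; exact norm_mul_le _ _
    _ ≤ (1 * (1 / 2)) * 1 := by
        gcongr
        rw [norm_star]; exact n2
    _ < 1 := by norm_num

/-- hypotheses of the abstract theorem -/
structure Hyp (σ : G → A →⋆ₐ[ℂ] A) : Prop where
  one : ∀ a, σ 1 a = a
  mul : ∀ g h a, σ (g * h) a = σ g (σ h a)
  gp : GenPos (Fixed σ)
  ex : ∃ (s S : A) (φ : A →⋆ₐ[ℂ] A), (∀ g, σ g s = s) ∧ (∀ g, σ g S = S) ∧
    star s * s = 1 ∧ star S * S = 1 ∧ s * star s + S * star S = 1 ∧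
    (∀ a, φ a = s * a * star s + S * φ a * star S) ∧ (∀ g a, σ g (φ a) = φ (σ g a))

/-- every equivariant map into the unitary group is equivariantly homotopic to `1` through
invertible valued maps. -/
theorem contract_general (hyp : Hyp σ) {X : Type*} [TopologicalSpace X] (act : G → X → X)
    (p : C(X, unitary A)) (hp : ∀ g x, (p (act g x) : A) = σ g (p x : A)) :
    HomotopicWith (⟨fun x => (p x : A), by fun_prop⟩ : C(X, A)) 1 (Adm act σ) := by
  obtain ⟨s, S, φ, hs, hS, hss, hSS, hsum, hφ, hσφ⟩ := hyp.ex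
  obtain ⟨V, W, sV, sW, iV, iW, VV, WW, WV, small⟩ :=
    invariant_selection hyp.one hyp.mul hyp.gp hs hS hss hSS hsum
  have hφc : Continuous φ := by
    refine AddMonoidHomClass.continuous_of_bound φ 1 fun x => ?_
    rw [one_mul]
    exact NonUnitalStarAlgHom.norm_apply_le φ x
  refine contract_of_isometries (V := V.comp p) (W := W.comp p) ?_ ?_ ?_ ?_ ?_ ?_ ?_ ?_ ?_
    hss hSS hsum hs hS φ hφc hφ hσφ
  · intro g x; exact hp g x
  · intro g x
    show V (p (act g x)) = σ g (V (p x))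
    rw [sV]; exact iV g _ _ (hp g x)
  · intro g x
    show W (p (act g x)) = σ g (W (p x))
    rw [sW]; exact iW g _ _ (hp g x)
  · ext x; exact Unitary.coe_star_mul_self (p x)
  · ext x; exact Unitary.coe_mul_star_self (p x)
  · ext x; exact VV (p x)
  · ext x; exact WW (p x)
  · ext x; exact WV (p x)
  · intro x; exact small (p x)

end Pool.Agent.Lib.MP_3c1a79_gt
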