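import Mathlib
import Pool.Agent.Lib.MP_3c1a79_gt.Abstract

/-!
The abstract contraction theorem: final form for unitaries and for invertible elements.
-/

namespace Pool.Agent.Lib.MP_3c1a79_gt

open ContinuousMap

variable {A : Type*} [CStarAlgebra A] [PartialOrder A] [StarOrderedRing A]
  {G : Type*} [Group G] {σ : G → A →⋆ₐ[ℂ] A}

/-- equivariant contraction of the unitary group -/
theorem unitary_contractible (hyp : Hyp σ) :
    ∃ H : C(unitInterval × unitary A, unitary A), (∀ x, H (0, x) = x) ∧ (∀ x, H (1, x) = 1) ∧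
      ∀ g t (x y : unitary A), (y : A) = σ g (x : A) → (H (t, y) : A) = σ g (H (t, x) : A) := by
  classical
  have hmem : ∀ g (x : unitary A), σ g (x : A) ∈ unitary A := fun g x => by
    refine Unitary.mem_iff.2 ⟨?_, ?_⟩
    · rw [← map_star, ← map_mul, Unitary.star_mul_self_of_mem x.2, map_one]
    · rw [← map_star, ← map_mul, Unitary.mul_star_self_of_mem x.2, map_one]
  obtain ⟨F⟩ := contract_general hyp (X := unitary A) (fun g x => ⟨σ g (x : A), hmem g x⟩)
    (ContinuousMap.id _) (fun g x => rfl)
  have hadm := F.prop'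
  have hunit : ∀ p : unitInterval × unitary A, IsUnit (F p) := by
    rintro ⟨t, x⟩
    have := (hadm t).2
    rw [ContinuousMap.isUnit_iff_forall_isUnit] at this
    exact this x
  have hcont : Continuous fun p : unitInterval × unitary A => pol (F p) := by
    rw [continuous_iff_continuousAt]
    intro p
    exact (continuousAt_pol (hunit p)).comp (F.continuous.continuousAt)
  refine ⟨⟨fun p => ⟨pol (F p), pol_mem (hunit p)⟩, ?_⟩, ?_, ?_, ?_⟩
  · exact Continuous.subtype_mk hcont _
  · intro x
    apply Subtype.ext
    show pol (F (0, x)) = (x : A)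
    have : F (0, x) = (x : A) := F.map_zero_left x
    rw [this, pol_of_mem x.2]
  · intro x
    apply Subtype.ext
    show pol (F (1, x)) = 1
    have : F (1, x) = 1 := F.map_one_left x
    rw [this, pol_of_mem (one_mem _)]
  · intro g t x y hxy
    show pol (F (t, y)) = σ g (pol (F (t, x)))
    have h1 := (hadm t).1 g x
    have h2 : F (t, y) = σ g (F (t, x)) := by
      have : y = ⟨σ g (x : A), hmem g x⟩ := Subtype.ext hxy
      rw [this]; exact h1
    rw [h2, map_pol _ (hunit _)]

theorem isUnit_convex {b : A} (h0 : 0 ≤ b) (hb : IsUnit b) {t : ℝ} (ht : t ∈ Set.Icc (0 : ℝ) 1) :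
    IsUnit ((1 - t) • b + t • (1 : A)) := by
  rcases eq_or_lt_of_le ht.2 with h | h
  · rw [h]; simp
  · have hpos : 0 < 1 - t := by linarith
    have h1 : IsStrictlyPositive ((1 - t) • b) := by
      refine ⟨smul_nonneg hpos.le h0, ?_⟩
      exact (hb.smul (Units.mk0 (1 - t) hpos.ne' : ℝˣ) : _)
    refine CStarAlgebra.isUnit_of_le ((1 - t) • b) ?_ h1
    exact le_add_of_nonneg_right (smul_nonneg ht.1 zero_le_one)

/-- equivariant contraction of the group of invertible elements -/
theorem units_contractible (hyp : Hyp σ) :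
    ∃ H : C(unitInterval × {T : A // IsUnit T}, {T : A // IsUnit T}),
      (∀ x, H (0, x) = x) ∧ (∀ x, (H (1, x) : A) = 1) ∧
      ∀ g t (x y : {T : A // IsUnit T}), (y : A) = σ g (x : A) →
        (H (t, y) : A) = σ g (H (t, x) : A) := by
  classical
  have hmem : ∀ g (x : {T : A // IsUnit T}), IsUnit (σ g (x : A)) := fun g x => x.2.map (σ g)
  let act : G → {T : A // IsUnit T} → {T : A // IsUnit T} := fun g x => ⟨σ g (x : A), hmem g x⟩
  have cpol : Continuous fun x : {T : A // IsUnit T} => pol (x : A) := by
    rw [continuous_iff_continuousAt]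
    intro x
    exact (continuousAt_pol x.2).comp continuous_subtype_val.continuousAt
  have csq : Continuous fun x : {T : A // IsUnit T} => CFC.sqrt (star (x : A) * (x : A)) := by
    have h1 : Continuous fun x : {T : A // IsUnit T} => star (x : A) * (x : A) := by fun_prop
    rw [continuous_iff_continuousAt]
    intro x
    have h2 := CFC.continuousOn_sqrt (A := A) (star (x : A) * (x : A)) (star_mul_self_nonneg _)
    refine Filter.Tendsto.comp (f := fun x : {T : A // IsUnit T} => star (x : A) * (x : A))
      h2.tendsto ?_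
    refine tendsto_nhdsWithin_iff.2 ⟨h1.continuousAt, ?_⟩
    exact Filter.Eventually.of_forall fun x => star_mul_self_nonneg _
  let p : C({T : A // IsUnit T}, unitary A) :=
    ⟨fun x => ⟨pol (x : A), pol_mem x.2⟩, Continuous.subtype_mk cpol _⟩
  have k2 := contract_general hyp (X := {T : A // IsUnit T}) act p
    (fun g x => (map_pol (σ g) x.2).symm)
  let Fm : ℝ → C({T : A // IsUnit T}, A) := fun t =>
    ⟨fun x => pol (x : A) * ((1 - t) • CFC.sqrt (star (x : A) * (x : A)) + t • (1 : A)),
      cpol.mul ((csq.const_smul _).add continuous_const)⟩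
  have k1 := homotopicWith_of (P := Adm act σ) Fm ?_ ?_
  · have e0 : Fm 0 = ⟨fun x => (x : A), continuous_subtype_val⟩ := by
      ext x
      show pol (x : A) * ((1 - (0 : ℝ)) • CFC.sqrt (star (x : A) * (x : A)) + (0 : ℝ) • (1 : A)) = x
      have hb := isUnit_sqrt (star_mul_self_nonneg (x : A)) (isUnit_star_mul x.2)
      rw [sub_zero, one_smul, zero_smul, add_zero, pol, mul_assoc, Ring.inverse_mul_cancel _ hb,
        mul_one]
    have e1 : Fm 1 = ⟨fun x => (p x : A), by fun_prop⟩ := by
      ext x
      show pol (x : A) * ((1 - (1 : ℝ)) • CFC.sqrt (star (x : A) * (x : A)) + (1 : ℝ) • (1 : A)) =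
        pol (x : A)
      rw [sub_self, zero_smul, zero_add, one_smul, mul_one]
    rw [e0, e1] at k1
    obtain ⟨F⟩ := k1.trans k2
    have hadm := F.prop'
    have hunit : ∀ q : unitInterval × {T : A // IsUnit T}, IsUnit (F q) := by
      rintro ⟨t, x⟩
      have := (hadm t).2
      rw [ContinuousMap.isUnit_iff_forall_isUnit] at this
      exact this x
    refine ⟨⟨fun q => ⟨F q, hunit q⟩, Continuous.subtype_mk F.continuous _⟩, ?_, ?_, ?_⟩
    · intro x
      apply Subtype.ext
      exact F.map_zero_left x
    · intro x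
      exact F.map_one_left x
    · intro g t x y hxy
      have h1 := (hadm t).1 g x
      have : y = act g x := Subtype.ext hxy
      rw [this]; exact h1
  · show Continuous fun q : ℝ × {T : A // IsUnit T} => pol (q.2 : A) *
      ((1 - q.1) • CFC.sqrt (star (q.2 : A) * (q.2 : A)) + q.1 • (1 : A))
    have c1 : Continuous fun q : ℝ × {T : A // IsUnit T} => (1 - q.1 : ℝ) := by fun_prop
    have c2 : Continuous fun q : ℝ × {T : A // IsUnit T} =>
        (1 - q.1) • CFC.sqrt (star (q.2 : A) * (q.2 : A)) :=
      c1.smul (csq.comp continuous_snd)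
    have c3 : Continuous fun q : ℝ × {T : A // IsUnit T} => q.1 • (1 : A) :=
      continuous_fst.smul continuous_const
    exact (cpol.comp continuous_snd).mul (c2.add c3)
  · intro t ht
    constructor
    · intro g x
      have h0 := star_mul_self_nonneg (x : A)
      show pol (σ g (x : A)) * ((1 - t) • CFC.sqrt (star (σ g (x : A)) * σ g (x : A)) +
        t • (1 : A)) = σ g (pol (x : A) * ((1 - t) • CFC.sqrt (star (x : A) * (x : A)) +
        t • (1 : A)))
      have hsm : ∀ (r : ℝ) (a : A), σ g (r • a) = r • σ g a := by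
        intro r a
        have e1 : r • a = (r : ℂ) • a := (Complex.coe_smul r a).symm
        have e2 : r • σ g a = (r : ℂ) • σ g a := (Complex.coe_smul r _).symm
        rw [e1, e2, map_smul]
      rw [map_mul, map_pol (σ g) x.2, map_add, hsm, hsm, map_sqrt (σ g) h0, map_mul, map_star,
        map_one]
    · rw [ContinuousMap.isUnit_iff_forall_isUnit]
      intro x
      have hpu : IsUnit (pol (x : A)) := by
        have := pol_mem x.2
        exact ⟨⟨pol (x : A), star (pol (x : A)), (Unitary.mem_iff.1 this).2,
          (Unitary.mem_iff.1 this).1⟩, rfl⟩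
      exact hpu.mul (isUnit_convex (CFC.sqrt_nonneg _)
        (isUnit_sqrt (star_mul_self_nonneg (x : A)) (isUnit_star_mul x.2)) ht)

end Pool.Agent.Lib.MP_3c1a79_gt
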