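import Mathlib

/-!
Equivariant contractibility of a space with a group action (no continuity in the group variable).
-/

namespace Pool.Agent.Lib.MP_3c1a79_gt

/-- A space `Y` with an action `act g : Y → Y` (`g ∈ G`) is equivariantly contractible if there
are a fixed point `y₀` and a continuous `h : [0,1] × Y → Y` with `h (0, y) = y`, `h (1, y) = y₀`
and `h (t, act g y) = act g (h (t, y))` for all `t`, `g`, `y`. -/
def EquivariantlyContractible {G Y : Type*} [TopologicalSpace Y] (act : G → Y → Y) : Prop :=
  ∃ y₀ : Y, (∀ g, act g y₀ = y₀) ∧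
    ∃ h : unitInterval × Y → Y, Continuous h ∧ (∀ y, h (0, y) = y) ∧ (∀ y, h (1, y) = y₀) ∧
      ∀ t g y, h (t, act g y) = act g (h (t, y))

end Pool.Agent.Lib.MP_3c1a79_gt
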