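import Mathlib
import Pool.Agent.Lib.MP_3c1a79_gt.EqContr

/-!
The concrete model of the Hilbert space `H = L²(G) ⊗ ℓ²(ℕ)`, realised as the space
`ℓ²(ℕ; L²(G))` of square summable sequences in `L²(G)`, the unitary representation
`π_g = λ_g ⊗ 1`, and the conjugation actions on the unitary group and on the invertible operators.
-/

namespace Pool.Agent.Lib.MP_3c1a79_gt

open MeasureTheory
open scoped ENNReal InnerProductSpace

/-! ### Square summable sequences and amplification -/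

section
variable {K : Type*} [NormedAddCommGroup K]

/-- The space `ℓ²(ℕ; K)` of square summable sequences in `K` (a model of `K ⊗ ℓ²(ℕ)`). -/
abbrev Ell (K : Type*) [NormedAddCommGroup K] : Type _ := lp (fun _ : ℕ => K) 2

theorem two_pos' : 0 < (2 : ℝ≥0∞).toReal := by norm_num

theorem Ell.summable (x : Ell K) : Summable fun n => ‖x n‖ ^ 2 := by
  have := (lp.memℓp x).summable two_pos'
  simpa using this

theorem Ell.norm_sq (x : Ell K) : ‖x‖ ^ 2 = ∑' n, ‖x n‖ ^ 2 := by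
  have := lp.norm_rpow_eq_tsum two_pos' x
  simpa using this

theorem memEll {f : ℕ → K} (h : Summable fun n => ‖f n‖ ^ 2) : Memℓp f 2 := by
  apply memℓp_gen
  simpa using h

variable [InnerProductSpace ℂ K]

theorem sq_le_map (a : K →L[ℂ] K) (x : Ell K) (n : ℕ) : ‖a (x n)‖ ^ 2 ≤ ‖a‖ ^ 2 * ‖x n‖ ^ 2 := by
  calc ‖a (x n)‖ ^ 2 ≤ (‖a‖ * ‖x n‖) ^ 2 := by gcongr; exact a.le_opNorm _
    _ = ‖a‖ ^ 2 * ‖x n‖ ^ 2 := by ring

theorem memEll_map (a : K →L[ℂ] K) (x : Ell K) : Memℓp (fun n => a (x n)) 2 :=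
  memEll (Summable.of_nonneg_of_le (fun n => by positivity) (sq_le_map a x)
    ((Ell.summable x).mul_left (‖a‖ ^ 2)))

/-- the linear map underlying `diagL`: apply `a` to every coordinate -/
def diagₗ (a : K →L[ℂ] K) : Ell K →ₗ[ℂ] Ell K where
  toFun x := ⟨fun n => a (x n), memEll_map a x⟩
  map_add' x y := by
    ext n
    show a ((x + y) n) = a (x n) + a (y n)
    rw [lp.coeFn_add, Pi.add_apply, map_add]
  map_smul' c x := by
    ext n
    show a ((c • x) n) = c • a (x n)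
    rw [lp.coeFn_smul, Pi.smul_apply, map_smul]

theorem diagₗ_bound (a : K →L[ℂ] K) (x : Ell K) : ‖diagₗ a x‖ ≤ ‖a‖ * ‖x‖ := by
  refine le_of_sq_le_sq ?_ (by positivity)
  rw [Ell.norm_sq, mul_pow, Ell.norm_sq x, ← tsum_mul_left]
  exact Summable.tsum_le_tsum (sq_le_map a x) (Ell.summable (diagₗ a x))
    ((Ell.summable x).mul_left _)

/-- The amplification `a ⊗ 1` of a bounded operator `a` on `K`: it applies `a` to every
coordinate of a sequence in `ℓ²(ℕ; K)`. -/
noncomputable def diagL (a : K →L[ℂ] K) : Ell K →L[ℂ] Ell K :=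
  (diagₗ a).mkContinuous ‖a‖ (diagₗ_bound a)

@[simp] theorem diagL_apply (a : K →L[ℂ] K) (x : Ell K) (n : ℕ) : diagL a x n = a (x n) := rfl

variable [CompleteSpace K]

theorem diagL_adjoint (a : K →L[ℂ] K) : diagL (star a) = star (diagL a) := by
  have h : diagL (ContinuousLinearMap.adjoint a) = ContinuousLinearMap.adjoint (diagL a) := by
    rw [ContinuousLinearMap.eq_adjoint_iff]
    intro x y
    rw [lp.inner_eq_tsum, lp.inner_eq_tsum]
    congr 1
    ext n
    rw [diagL_apply, diagL_apply, ContinuousLinearMap.adjoint_inner_left]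
  exact h

theorem diagL_unitary {p : K →L[ℂ] K} (hp : p ∈ unitary (K →L[ℂ] K)) :
    diagL p ∈ unitary (Ell K →L[ℂ] Ell K) := by
  have h1 := (Unitary.mem_iff.1 hp).1
  have h2 := (Unitary.mem_iff.1 hp).2
  have h0 : diagL (1 : K →L[ℂ] K) = 1 := by ext x n; rfl
  refine Unitary.mem_iff.2 ⟨?_, ?_⟩
  · rw [← diagL_adjoint]
    have : diagL (star p) * diagL p = diagL (star p * p) := rfl
    rw [this, h1, h0]
  · rw [← diagL_adjoint]
    have : diagL p * diagL (star p) = diagL (p * star p) := rfl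
    rw [this, h2, h0]

theorem pi_unitary {G : Type*} [Group G] {π : G → K →L[ℂ] K}
    (hi : ∀ g x y, ⟪π g x, π g y⟫_ℂ = ⟪x, y⟫_ℂ)
    (h1 : ∀ x, π 1 x = x) (hm : ∀ g h x, π (g * h) x = π g (π h x)) (g : G) :
    π g ∈ unitary (K →L[ℂ] K) := by
  have e1 : star (π g) * π g = 1 :=
    (ContinuousLinearMap.inner_map_map_iff_adjoint_comp_self (π g)).1 (hi g)
  have e2 : π g * π g⁻¹ = 1 := by
    ext x
    show π g (π g⁻¹ x) = x
    rw [← hm, mul_inv_cancel, h1]
  have e3 : star (π g) = π g⁻¹ := by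
    calc star (π g) = star (π g) * (π g * π g⁻¹) := by rw [e2, mul_one]
      _ = π g⁻¹ := by rw [← mul_assoc, e1, one_mul]
  refine Unitary.mem_iff.2 ⟨e1, ?_⟩
  rw [e3, e2]

end

/-! ### The representation -/

section
variable {G : Type*} [Group G] [MeasurableSpace G] [MeasurableMul G]
  (μ : Measure G) [μ.IsMulLeftInvariant]

/-- The left regular representation on `L²(G, μ)`: `(λ_g f)(x) = f (g⁻¹ x)`. -/
noncomputable def lam (g : G) : Lp ℂ 2 μ →L[ℂ] Lp ℂ 2 μ :=
  (Lp.compMeasurePreservingₗᵢ ℂ (fun x => g⁻¹ * x)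
    (measurePreserving_mul_left μ g⁻¹)).toContinuousLinearMap

/-- the defining formula `(λ_g f)(x) = f (g⁻¹ x)` for almost all `x` -/
theorem lam_ae (g : G) (f : Lp ℂ 2 μ) : lam μ g f =ᵐ[μ] fun x => f (g⁻¹ * x) :=
  Lp.coeFn_compMeasurePreserving f (measurePreserving_mul_left μ g⁻¹)

theorem lam_inner (g : G) (f f' : Lp ℂ 2 μ) : ⟪lam μ g f, lam μ g f'⟫_ℂ = ⟪f, f'⟫_ℂ :=
  (Lp.compMeasurePreservingₗᵢ ℂ (fun x => g⁻¹ * x)
    (measurePreserving_mul_left μ g⁻¹)).inner_map_map f f'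

theorem lam_one (f : Lp ℂ 2 μ) : lam μ 1 f = f := by
  apply Lp.ext
  filter_upwards [lam_ae μ 1 f] with x hx
  rw [hx, inv_one, one_mul]

theorem lam_mul (g h : G) (f : Lp ℂ 2 μ) : lam μ (g * h) f = lam μ g (lam μ h f) := by
  apply Lp.ext
  have h1 := lam_ae μ (g * h) f
  have h2 := lam_ae μ g (lam μ h f)
  have h3 := (measurePreserving_mul_left μ g⁻¹).quasiMeasurePreserving.ae (lam_ae μ h f)
  filter_upwards [h1, h2, h3] with x e1 e2 e3
  rw [e1, e2, e3, mul_inv_rev, mul_assoc]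

theorem lam_mem (g : G) : lam μ g ∈ unitary (Lp ℂ 2 μ →L[ℂ] Lp ℂ 2 μ) :=
  pi_unitary (lam_inner μ) (lam_one μ) (lam_mul μ) g

/-- The Hilbert space `H = L²(G) ⊗ ℓ²(ℕ)`, realised as `ℓ²(ℕ; L²(G, μ))`. -/
abbrev HG : Type _ := Ell (Lp ℂ 2 μ)

/-- The unitary operator `π_g = λ_g ⊗ 1` on `H`. -/
noncomputable def piG (g : G) : HG μ →L[ℂ] HG μ := diagL (lam μ g)

theorem piG_mem (g : G) : piG μ g ∈ unitary (HG μ →L[ℂ] HG μ) := diagL_unitary (lam_mem μ g)

/-- The conjugation action `g • y = π_g y π_g*` on the unitary group `U(H)`, which carries the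
operator norm topology (as a subspace of the bounded operators). -/
noncomputable def actU (g : G) (y : unitary (HG μ →L[ℂ] HG μ)) : unitary (HG μ →L[ℂ] HG μ) :=
  ⟨piG μ g * (y : HG μ →L[ℂ] HG μ) * star (piG μ g),
    mul_mem (mul_mem (piG_mem μ g) y.2) (Unitary.star_mem (piG_mem μ g))⟩

/-- The set `GL(H)` of invertible bounded operators, with the operator norm topology. -/
abbrev GLH : Type _ := {T : HG μ →L[ℂ] HG μ // IsUnit T}

/-- The conjugation action `g • T = π_g T π_g*` on `GL(H)`. -/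
noncomputable def actGL (g : G) (T : GLH μ) : GLH μ :=
  ⟨piG μ g * (T : HG μ →L[ℂ] HG μ) * star (piG μ g),
    ((Unitary.isUnit_coe (U := ⟨piG μ g, piG_mem μ g⟩)).mul T.2).mul
      (Unitary.isUnit_coe (U := ⟨star (piG μ g), Unitary.star_mem (piG_mem μ g)⟩))⟩

end
end Pool.Agent.Lib.MP_3c1a79_gt
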