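import Mathlib
import Pool.Agent.Lib.MP_3c1a79_gt.Defs

/-!
Amplification of operators to `ℓ²(ℕ; K)`.
-/

namespace Pool.Agent.Lib.MP_3c1a79_gt

open scoped ENNReal InnerProductSpace

section
variable {K : Type*} [NormedAddCommGroup K]

variable [InnerProductSpace ℂ K]

/-! ### the shift -/

omit [InnerProductSpace ℂ K] in
theorem summable_shift (x : Ell K) :
    Summable fun n => ‖(match n with | 0 => (0 : K) | (m + 1) => x m : K)‖ ^ 2 := by
  rw [← summable_nat_add_iff 1]
  exact Ell.summable x

omit [InnerProductSpace ℂ K] in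
theorem tsum_shift (x : Ell K) :
    ∑' n, ‖(match n with | 0 => (0 : K) | (m + 1) => x m : K)‖ ^ 2 = ∑' n, ‖x n‖ ^ 2 := by
  rw [(summable_shift x).tsum_eq_zero_add]
  simp

/-- the unilateral shift -/
noncomputable def shiftI (K : Type*) [NormedAddCommGroup K] [InnerProductSpace ℂ K] :
    Ell K →ₗᵢ[ℂ] Ell K where
  toFun x := ⟨fun n => match n with | 0 => (0 : K) | (m + 1) => x m, memEll (summable_shift x)⟩
  map_add' x y := by
    ext n
    rcases n with _ | m
    · show (0 : K) = 0 + 0
      simp
    · rfl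
  map_smul' c x := by
    ext n
    rcases n with _ | m
    · show (0 : K) = c • 0
      simp
    · rfl
  norm_map' x := by
    have h : ‖(⟨fun n => match n with | 0 => (0 : K) | (m + 1) => x m,
        memEll (summable_shift x)⟩ : Ell K)‖ ^ 2 = ‖x‖ ^ 2 := by
      rw [Ell.norm_sq, Ell.norm_sq x]
      exact tsum_shift x
    exact (pow_left_inj₀ (norm_nonneg _) (norm_nonneg _) two_ne_zero).1 h

@[simp] theorem shiftI_zero (x : Ell K) : shiftI K x 0 = 0 := rfl
@[simp] theorem shiftI_succ (x : Ell K) (n : ℕ) : shiftI K x (n + 1) = x n := rfl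

/-- the embedding as zeroth coordinate -/
noncomputable def incl0 (K : Type*) [NormedAddCommGroup K] [InnerProductSpace ℂ K] :
    K →L[ℂ] Ell K := lp.singleContinuousLinearMap ℂ (fun _ : ℕ => K) 2 0

theorem incl0_apply (x : K) : incl0 K x = lp.single 2 0 x := rfl

variable [CompleteSpace K]

/-- `a ↦ a ⊗ 1` as a unital star homomorphism -/
noncomputable def diagHom (K : Type*) [NormedAddCommGroup K] [InnerProductSpace ℂ K]
    [CompleteSpace K] : (K →L[ℂ] K) →⋆ₐ[ℂ] (Ell K →L[ℂ] Ell K) where
  toFun := diagL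
  map_one' := by ext x n; rfl
  map_mul' a b := by ext x n; rfl
  map_zero' := by ext x n; rfl
  map_add' a b := by ext x n; rfl
  commutes' r := by ext x n; rfl
  map_star' := diagL_adjoint

@[simp] theorem diagHom_apply (a : K →L[ℂ] K) : diagHom K a = diagL a := rfl

theorem incl0_adj (x : Ell K) : (incl0 K).adjoint x = x 0 := by
  refine ext_inner_left ℂ fun y => ?_
  rw [ContinuousLinearMap.adjoint_inner_right, incl0_apply, lp.inner_single_left]

theorem shift_single (n : ℕ) (y : K) :
    (shiftI K).toContinuousLinearMap (lp.single 2 n y : Ell K) =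
      (lp.single 2 (n + 1) y : Ell K) := by
  ext m
  rcases m with _ | m
  · show (0 : K) = (lp.single 2 (n + 1) y : Ell K) 0
    rw [lp.single_apply_ne _ _ _ (by omega)]
  · show (lp.single 2 n y : Ell K) m = (lp.single 2 (n + 1) y : Ell K) (m + 1)
    by_cases hm : m = n
    · subst hm
      rw [lp.single_apply_self, lp.single_apply_self]
    · rw [lp.single_apply_ne _ _ _ hm, lp.single_apply_ne _ _ _ (by omega)]

theorem shift_adj (x : Ell K) (n : ℕ) :
    ((shiftI K).toContinuousLinearMap.adjoint x) n = x (n + 1) := by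
  refine ext_inner_left ℂ fun y => ?_
  have h1 := lp.inner_single_left (𝕜 := ℂ) (G := fun _ : ℕ => K) n y
    ((shiftI K).toContinuousLinearMap.adjoint x)
  rw [← h1, ContinuousLinearMap.adjoint_inner_right, shift_single,
    lp.inner_single_left]

end
end Pool.Agent.Lib.MP_3c1a79_gt
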