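import Mathlib

/-!
The averaged rank one operator of a strongly continuous unitary representation of a compact group.
-/

namespace Pool.Agent.Lib.MP_3c1a79_gt

open MeasureTheory InnerProductSpace
open scoped InnerProductSpace

section
variable {G : Type*} [Group G] [TopologicalSpace G] [IsTopologicalGroup G] [CompactSpace G]
  [MeasurableSpace G] [BorelSpace G] {μ : Measure G} [μ.IsHaarMeasure] [IsProbabilityMeasure μ]
  {K : Type*} [NormedAddCommGroup K] [InnerProductSpace ℂ K] [CompleteSpace K]
  {π : G → K →L[ℂ] K}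

/-- the rank one operators along the orbit -/
noncomputable def ro (π : G → K →L[ℂ] K) (f : K) (g : G) : K →L[ℂ] K :=
  rankOne ℂ (π g f) (π g f)

omit [Group G] [TopologicalSpace G] [IsTopologicalGroup G] [CompactSpace G] [MeasurableSpace G]
  [BorelSpace G] [CompleteSpace K] in
theorem ro_apply (f : K) (g : G) (x : K) : ro π f g x = ⟪π g f, x⟫_ℂ • π g f := rfl

omit [Group G] [IsTopologicalGroup G] [CompactSpace G] [MeasurableSpace G]
  [BorelSpace G] [CompleteSpace K] in
theorem continuous_ro (hc : ∀ x, Continuous fun g => π g x) (f : K) : Continuous (ro π f) := by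
  have h1 : Continuous fun g => (ContinuousLinearMap.smulRightL ℂ K K) (innerSL ℂ (π g f)) :=
    (ContinuousLinearMap.smulRightL ℂ K K).continuous.comp
      ((innerSL ℂ (E := K)).continuous.comp (hc f))
  exact h1.clm_apply (hc f)

/-- the averaged operator -/
noncomputable def avg (μ : Measure G) (π : G → K →L[ℂ] K) (f : K) : K →L[ℂ] K :=
  ∫ g, ro π f g ∂μ

include μ in
omit [Group G] [IsTopologicalGroup G] [CompleteSpace K] [μ.IsHaarMeasure] in
theorem integrable_ro (hc : ∀ x, Continuous fun g => π g x) (f : K) :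
    Integrable (ro π f) μ :=
  (continuous_ro hc f).integrable_of_hasCompactSupport (HasCompactSupport.of_compactSpace _)

omit [Group G] [IsTopologicalGroup G] [μ.IsHaarMeasure] in
theorem avg_mem (hc : ∀ x, Continuous fun g => π g x) (f : K) {s : Set (K →L[ℂ] K)}
    (hs : Convex ℝ s) (hcl : IsClosed s) (h : ∀ g, ro π f g ∈ s) : avg μ π f ∈ s :=
  hs.integral_mem hcl (Filter.Eventually.of_forall h) (integrable_ro hc f)

omit [Group G] [IsTopologicalGroup G] [μ.IsHaarMeasure] in
theorem avg_compact (hc : ∀ x, Continuous fun g => π g x) (f : K) :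
    IsCompactOperator (avg μ π f) := by
  have : avg μ π f ∈ {T : K →L[ℂ] K | IsCompactOperator T} := by
    refine avg_mem hc f ?_ isClosed_setOfPred_isCompactOperator ?_
    · intro x hx y hy a b _ _ _
      show IsCompactOperator ⇑(a • x + b • y)
      exact (hx.smul a).add (hy.smul b)
    · intro g
      show IsCompactOperator ⇑(rankOne ℂ (π g f) (π g f))
      rw [rankOne_def']
      exact (isCompactOperator_of_locallyCompactSpace_rng
        (ContinuousLinearMap.toSpanSingleton ℂ (π g f))).comp_clm _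
  exact this

omit [Group G] [IsTopologicalGroup G] [μ.IsHaarMeasure] in
theorem avg_selfAdjoint (hc : ∀ x, Continuous fun g => π g x) (f : K) :
    IsSelfAdjoint (avg μ π f) := by
  have : avg μ π f ∈ {T : K →L[ℂ] K | star T = T} := by
    refine avg_mem hc f ?_ (isClosed_eq continuous_star continuous_id) ?_
    · intro x hx y hy a b _ _ _
      show star (a • x + b • y) = a • x + b • y
      have hx' : star x = x := hx
      have hy' : star y = y := hy
      rw [star_add, star_smul, star_smul, hx', hy']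
      simp
    · intro g
      show star (rankOne ℂ (π g f) (π g f)) = rankOne ℂ (π g f) (π g f)
      rw [ContinuousLinearMap.star_eq_adjoint, adjoint_rankOne]
  exact this

omit [Group G] [IsTopologicalGroup G] [μ.IsHaarMeasure] in
theorem avg_range (hc : ∀ x, Continuous fun g => π g x) (f : K) {N : Submodule ℂ K}
    (hN : IsClosed (N : Set K)) (hf : ∀ g, π g f ∈ N) (x : K) : avg μ π f x ∈ N := by
  have : avg μ π f ∈ {T : K →L[ℂ] K | T x ∈ N} := by
    refine avg_mem hc f ?_ (hN.preimage (ContinuousLinearMap.apply ℂ K x).continuous) ?_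
    · intro S hS T hT a b _ _ _
      show (a • S + b • T) x ∈ N
      have e1 : (a • S + b • T) x = (a : ℂ) • S x + (b : ℂ) • T x := rfl
      rw [e1]
      exact N.add_mem (N.smul_mem _ hS) (N.smul_mem _ hT)
    · intro g
      show ro π f g x ∈ N
      rw [ro_apply]
      exact N.smul_mem _ (hf g)
  exact this

omit [CompleteSpace K] [IsProbabilityMeasure μ] [IsTopologicalGroup G] [CompactSpace G] in
theorem avg_comm_aux (hi : ∀ g x y, ⟪π g x, π g y⟫_ℂ = ⟪x, y⟫_ℂ)
    (hm : ∀ g h x, π (g * h) x = π g (π h x)) (f : K) (h g : G) (x : K) :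
    π h (ro π f g x) = ro π f (h * g) (π h x) := by
  rw [ro_apply, ro_apply, map_smul, hm, hi]

theorem avg_comm (hc : ∀ x, Continuous fun g => π g x)
    (hi : ∀ g x y, ⟪π g x, π g y⟫_ℂ = ⟪x, y⟫_ℂ)
    (hm : ∀ g h x, π (g * h) x = π g (π h x)) (f : K) (h : G) (x : K) :
    π h (avg μ π f x) = avg μ π f (π h x) := by
  have hint := integrable_ro (μ := μ) hc f
  have e1 : avg μ π f x = ∫ g, ro π f g x ∂μ :=
    ContinuousLinearMap.integral_apply hint x
  have e2 : avg μ π f (π h x) = ∫ g, ro π f g (π h x) ∂μ :=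
    ContinuousLinearMap.integral_apply hint (π h x)
  have hint' : Integrable (fun g => ro π f g x) μ := hint.apply_continuousLinearMap x
  rw [e1, ← ContinuousLinearMap.integral_comp_comm (π h) hint', e2,
    ← integral_mul_left_eq_self (fun g => ro π f g (π h x)) h]
  congr 1
  ext g
  exact avg_comm_aux hi hm f h g x

omit [IsTopologicalGroup G] in
theorem avg_ne_zero (hc : ∀ x, Continuous fun g => π g x) (h1 : ∀ x, π 1 x = x) {f : K}
    (hf : f ≠ 0) : avg μ π f ≠ 0 := by
  intro h0
  have hint := integrable_ro (μ := μ) hc f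
  have e1 : avg μ π f f = ∫ g, ro π f g f ∂μ :=
    ContinuousLinearMap.integral_apply hint f
  have hint' : Integrable (fun g => ro π f g f) μ := hint.apply_continuousLinearMap f
  have e2 : ⟪f, avg μ π f f⟫_ℂ = ∫ g, ⟪f, ro π f g f⟫_ℂ ∂μ := by
    rw [e1]
    exact (integral_inner hint' f).symm
  have e3 : ∀ g, ⟪f, ro π f g f⟫_ℂ = ((‖⟪π g f, f⟫_ℂ‖ ^ 2 : ℝ) : ℂ) := by
    intro g
    rw [ro_apply, inner_smul_right, ← inner_conj_symm f (π g f), Complex.mul_conj,
      Complex.normSq_eq_norm_sq]
  have e4 : ∫ g, ⟪f, ro π f g f⟫_ℂ ∂μ = ((∫ g, ‖⟪π g f, f⟫_ℂ‖ ^ 2 ∂μ : ℝ) : ℂ) := by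
    simp_rw [e3]
    exact integral_ofReal
  have hpos : 0 < ∫ g, ‖⟪π g f, f⟫_ℂ‖ ^ 2 ∂μ := by
    refine Continuous.integral_pos_of_hasCompactSupport_nonneg_nonzero (x := 1) ?_
      (HasCompactSupport.of_compactSpace _) (fun g => by positivity) ?_
    · exact ((hc f).inner continuous_const).norm.pow 2
    · rw [h1]
      simp [hf]
  rw [h0] at e2
  rw [e4] at e2
  simp only [zero_apply, inner_zero_right] at e2
  have := (Complex.ofReal_eq_zero.1 e2.symm)
  exact hpos.ne' this

end
end Pool.Agent.Lib.MP_3c1a79_gt
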