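import Mathlib

/-!
General position in a Hilbert space that is a countable sum of finite dimensional pieces, each of
which can be moved away from every finite dimensional subspace.
-/

namespace Pool.Agent.Lib.MP_3c1a79_gt

open scoped InnerProductSpace

section
variable {H : Type*} [NormedAddCommGroup H] [InnerProductSpace ℂ H] [CompleteSpace H]

theorem ext_total {H' : Type*} [NormedAddCommGroup H'] [InnerProductSpace ℂ H'] {I : Type*}
    {U : I → Submodule ℂ H} (total : (⨆ i, U i).topologicalClosure = ⊤) {f g : H →L[ℂ] H'}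
    (h : ∀ i, ∀ x ∈ U i, f x = g x) : f = g := by
  have hs : Dense ((Submodule.span ℂ (⋃ i, (U i : Set H)) : Submodule ℂ H) : Set H) := by
    rw [Submodule.span_iUnion]
    simp only [Submodule.span_eq]
    rw [← Submodule.dense_iff_topologicalClosure_eq_top] at total
    exact total
  refine ContinuousLinearMap.ext_on hs ?_
  rintro x hx
  obtain ⟨i, hi⟩ := Set.mem_iUnion.1 hx
  exact h i x hi

theorem inner_zero_total {I : Type*}
    {U : I → Submodule ℂ H} (total : (⨆ i, U i).topologicalClosure = ⊤) {f : H →L[ℂ] H} {z : H}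
    (h : ∀ i, ∀ x ∈ U i, ⟪f x, z⟫_ℂ = 0) (x : H) : ⟪f x, z⟫_ℂ = 0 := by
  have e : (innerSL ℂ z).comp f = 0 := by
    refine ext_total total fun i x hx => ?_
    show ⟪z, f x⟫_ℂ = 0
    rw [← inner_conj_symm, h i x hx, map_zero]
  have := congrArg (fun g : H →L[ℂ] ℂ => g x) e
  have h2 : ⟪z, f x⟫_ℂ = 0 := this
  rw [← inner_conj_symm, h2, map_zero]

theorem genPos_aux {I : Type*} [Encodable I] {U : I → Submodule ℂ H}
    (fd : ∀ i, FiniteDimensional ℂ (U i))
    (orth : OrthogonalFamily ℂ (fun i => U i) (fun i => (U i).subtypeₗᵢ))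
    (total : (⨆ i, U i).topologicalClosure = ⊤) (P : Set (H →L[ℂ] H))
    (inv : ∀ p ∈ P, ∀ i, ∀ x ∈ U i, p x ∈ U i)
    (rich : ∀ (i : I) (E : Submodule ℂ H), FiniteDimensional ℂ E → ∃ w : H →L[ℂ] H,
      (∀ p ∈ P, p * w = w * p) ∧ (∀ x ∈ U i, ‖w x‖ = ‖x‖) ∧ ∀ x ∈ U i, w x ∈ Eᗮ)
    (𝒯 : Set (H →L[ℂ] H)) (h𝒯 : 𝒯.Finite) :
    ∃ u : Fin 3 → (H →L[ℂ] H), (∀ i, ∀ p ∈ P, p * u i = u i * p) ∧
      (∀ i, star (u i) * u i = 1) ∧
      ∀ T ∈ 𝒯, ∀ i j, i ≠ j → star (u i) * T * u j = 0 := by
  classical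
  haveI := fd
  let ES := {E : Submodule ℂ H // FiniteDimensional ℂ E}
  have rich' : ∀ (a : Fin 3 × I) (E : ES), ∃ w : H →L[ℂ] H,
      (∀ p ∈ P, p * w = w * p) ∧ (∀ x ∈ U a.2, ‖w x‖ = ‖x‖) ∧ ∀ x ∈ U a.2, w x ∈ E.1ᗮ :=
    fun a E => rich a.2 E.1 E.2
  choose w w1 w2 w3 using rich'
  have h𝒯' : (insert 1 (𝒯 ∪ star '' 𝒯)).Finite := (h𝒯.union (h𝒯.image _)).insert _
  let 𝒯f : Finset (H →L[ℂ] H) := h𝒯'.toFinset
  have m1 : (1 : H →L[ℂ] H) ∈ 𝒯f := by simp [𝒯f]
  have m2 : ∀ T ∈ 𝒯, T ∈ 𝒯f := fun T hT => by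
    simp only [𝒯f, Set.Finite.mem_toFinset]
    exact Or.inr (Or.inl hT)
  have m3 : ∀ T ∈ 𝒯, star T ∈ 𝒯f := fun T hT => by
    simp only [𝒯f, Set.Finite.mem_toFinset]
    exact Or.inr (Or.inr ⟨T, hT, rfl⟩)
  let add : Fin 3 × I → ES → Submodule ℂ H := fun a E =>
    𝒯f.sup fun T => ((U a.2).map (w a E).toLinearMap).map T.toLinearMap
  have addfd : ∀ a E, FiniteDimensional ℂ (add a E) := fun a E =>
    Submodule.finiteDimensional_finset_sup _ _
  let step : ℕ → ES → ES := fun n E =>
    match Encodable.decode₂ (Fin 3 × I) n with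
    | none => E
    | some a => ⟨E.1 ⊔ add a E, by
        haveI := E.2
        haveI := addfd a E
        exact Submodule.finiteDimensional_sup _ _⟩
  let E : ℕ → ES := fun n => Nat.rec ⟨⊥, finiteDimensional_bot ℂ H⟩ (fun n E => step n E) n
  have Esucc : ∀ n, E (n + 1) = step n (E n) := fun n => rfl
  have step_le : ∀ n E', E'.1 ≤ (step n E').1 := by
    intro n E'
    simp only [step]
    cases h : Encodable.decode₂ (Fin 3 × I) n with
    | none => exact le_rfl
    | some a => exact le_sup_left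
  have Emono : Monotone fun n => (E n).1 := monotone_nat_of_le_succ fun n => by
    rw [Esucc]; exact step_le n _
  let W : Fin 3 × I → (H →L[ℂ] H) := fun a => w a (E (Encodable.encode a))
  have hadd : ∀ a, ∀ T ∈ 𝒯f, ∀ x ∈ U a.2, T (W a x) ∈ (E (Encodable.encode a + 1)).1 := by
    intro a T hT x hx
    rw [Esucc]
    have hd : Encodable.decode₂ (Fin 3 × I) (Encodable.encode a) = some a :=
      Encodable.decode₂_eq_some.2 rfl
    have : (step (Encodable.encode a) (E (Encodable.encode a))).1 =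
        (E (Encodable.encode a)).1 ⊔ add a (E (Encodable.encode a)) := by
      simp only [step, hd]
    rw [this]
    refine Submodule.mem_sup_right ?_
    have hle : ((U a.2).map (W a).toLinearMap).map T.toLinearMap ≤
        add a (E (Encodable.encode a)) :=
      Finset.le_sup (f := fun T => ((U a.2).map (W a).toLinearMap).map T.toLinearMap) hT
    exact hle (Submodule.mem_map_of_mem (Submodule.mem_map_of_mem hx))
  have key : ∀ a b, Encodable.encode a < Encodable.encode b → ∀ T ∈ 𝒯f, ∀ x ∈ U a.2, ∀ y ∈ U b.2,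
      ⟪T (W a x), W b y⟫_ℂ = 0 := by
    intro a b hab T hT x hx y hy
    have h1 := hadd a T hT x hx
    have h2 : T (W a x) ∈ (E (Encodable.encode b)).1 := Emono (Nat.succ_le_of_lt hab) h1
    exact (Submodule.mem_orthogonal _ _).1 (w3 b _ y hy) _ h2
  -- symmetric version
  have key' : ∀ a b, a ≠ b → ∀ T, T ∈ 𝒯f → star T ∈ 𝒯f → ∀ x ∈ U a.2, ∀ y ∈ U b.2,
      ⟪W a x, T (W b y)⟫_ℂ = 0 := by
    intro a b hab T hT hT' x hx y hy
    rcases lt_or_gt_of_ne (fun h => hab (Encodable.encode_injective h)) with h | h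
    · have := key a b h (star T) hT' x hx y hy
      rwa [ContinuousLinearMap.star_eq_adjoint, ContinuousLinearMap.adjoint_inner_left] at this
    · have := key b a h T hT y hy x hx
      rw [← inner_conj_symm, this, map_zero]
  -- the isometries
  have hU : IsHilbertSum ℂ (fun i => U i) (fun i => (U i).subtypeₗᵢ) :=
    IsHilbertSum.mkInternal (F := U) orth total.ge
  let V : Fin 3 → ∀ n : I, U n →ₗᵢ[ℂ] H := fun i n =>
    ⟨(W (i, n)).toLinearMap.domRestrict (U n), fun x => w2 (i, n) _ x x.2⟩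
  have hV : ∀ i, OrthogonalFamily ℂ (fun n => U n) (V i) := by
    intro i n m hnm x y
    have := key' (i, n) (i, m) (by simpa using hnm) 1 m1 (by simpa using m1) x x.2 y y.2
    exact this
  let u : Fin 3 → (H →L[ℂ] H) := fun i =>
    ((hV i).linearIsometry.comp hU.linearIsometryEquiv.toLinearIsometry).toContinuousLinearMap
  have hu : ∀ i n, ∀ x ∈ U n, u i x = W (i, n) x := by
    intro i n x hx
    have h1 : hU.linearIsometryEquiv x = lp.single 2 n (⟨x, hx⟩ : U n) := by
      rw [← hU.linearIsometryEquiv.apply_symm_apply (lp.single 2 n (⟨x, hx⟩ : U n)),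
        hU.linearIsometryEquiv_symm_apply_single]
      rfl
    show (hV i).linearIsometry (hU.linearIsometryEquiv x) = _
    rw [h1, (hV i).linearIsometry_apply_single]
    rfl
  refine ⟨u, ?_, ?_, ?_⟩
  · intro i p hp
    refine ext_total total fun n x hx => ?_
    show p (u i x) = u i (p x)
    rw [hu i n x hx, hu i n _ (inv p hp n x hx)]
    exact congrArg (fun g : H →L[ℂ] H => g x) (w1 (i, n) (E _) p hp)
  · intro i
    have := (ContinuousLinearMap.norm_map_iff_adjoint_comp_self (u i)).1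
      (fun x => LinearIsometry.norm_map _ x)
    exact this
  · intro T hT i j hij
    refine ext_total total fun m y hy => ?_
    show (star (u i)) (T (u j y)) = 0
    refine ext_inner_left ℂ fun x => ?_
    rw [ContinuousLinearMap.star_eq_adjoint, ContinuousLinearMap.adjoint_inner_right, inner_zero_right]
    refine inner_zero_total total (fun n x hx => ?_) x
    rw [hu i n x hx, hu j m y hy]
    exact key' (i, n) (j, m) (by
      intro h; exact hij (congrArg Prod.fst h)) T (m2 T hT) (m3 T hT) x hx y hy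

end
end Pool.Agent.Lib.MP_3c1a79_gt
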