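import Mathlib
import Pool.Agent.Lib.MP_3c1a79_gt.Ampl
import Pool.Agent.Lib.MP_3c1a79_gt.GenPos

/-!
General position in `ℓ²(ℕ; K)`.
-/

namespace Pool.Agent.Lib.MP_3c1a79_gt

open scoped InnerProductSpace ENNReal

section
variable {K : Type*} [NormedAddCommGroup K] [InnerProductSpace ℂ K]

theorem summable_tens (e : Ell ℂ) (x : K) : Summable fun n => ‖e n • x‖ ^ 2 := by
  have : (fun n => ‖e n • x‖ ^ 2) = fun n => ‖e n‖ ^ 2 * ‖x‖ ^ 2 := by
    ext n; rw [norm_smul, mul_pow]
  rw [this]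
  exact (Ell.summable e).mul_right _

/-- `x ⊗ e` -/
def tens (e : Ell ℂ) (x : K) : Ell K := ⟨fun n => e n • x, memEll (summable_tens e x)⟩

theorem tens_apply (e : Ell ℂ) (x : K) (n : ℕ) : tens e x n = e n • x := rfl

theorem norm_tens (e : Ell ℂ) (x : K) : ‖tens e x‖ = ‖e‖ * ‖x‖ := by
  have h : ‖tens e x‖ ^ 2 = (‖e‖ * ‖x‖) ^ 2 := by
    rw [Ell.norm_sq, mul_pow, Ell.norm_sq e, ← tsum_mul_right]
    congr 1
    ext n
    rw [tens_apply, norm_smul, mul_pow]
  exact (pow_left_inj₀ (norm_nonneg _) (by positivity) two_ne_zero).1 h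

/-- `x ↦ x ⊗ e` as a continuous linear map -/
noncomputable def tensL (K : Type*) [NormedAddCommGroup K] [InnerProductSpace ℂ K] (e : Ell ℂ) :
    K →L[ℂ] Ell K :=
  LinearMap.mkContinuous
    { toFun := tens e
      map_add' := fun x y => by
        ext n
        show e n • (x + y) = e n • x + e n • y
        rw [smul_add]
      map_smul' := fun c x => by
        ext n
        show e n • (c • x) = c • (e n • x)
        rw [smul_comm] } ‖e‖ (fun x => (norm_tens e x).le)

theorem tensL_apply (e : Ell ℂ) (x : K) : tensL K e x = tens e x := rfl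

/-- finitely supported sequences inside `ℓ²` -/
noncomputable def finEll : (ℕ →₀ ℂ) →ₗ[ℂ] Ell ℂ where
  toFun f := ⟨fun n => f n, (memℓp_zero (by
    have : {i | f i ≠ 0} = f.support := by ext; simp
    rw [this]; exact f.support.finite_toSet)).of_exponent_ge (by simp)⟩
  map_add' f g := rfl
  map_smul' c f := rfl

theorem finEll_apply (f : ℕ →₀ ℂ) (n : ℕ) : finEll f n = f n := rfl

theorem finEll_ne_zero {f : ℕ →₀ ℂ} (hf : f ≠ 0) : finEll f ≠ 0 := by
  intro h
  apply hf
  ext n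
  rw [← finEll_apply, h]; rfl

/-- there is a unit vector `e` with `x ⊗ e ⟂ E` for all `x ∈ U`. -/
theorem exists_tens_orthogonal (U : Submodule ℂ K) [FiniteDimensional ℂ U]
    (E : Submodule ℂ (Ell K)) [FiniteDimensional ℂ E] :
    ∃ e : Ell ℂ, ‖e‖ = 1 ∧ ∀ x ∈ U, tens e x ∈ Eᗮ := by
  let Ψ : (ℕ →₀ ℂ) →ₗ[ℂ] (U →ₗ[ℂ] E) :=
    { toFun := fun f =>
        { toFun := fun x => E.orthogonalProjectionOnto (tens (finEll f) (x : K))
          map_add' := fun x y => by
            rw [← map_add]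
            congr 1
            exact (tensL K (finEll f)).map_add (x : K) (y : K)
          map_smul' := fun c x => by
            rw [RingHom.id_apply, ← map_smul]
            congr 1
            exact (tensL K (finEll f)).map_smul c (x : K) }
      map_add' := fun f g => by
        ext1 x
        show E.orthogonalProjectionOnto (tens (finEll (f + g)) (x : K)) =
          E.orthogonalProjectionOnto (tens (finEll f) (x : K)) +
          E.orthogonalProjectionOnto (tens (finEll g) (x : K))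
        rw [← map_add]
        congr 1
        ext n
        show (f n + g n) • (x : K) = f n • (x : K) + g n • (x : K)
        rw [add_smul]
      map_smul' := fun c f => by
        ext1 x
        show E.orthogonalProjectionOnto (tens (finEll (c • f)) (x : K)) =
          c • E.orthogonalProjectionOnto (tens (finEll f) (x : K))
        rw [← map_smul]
        congr 1
        ext n
        show (c * f n) • (x : K) = c • (f n • (x : K))
        rw [mul_smul] }
  have hninj : ¬ Function.Injective Ψ := by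
    intro hinj
    have hfin : Module.Finite ℂ (ℕ →₀ ℂ) := Module.Finite.of_injective Ψ hinj
    have := Module.Finite.finite_basis (Finsupp.basisSingleOne : Module.Basis ℕ ℂ (ℕ →₀ ℂ))
    exact not_finite ℕ
  have hker : ∃ f, f ≠ 0 ∧ Ψ f = 0 := by
    by_contra hcon
    push Not at hcon
    apply hninj
    rw [injective_iff_map_eq_zero]
    intro f hf
    by_contra hne
    exact hcon f hne hf
  obtain ⟨f, hf, hΨ⟩ := hker
  have hne : ‖finEll f‖ ≠ 0 := norm_ne_zero_iff.2 (finEll_ne_zero hf)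
  refine ⟨((‖finEll f‖⁻¹ : ℝ) : ℂ) • finEll f, ?_, ?_⟩
  · rw [norm_smul, Complex.norm_real, norm_inv, norm_norm, inv_mul_cancel₀ hne]
  · intro x hx
    have h1 : E.orthogonalProjectionOnto (tens (finEll f) x) = 0 :=
      congrArg (fun g : U →ₗ[ℂ] E => g ⟨x, hx⟩) hΨ
    have h2 : tens (finEll f) x ∈ Eᗮ := Submodule.orthogonalProjectionOnto_eq_zero_iff.1 h1
    have h3 : tens (((‖finEll f‖⁻¹ : ℝ) : ℂ) • finEll f) x =
        ((‖finEll f‖⁻¹ : ℝ) : ℂ) • tens (finEll f) x := by
      ext n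
      show (((‖finEll f‖⁻¹ : ℝ) : ℂ) * finEll f n) • x = ((‖finEll f‖⁻¹ : ℝ) : ℂ) • (finEll f n • x)
      rw [mul_smul]
    rw [h3]
    exact Submodule.smul_mem _ _ h2


/-- the coordinate embedding as a linear isometry -/
noncomputable def sing (K : Type*) [NormedAddCommGroup K] [InnerProductSpace ℂ K] (k : ℕ) :
    K →L[ℂ] Ell K := lp.singleContinuousLinearMap ℂ (fun _ : ℕ => K) 2 k

theorem sing_apply (k : ℕ) (x : K) : sing K k x = lp.single 2 k x := rfl

theorem sing_self (k : ℕ) (x : K) : sing K k x k = x := by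
  rw [sing_apply, lp.single_apply_self]

theorem sing_ne {k n : ℕ} (h : n ≠ k) (x : K) : sing K k x n = 0 := by
  rw [sing_apply, lp.single_apply_ne _ _ _ h]

theorem norm_sing (k : ℕ) (x : K) : ‖sing K k x‖ = ‖x‖ := by
  rw [sing_apply, lp.norm_single (by norm_num)]

theorem inner_sing_left (k : ℕ) (x : K) (y : Ell K) : ⟪sing K k x, y⟫_ℂ = ⟪x, y k⟫_ℂ := by
  rw [sing_apply, lp.inner_single_left]

theorem diagL_sing (b : K →L[ℂ] K) (k : ℕ) (x : K) : diagL b (sing K k x) = sing K k (b x) := by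
  ext n
  rw [diagL_apply]
  by_cases h : n = k
  · subst h; rw [sing_self, sing_self]
  · rw [sing_ne h, sing_ne h, map_zero]

variable [CompleteSpace K]

/-- general position in `ℓ²(ℕ; K)` when `K` is a countable sum of finite dimensional pieces -/
theorem ell_genPos {I : Type*} [Encodable I] {U : I → Submodule ℂ K}
    (fd : ∀ i, FiniteDimensional ℂ (U i))
    (orth : OrthogonalFamily ℂ (fun i => U i) (fun i => (U i).subtypeₗᵢ))
    (total : (⨆ i, U i).topologicalClosure = ⊤) (P : Set (K →L[ℂ] K))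
    (inv : ∀ p ∈ P, ∀ i, ∀ x ∈ U i, p x ∈ U i)
    (𝒯 : Set (Ell K →L[ℂ] Ell K)) (h𝒯 : 𝒯.Finite) :
    ∃ u : Fin 3 → (Ell K →L[ℂ] Ell K), (∀ i, ∀ p ∈ P, diagL p * u i = u i * diagL p) ∧
      (∀ i, star (u i) * u i = 1) ∧
      ∀ T ∈ 𝒯, ∀ i j, i ≠ j → star (u i) * T * u j = 0 := by
  haveI := fd
  let U' : I × ℕ → Submodule ℂ (Ell K) := fun a => (U a.1).map (sing K a.2).toLinearMap
  have fd' : ∀ a, FiniteDimensional ℂ (U' a) := fun a => by
    haveI := fd a.1
    exact inferInstanceAs (FiniteDimensional ℂ ((U a.1).map (sing K a.2).toLinearMap))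
  have orth' : OrthogonalFamily ℂ (fun a => U' a) (fun a => (U' a).subtypeₗᵢ) := by
    rintro ⟨i, k⟩ ⟨i', k'⟩ hne ⟨_, x, hx, rfl⟩ ⟨_, y, hy, rfl⟩
    show ⟪sing K k x, sing K k' y⟫_ℂ = 0
    rw [inner_sing_left]
    by_cases hk : k = k'
    · subst hk
      rw [sing_self]
      have hi : i ≠ i' := by rintro rfl; exact hne rfl
      exact orth hi ⟨x, hx⟩ ⟨y, hy⟩
    · rw [sing_ne hk, inner_zero_right]
  have total' : (⨆ a, U' a).topologicalClosure = ⊤ := by
    rw [Submodule.topologicalClosure_eq_top_iff, Submodule.eq_bot_iff]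
    intro x hx
    have h1 : ∀ i k, ∀ z ∈ U i, ⟪z, x k⟫_ℂ = 0 := by
      intro i k z hz
      rw [← inner_sing_left]
      refine (Submodule.mem_orthogonal _ _).1 hx _ ?_
      exact Submodule.mem_iSup_of_mem (i, k) (Submodule.mem_map_of_mem hz)
    have h2 : (⨆ i, U i)ᗮ = ⊥ := by
      rwa [← Submodule.topologicalClosure_eq_top_iff]
    ext k
    have h3 : x k ∈ (⨆ i, U i)ᗮ := by
      rw [← Submodule.iInf_orthogonal, Submodule.mem_iInf]
      intro i
      exact (Submodule.mem_orthogonal _ _).2 (h1 i k)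
    rw [h2] at h3
    exact h3
  have inv' : ∀ p ∈ diagL '' P, ∀ a, ∀ x ∈ U' a, p x ∈ U' a := by
    rintro _ ⟨p, hp, rfl⟩ ⟨i, k⟩ _ ⟨x, hx, rfl⟩
    exact ⟨p x, inv p hp i x hx, (diagL_sing p k x).symm⟩
  have rich' : ∀ (a : I × ℕ) (E : Submodule ℂ (Ell K)), FiniteDimensional ℂ E →
      ∃ w : Ell K →L[ℂ] Ell K, (∀ p ∈ diagL '' P, p * w = w * p) ∧
        (∀ x ∈ U' a, ‖w x‖ = ‖x‖) ∧ ∀ x ∈ U' a, w x ∈ Eᗮ := by
    rintro ⟨i, k⟩ E hE
    obtain ⟨e, he, heE⟩ := exists_tens_orthogonal (U i) E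
    refine ⟨tensL K e ∘L lp.evalCLM ℂ (fun _ : ℕ => K) 2 k, ?_, ?_, ?_⟩
    · rintro _ ⟨p, hp, rfl⟩
      ext x n
      show p (e n • x k) = e n • p (x k)
      rw [map_smul]
    · rintro _ ⟨x, hx, rfl⟩
      show ‖tens e (sing K k x k)‖ = ‖sing K k x‖
      rw [sing_self, norm_tens, he, one_mul, norm_sing]
    · rintro _ ⟨x, hx, rfl⟩
      show tens e (sing K k x k) ∈ Eᗮ
      rw [sing_self]
      exact heE x hx
  obtain ⟨u, u1, u2, u3⟩ := genPos_aux fd' orth' total' (diagL '' P) inv' rich' 𝒯 h𝒯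
  exact ⟨u, fun i p hp => u1 i _ ⟨p, hp, rfl⟩, u2, u3⟩

end
end Pool.Agent.Lib.MP_3c1a79_gt
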