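import Mathlib
import Pool.Agent.Lib.MP_3c1a79_gt.Average

/-!
Decomposition of a strongly continuous unitary representation of a compact group on a separable
Hilbert space into countably many finite dimensional invariant subspaces.
-/

namespace Pool.Agent.Lib.MP_3c1a79_gt

open MeasureTheory Module
open scoped InnerProductSpace

section
variable {K : Type*} [NormedAddCommGroup K] [InnerProductSpace ℂ K]

theorem countable_of_ortho [TopologicalSpace.SeparableSpace K] {S : Set (Submodule ℂ K)}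
    (h0 : ∀ U ∈ S, U ≠ ⊥) (hp : S.Pairwise fun U V => U ⟂ V) : S.Countable := by
  classical
  have hv : ∀ U : S, ∃ v : K, v ∈ (U : Submodule ℂ K) ∧ ‖v‖ = 1 := by
    intro U
    obtain ⟨x, hx, hne⟩ := Submodule.exists_mem_ne_zero_of_ne_bot (h0 U U.2)
    have hn : ‖x‖ ≠ 0 := norm_ne_zero_iff.2 hne
    refine ⟨((‖x‖⁻¹ : ℝ) : ℂ) • x, Submodule.smul_mem _ _ hx, ?_⟩
    rw [norm_smul, Complex.norm_real, norm_inv, norm_norm, inv_mul_cancel₀ hn]
  choose v hvU hv1 using hv
  let b : Submodule ℂ K → Set K := fun U => if h : U ∈ S then Metric.ball (v ⟨U, h⟩) (1 / 2) else ∅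
  refine Set.PairwiseDisjoint.countable_of_isOpen (s := b) ?_ ?_ ?_
  · intro U hU V hV hne
    simp only [Function.onFun, b, dif_pos hU, dif_pos hV]
    rw [Set.disjoint_left]
    intro z hz1 hz2
    have hinner : ⟪v ⟨U, hU⟩, v ⟨V, hV⟩⟫_ℂ = 0 :=
      (hp hU hV hne).inner_eq (hvU ⟨U, hU⟩) (hvU ⟨V, hV⟩)
    have h1 : ‖v ⟨U, hU⟩ - v ⟨V, hV⟩‖ ^ 2 = 2 := by
      rw [@norm_sub_sq ℂ, hinner, hv1, hv1]
      norm_num
    have h2 : ‖v ⟨U, hU⟩ - v ⟨V, hV⟩‖ < 1 := by
      rw [← dist_eq_norm]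
      calc dist (v ⟨U, hU⟩) (v ⟨V, hV⟩) ≤ dist (v ⟨U, hU⟩) z + dist z (v ⟨V, hV⟩) :=
            dist_triangle _ _ _
        _ < 1 / 2 + 1 / 2 := add_lt_add (by rw [dist_comm]; exact hz1) hz2
        _ = 1 := by norm_num
    nlinarith [norm_nonneg (v ⟨U, hU⟩ - v ⟨V, hV⟩)]
  · intro U hU
    simp only [b, dif_pos hU]
    exact Metric.isOpen_ball
  · intro U hU
    simp only [b, dif_pos hU]
    exact ⟨_, Metric.mem_ball_self (by norm_num)⟩

end

section
variable {G : Type*} [Group G] [TopologicalSpace G] [IsTopologicalGroup G] [CompactSpace G]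
  [MeasurableSpace G] [BorelSpace G] {μ : Measure G} [μ.IsHaarMeasure] [IsProbabilityMeasure μ]
  {K : Type*} [NormedAddCommGroup K] [InnerProductSpace ℂ K] [CompleteSpace K]
  {π : G → K →L[ℂ] K}

include μ in
/-- every nonzero closed invariant subspace of the form `Mᗮ` contains a finite dimensional one -/
theorem exists_finite_dimensional (hc : ∀ x, Continuous fun g => π g x)
    (hi : ∀ g x y, ⟪π g x, π g y⟫_ℂ = ⟪x, y⟫_ℂ)
    (h1 : ∀ x, π 1 x = x) (hm : ∀ g h x, π (g * h) x = π g (π h x))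
    {N : Submodule ℂ K} (hN : IsClosed (N : Set K)) (hinv : ∀ g, ∀ x ∈ N, π g x ∈ N)
    (hne : N ≠ ⊥) :
    ∃ E : Submodule ℂ K, FiniteDimensional ℂ E ∧ (∀ g, ∀ x ∈ E, π g x ∈ E) ∧ E ≠ ⊥ ∧ E ≤ N := by
  obtain ⟨f, hf, hf0⟩ := Submodule.exists_mem_ne_zero_of_ne_bot hne
  set T := avg μ π f with hT
  have hTc : IsCompactOperator T := avg_compact hc f
  have hTs : T.IsSymmetric := (avg_selfAdjoint hc f).isSymmetric
  have hT0 : T ≠ 0 := avg_ne_zero hc h1 hf0
  have hex : ¬ ∀ ν, End.HasEigenvalue (T : End ℂ K) ν → ν = 0 := by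
    rw [ContinuousLinearMap.eq_zero_of_forall_hasEigenvalue_eq_zero hTc hTs]
    exact hT0
  push Not at hex
  obtain ⟨ν, hν, hν0⟩ := hex
  refine ⟨End.eigenspace (T : End ℂ K) ν,
    ContinuousLinearMap.finite_dimensional_eigenspace hTc ν hν0, ?_, ?_, ?_⟩
  · intro g x hx
    rw [End.mem_eigenspace_iff] at hx ⊢
    have hx' : T x = ν • x := hx
    show T (π g x) = ν • π g x
    rw [← map_smul, ← hx', hT]
    exact (avg_comm hc hi hm f g x).symm
  · exact hν
  · intro x hx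
    rw [End.mem_eigenspace_iff] at hx
    have hx' : T x = ν • x := hx
    have h2 : x = ν⁻¹ • T x := by rw [hx', smul_smul, inv_mul_cancel₀ hν0, one_smul]
    rw [h2]
    exact N.smul_mem _ (avg_range hc f hN (fun g => hinv g f hf) x)

include μ in
theorem exists_decomposition [TopologicalSpace.SeparableSpace K]
    (hc : ∀ x, Continuous fun g => π g x)
    (hi : ∀ g x y, ⟪π g x, π g y⟫_ℂ = ⟪x, y⟫_ℂ)
    (h1 : ∀ x, π 1 x = x) (hm : ∀ g h x, π (g * h) x = π g (π h x)) :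
    ∃ S : Set (Submodule ℂ K), S.Countable ∧ (∀ U : S, FiniteDimensional ℂ (U : Submodule ℂ K)) ∧
      (∀ g, ∀ U : S, ∀ x ∈ (U : Submodule ℂ K), π g x ∈ (U : Submodule ℂ K)) ∧
      OrthogonalFamily ℂ (fun U : S => (U : Submodule ℂ K))
        (fun U : S => (U : Submodule ℂ K).subtypeₗᵢ) ∧
      (⨆ U : S, (U : Submodule ℂ K)).topologicalClosure = ⊤ := by
  let Good : Submodule ℂ K → Prop := fun U =>
    FiniteDimensional ℂ U ∧ (∀ g, ∀ x ∈ U, π g x ∈ U) ∧ U ≠ ⊥
  let 𝒮 : Set (Set (Submodule ℂ K)) := {S | (∀ U ∈ S, Good U) ∧ S.Pairwise fun U V => U ⟂ V}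
  obtain ⟨S, hS⟩ := zorn_subset 𝒮 (by
    intro c hc' hchain
    refine ⟨⋃₀ c, ⟨?_, ?_⟩, fun s hs => Set.subset_sUnion_of_mem hs⟩
    · rintro U ⟨s, hs, hU⟩
      exact (hc' hs).1 U hU
    · rw [Set.pairwise_sUnion hchain.directedOn]
      intro s hs
      exact (hc' hs).2)
  have hSmem : S ∈ 𝒮 := hS.prop
  refine ⟨S, countable_of_ortho (fun U hU => (hSmem.1 U hU).2.2) hSmem.2,
    fun U => (hSmem.1 U U.2).1, fun g U => (hSmem.1 U U.2).2.1 g, ?_, ?_⟩
  · intro U V hne x y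
    have hne' : (U : Submodule ℂ K) ≠ V := fun h => hne (Subtype.ext h)
    exact (hSmem.2 U.2 V.2 hne').inner_eq x.2 y.2
  · rw [Submodule.topologicalClosure_eq_top_iff]
    by_contra hne
    set N : Submodule ℂ K := (⨆ U : S, (U : Submodule ℂ K))ᗮ with hN
    have hNU : ∀ U : S, ∀ x ∈ (U : Submodule ℂ K), ∀ y ∈ N, ⟪x, y⟫_ℂ = 0 := by
      intro U x hx y hy
      exact (Submodule.mem_orthogonal _ _).1 hy x (Submodule.mem_iSup_of_mem U hx)
    have hinv : ∀ g, ∀ x ∈ N, π g x ∈ N := by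
      intro g x hx
      rw [hN, ← Submodule.iInf_orthogonal, Submodule.mem_iInf]
      intro U
      rw [Submodule.mem_orthogonal]
      intro u hu
      have e1 : u = π g (π g⁻¹ u) := by rw [← hm, mul_inv_cancel, h1]
      rw [e1, hi]
      exact hNU U _ ((hSmem.1 U U.2).2.1 g⁻¹ u hu) x hx
    obtain ⟨E, hE1, hE2, hE3, hE4⟩ := exists_finite_dimensional (μ := μ) hc hi h1 hm
      (Submodule.isClosed_orthogonal _) hinv hne
    have hEU : ∀ U ∈ S, E ⟂ U := by
      intro U hU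
      rw [Submodule.isOrtho_iff_inner_eq]
      intro x hx y hy
      rw [← inner_conj_symm, hNU ⟨U, hU⟩ y hy x (hE4 hx), map_zero]
    have hins : insert E S ∈ 𝒮 := by
      refine ⟨?_, ?_⟩
      · rintro U (rfl | hU)
        · exact ⟨hE1, hE2, hE3⟩
        · exact hSmem.1 U hU
      · intro U hU V hV hUV
        rcases hU with rfl | hU
        · rcases hV with rfl | hV
          · exact absurd rfl hUV
          · exact hEU V hV
        · rcases hV with rfl | hV
          · exact (hEU U hU).symm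
          · exact hSmem.2 hU hV hUV
    have hEmem : E ∈ S := hS.le_of_ge hins (Set.subset_insert _ _) (Set.mem_insert _ _)
    have := hEU E hEmem
    rw [Submodule.isOrtho_self] at this
    exact hE3 this

end
end Pool.Agent.Lib.MP_3c1a79_gt
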