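import Mathlib
import Pool.Agent.Lib.MP_3c1a79_gt.Ampl

/-!
The isomorphism `ℓ²(ℕ;K) ≅ ℓ²(ℕ;ℓ²(ℕ;K))` and the infinite repeat homomorphism.
-/

namespace Pool.Agent.Lib.MP_3c1a79_gt

open scoped ENNReal InnerProductSpace

section
variable {K : Type*} [NormedAddCommGroup K]

theorem summable_pair (x : Ell K) : Summable fun q : ℕ × ℕ => ‖x (Nat.pair q.1 q.2)‖ ^ 2 :=
  (Nat.pairEquiv.summable_iff (f := fun n => ‖x n‖ ^ 2)).2 (Ell.summable x)

theorem summable_row (x : Ell K) (n : ℕ) : Summable fun m => ‖x (Nat.pair n m)‖ ^ 2 :=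
  (summable_pair x).prod_factor n

theorem norm_row (x : Ell K) (n : ℕ) :
    ‖(⟨fun m => x (Nat.pair n m), memEll (summable_row x n)⟩ : Ell K)‖ ^ 2 =
      ∑' m, ‖x (Nat.pair n m)‖ ^ 2 := Ell.norm_sq _

theorem summable_rows (x : Ell K) : Summable fun n =>
    ‖(⟨fun m => x (Nat.pair n m), memEll (summable_row x n)⟩ : Ell K)‖ ^ 2 := by
  simp_rw [norm_row]
  exact (summable_pair x).prod

variable [InnerProductSpace ℂ K]

/-- rearrangement as a sequence of sequences -/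
def thetaₗ (K : Type*) [NormedAddCommGroup K] [InnerProductSpace ℂ K] :
    Ell K →ₗ[ℂ] Ell (Ell K) where
  toFun x := ⟨fun n => ⟨fun m => x (Nat.pair n m), memEll (summable_row x n)⟩,
    memEll (summable_rows x)⟩
  map_add' x y := rfl
  map_smul' c x := rfl

theorem thetaₗ_norm (x : Ell K) : ‖thetaₗ K x‖ = ‖x‖ := by
  have h : ‖thetaₗ K x‖ ^ 2 = ‖x‖ ^ 2 := by
    rw [Ell.norm_sq, Ell.norm_sq x]
    have h1 : ∀ n, ‖thetaₗ K x n‖ ^ 2 = ∑' m, ‖x (Nat.pair n m)‖ ^ 2 := fun n => norm_row x n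
    simp_rw [h1]
    rw [← (summable_pair x).tsum_prod]
    exact Nat.pairEquiv.tsum_eq (fun n => ‖x n‖ ^ 2)
  exact (pow_left_inj₀ (norm_nonneg _) (norm_nonneg _) two_ne_zero).1 h

theorem summable_unpair (y : Ell (Ell K)) :
    Summable fun k : ℕ => ‖(y (Nat.unpair k).1 : Ell K) (Nat.unpair k).2‖ ^ 2 := by
  rw [← Nat.pairEquiv.summable_iff]
  have : (fun k : ℕ => ‖(y (Nat.unpair k).1 : Ell K) (Nat.unpair k).2‖ ^ 2) ∘ Nat.pairEquiv =
      fun q : ℕ × ℕ => ‖(y q.1 : Ell K) q.2‖ ^ 2 := by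
    ext q
    show ‖(y (Nat.unpair (Nat.pair q.1 q.2)).1 : Ell K) (Nat.unpair (Nat.pair q.1 q.2)).2‖ ^ 2 = _
    rw [Nat.unpair_pair]
  rw [this, summable_prod_of_nonneg (fun q => by positivity)]
  refine ⟨fun n => Ell.summable (y n), ?_⟩
  have h : (fun n => ∑' m, ‖(y n : Ell K) m‖ ^ 2) = fun n => ‖y n‖ ^ 2 := by
    ext n; exact (Ell.norm_sq (y n)).symm
  exact h ▸ Ell.summable y

theorem thetaₗ_surj : Function.Surjective (thetaₗ K) := by
  intro y
  refine ⟨⟨fun k => (y (Nat.unpair k).1 : Ell K) (Nat.unpair k).2, memEll (summable_unpair y)⟩, ?_⟩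
  ext n m
  show (y (Nat.unpair (Nat.pair n m)).1 : Ell K) (Nat.unpair (Nat.pair n m)).2 = y n m
  rw [Nat.unpair_pair]

/-- `ℓ²(ℕ;K) ≅ ℓ²(ℕ;ℓ²(ℕ;K))` -/
noncomputable def theta (K : Type*) [NormedAddCommGroup K] [InnerProductSpace ℂ K] :
    Ell K ≃ₗᵢ[ℂ] Ell (Ell K) :=
  LinearIsometryEquiv.ofSurjective ⟨thetaₗ K, thetaₗ_norm⟩ thetaₗ_surj

theorem theta_apply (x : Ell K) (n m : ℕ) : theta K x n m = x (Nat.pair n m) := rfl

theorem theta_diag (b : K →L[ℂ] K) (x : Ell K) :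
    theta K (diagL b x) = diagL (diagL b) (theta K x) := by
  ext n m
  rfl

end

section
variable {H : Type*} [NormedAddCommGroup H] [InnerProductSpace ℂ H] [CompleteSpace H]

theorem incl0_zero (y : H) : incl0 H y 0 = y := by
  rw [incl0_apply, lp.single_apply_self]

theorem incl0_succ (y : H) (n : ℕ) : incl0 H y (n + 1) = 0 := by
  rw [incl0_apply, lp.single_apply_ne _ _ _ (by omega)]

/-- conjugation by `Θ` -/
noncomputable def cj (Θ : H ≃ₗᵢ[ℂ] Ell H) (b : Ell H →L[ℂ] Ell H) : H →L[ℂ] H :=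
  (Θ.symm.toContinuousLinearEquiv : Ell H →L[ℂ] H) ∘L b ∘L
    (Θ.toContinuousLinearEquiv : H →L[ℂ] Ell H)

omit [CompleteSpace H] in
theorem cj_apply (Θ : H ≃ₗᵢ[ℂ] Ell H) (b : Ell H →L[ℂ] Ell H) (x : H) :
    cj Θ b x = Θ.symm (b (Θ x)) := rfl

theorem cj_star (Θ : H ≃ₗᵢ[ℂ] Ell H) (b : Ell H →L[ℂ] Ell H) :
    cj Θ (ContinuousLinearMap.adjoint b) = ContinuousLinearMap.adjoint (cj Θ b) := by
  rw [ContinuousLinearMap.eq_adjoint_iff]
  intro x y
  rw [cj_apply, cj_apply]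
  calc ⟪Θ.symm ((ContinuousLinearMap.adjoint b) (Θ x)), y⟫_ℂ
      = ⟪Θ (Θ.symm ((ContinuousLinearMap.adjoint b) (Θ x))), Θ y⟫_ℂ := (Θ.inner_map_map _ _).symm
    _ = ⟪(ContinuousLinearMap.adjoint b) (Θ x), Θ y⟫_ℂ := by rw [Θ.apply_symm_apply]
    _ = ⟪Θ x, b (Θ y)⟫_ℂ := ContinuousLinearMap.adjoint_inner_left _ _ _
    _ = ⟪Θ x, Θ (Θ.symm (b (Θ y)))⟫_ℂ := by rw [Θ.apply_symm_apply]
    _ = ⟪x, Θ.symm (b (Θ y))⟫_ℂ := Θ.inner_map_map _ _

/-- the infinite repeat homomorphism -/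
noncomputable def repHom (Θ : H ≃ₗᵢ[ℂ] Ell H) : (H →L[ℂ] H) →⋆ₐ[ℂ] (H →L[ℂ] H) where
  toFun a := cj Θ (diagL a)
  map_one' := by
    ext x
    rw [cj_apply]
    exact Θ.symm_apply_apply x
  map_mul' a b := by
    ext x
    show cj Θ (diagL (a * b)) x = cj Θ (diagL a) (cj Θ (diagL b) x)
    rw [cj_apply, cj_apply, cj_apply, Θ.apply_symm_apply]
    rfl
  map_zero' := by
    ext x
    rw [cj_apply]
    exact Θ.symm.map_zero
  map_add' a b := by
    ext x
    show cj Θ (diagL (a + b)) x = cj Θ (diagL a) x + cj Θ (diagL b) x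
    rw [cj_apply, cj_apply, cj_apply, ← map_add]
    rfl
  commutes' r := by
    ext x
    rw [cj_apply]
    have : (diagL ((algebraMap ℂ (H →L[ℂ] H)) r)) (Θ x) = r • Θ x := by
      ext n; rfl
    rw [this, map_smul, Θ.symm_apply_apply]
    rfl
  map_star' a := by
    show cj Θ (diagL (star a)) = star (cj Θ (diagL a))
    rw [diagL_adjoint]
    exact cj_star Θ (diagL a)

theorem repHom_apply (Θ : H ≃ₗᵢ[ℂ] Ell H) (a : H →L[ℂ] H) (x : H) :
    repHom Θ a x = Θ.symm (diagL a (Θ x)) := rfl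

/-- the first isometry -/
noncomputable def sIso (Θ : H ≃ₗᵢ[ℂ] Ell H) : H →L[ℂ] H :=
  (Θ.symm.toContinuousLinearEquiv : Ell H →L[ℂ] H) ∘L incl0 H

omit [CompleteSpace H] in
theorem sIso_apply (Θ : H ≃ₗᵢ[ℂ] Ell H) (x : H) : sIso Θ x = Θ.symm (incl0 H x) := rfl

theorem sIso_star (Θ : H ≃ₗᵢ[ℂ] Ell H) (x : H) : (star (sIso Θ)) x = (Θ x) 0 := by
  refine ext_inner_left ℂ fun y => ?_
  rw [ContinuousLinearMap.star_eq_adjoint, ContinuousLinearMap.adjoint_inner_right, sIso_apply,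
    ← Θ.inner_map_map, Θ.apply_symm_apply, incl0_apply, lp.inner_single_left]

/-- the second isometry -/
noncomputable def SIso (Θ : H ≃ₗᵢ[ℂ] Ell H) : H →L[ℂ] H :=
  cj Θ (shiftI H).toContinuousLinearMap

omit [CompleteSpace H] in
theorem SIso_apply (Θ : H ≃ₗᵢ[ℂ] Ell H) (x : H) : SIso Θ x = Θ.symm (shiftI H (Θ x)) := rfl

theorem SIso_star (Θ : H ≃ₗᵢ[ℂ] Ell H) (x : H) : (star (SIso Θ)) x =
    Θ.symm ((ContinuousLinearMap.adjoint (shiftI H).toContinuousLinearMap) (Θ x)) := by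
  rw [ContinuousLinearMap.star_eq_adjoint, SIso, ← cj_star]
  rfl

/-- Existence of the swindle data on a Hilbert space isomorphic to its own infinite multiple. -/
theorem exists_swindle (Θ : H ≃ₗᵢ[ℂ] Ell H) :
    ∃ (s S : H →L[ℂ] H) (φ : (H →L[ℂ] H) →⋆ₐ[ℂ] (H →L[ℂ] H)),
      star s * s = 1 ∧ star S * S = 1 ∧ s * star s + S * star S = 1 ∧
      (∀ a, φ a = s * a * star s + S * φ a * star S) ∧
      ∀ b : H →L[ℂ] H, (∀ x, Θ (b x) = diagL b (Θ x)) → b * s = s * b ∧ b * S = S * b ∧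
        φ b = b := by
  refine ⟨sIso Θ, SIso Θ, repHom Θ, ?_, ?_, ?_, ?_, ?_⟩
  · ext x
    show (star (sIso Θ)) (sIso Θ x) = x
    rw [sIso_star, sIso_apply, Θ.apply_symm_apply, incl0_zero]
  · ext x
    show (star (SIso Θ)) (SIso Θ x) = x
    rw [SIso_star, SIso_apply, Θ.apply_symm_apply]
    apply Θ.injective
    rw [Θ.apply_symm_apply]
    ext n
    rw [shift_adj]; rfl
  · ext x
    show sIso Θ ((star (sIso Θ)) x) + SIso Θ ((star (SIso Θ)) x) = x
    apply Θ.injective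
    rw [map_add, sIso_apply, SIso_apply, sIso_star, SIso_star, Θ.apply_symm_apply,
      Θ.apply_symm_apply, Θ.apply_symm_apply]
    ext n
    rw [lp.coeFn_add, Pi.add_apply]
    rcases n with _ | n
    · rw [incl0_zero, shiftI_zero, add_zero]
    · rw [incl0_succ, zero_add, shiftI_succ, shift_adj]
  · intro a
    ext x
    show repHom Θ a x = sIso Θ (a ((star (sIso Θ)) x)) + SIso Θ (repHom Θ a ((star (SIso Θ)) x))
    apply Θ.injective
    rw [map_add, sIso_apply, SIso_apply, sIso_star, SIso_star, repHom_apply, repHom_apply,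
      Θ.apply_symm_apply, Θ.apply_symm_apply,
      Θ.apply_symm_apply, Θ.apply_symm_apply, Θ.apply_symm_apply]
    ext n
    rw [lp.coeFn_add, Pi.add_apply]
    rcases n with _ | n
    · rw [incl0_zero, diagL_apply, shiftI_zero, add_zero]
    · rw [incl0_succ, zero_add, diagL_apply, shiftI_succ, diagL_apply, shift_adj]
  · intro b hb
    have hb' : ∀ y, b (Θ.symm y) = Θ.symm (diagL b y) := by
      intro y
      apply Θ.injective
      rw [hb, Θ.apply_symm_apply, Θ.apply_symm_apply]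
    refine ⟨?_, ?_, ?_⟩
    · ext x
      show b (sIso Θ x) = sIso Θ (b x)
      rw [sIso_apply, sIso_apply, hb']
      congr 1
      ext n
      rw [diagL_apply]
      rcases n with _ | n
      · rw [incl0_zero, incl0_zero]
      · rw [incl0_succ, incl0_succ, map_zero]
    · ext x
      show b (SIso Θ x) = SIso Θ (b x)
      rw [SIso_apply, SIso_apply, hb', hb]
      congr 1
      ext n
      rw [diagL_apply]
      rcases n with _ | n
      · rw [shiftI_zero, shiftI_zero, map_zero]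
      · rw [shiftI_succ, shiftI_succ, diagL_apply]
    · ext x
      rw [repHom_apply, ← hb, Θ.symm_apply_apply]

end
end Pool.Agent.Lib.MP_3c1a79_gt
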