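import Mathlib
import Pool.Agent.Lib.MP_3c1a79_gt.AbstractMain
import Pool.Agent.Lib.MP_3c1a79_gt.Theta
import Pool.Agent.Lib.MP_3c1a79_gt.EllGP
import Pool.Agent.Lib.MP_3c1a79_gt.PeterWeyl

/-!
The hypotheses of the abstract theorem for `K ⊗ ℓ²`, `K` a separable unitary representation of a
compact group.
-/

namespace Pool.Agent.Lib.MP_3c1a79_gt

open MeasureTheory
open scoped InnerProductSpace

section
variable {H : Type*} [NormedAddCommGroup H] [InnerProductSpace ℂ H] [CompleteSpace H]

/-- conjugation by an operator, a star homomorphism when the operator is unitary -/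
noncomputable def conjBy (p : H →L[ℂ] H) (hp : p ∈ unitary (H →L[ℂ] H)) :
    (H →L[ℂ] H) →⋆ₐ[ℂ] (H →L[ℂ] H) where
  toFun T := p * T * star p
  map_one' := by rw [mul_one]; exact (Unitary.mem_iff.1 hp).2
  map_mul' S T := by
    have h := (Unitary.mem_iff.1 hp).1
    calc p * (S * T) * star p = p * S * 1 * T * star p := by simp only [mul_assoc, one_mul, mul_one]
      _ = (p * S * star p) * (p * T * star p) := by rw [← h]; simp only [mul_assoc]
  map_zero' := by simp
  map_add' S T := by rw [mul_add, add_mul]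
  commutes' r := by
    have h := (Unitary.mem_iff.1 hp).2
    rw [Algebra.algebraMap_eq_smul_one, mul_smul_comm, mul_one, smul_mul_assoc, h]
  map_star' T := by rw [star_mul, star_mul, star_star, mul_assoc]

theorem conjBy_apply (p : H →L[ℂ] H) (hp : p ∈ unitary (H →L[ℂ] H)) (T : H →L[ℂ] H) :
    conjBy p hp T = p * T * star p := rfl

theorem conjBy_eq_iff (p : H →L[ℂ] H) (hp : p ∈ unitary (H →L[ℂ] H)) {T : H →L[ℂ] H} :
    conjBy p hp T = T ↔ p * T = T * p := by
  have h1 := (Unitary.mem_iff.1 hp).1
  have h2 := (Unitary.mem_iff.1 hp).2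
  rw [conjBy_apply]
  constructor
  · intro h
    calc p * T = p * T * (star p * p) := by rw [h1, mul_one]
      _ = (p * T * star p) * p := by simp only [mul_assoc]
      _ = T * p := by rw [h]
  · intro h
    rw [h, mul_assoc, h2, mul_one]

end

section
variable {G : Type*} [Group G] {K : Type*} [NormedAddCommGroup K] [InnerProductSpace ℂ K]
  [CompleteSpace K] {π : G → K →L[ℂ] K}

variable [TopologicalSpace G] [IsTopologicalGroup G] [CompactSpace G]
  [MeasurableSpace G] [BorelSpace G] (μ : Measure G) [μ.IsHaarMeasure] [IsProbabilityMeasure μ]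

include μ in
theorem hyp_rep [TopologicalSpace.SeparableSpace K]
    (hc : ∀ x, Continuous fun g => π g x)
    (hi : ∀ g x y, ⟪π g x, π g y⟫_ℂ = ⟪x, y⟫_ℂ)
    (h1 : ∀ x, π 1 x = x) (hm : ∀ g h x, π (g * h) x = π g (π h x)) :
    Hyp (fun g : G => conjBy (diagL (π g)) (diagL_unitary (pi_unitary hi h1 hm g))) where
  one a := by
    have e : diagL (π 1) = 1 := by
      ext x n; exact h1 (x n)
    show diagL (π 1) * a * star (diagL (π 1)) = a
    rw [e, star_one, one_mul, mul_one]
  mul g h a := by
    have e : diagL (π (g * h)) = diagL (π g) * diagL (π h) := by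
      ext x n; exact hm g h (x n)
    show diagL (π (g * h)) * a * star (diagL (π (g * h))) =
      diagL (π g) * (diagL (π h) * a * star (diagL (π h))) * star (diagL (π g))
    rw [e, star_mul]
    simp only [mul_assoc]
  gp := by
    intro 𝒯 h𝒯
    obtain ⟨S, hSc, hfd, hinv, horth, htot⟩ := exists_decomposition (μ := μ) hc hi h1 hm
    haveI : Countable S := hSc.to_subtype
    haveI : Encodable S := Encodable.ofCountable S
    obtain ⟨u, u1, u2, u3⟩ := ell_genPos (U := fun U : S => (U : Submodule ℂ K)) hfd horth htot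
      (Set.range π) (by rintro _ ⟨g, rfl⟩ U x hx; exact hinv g U x hx) 𝒯 h𝒯
    refine ⟨u, ?_, u2, u3⟩
    intro i g
    exact (conjBy_eq_iff _ _).2 (u1 i (π g) ⟨g, rfl⟩)
  ex := by
    obtain ⟨s, S, φ, ss, SS, hsum, hφ, hcomm⟩ := exists_swindle (theta K)
    have hb := fun g => hcomm (diagL (π g)) (fun x => theta_diag (π g) x)
    refine ⟨s, S, φ, ?_, ?_, ss, SS, hsum, hφ, ?_⟩
    · intro g
      exact (conjBy_eq_iff _ _).2 (hb g).1
    · intro g
      exact (conjBy_eq_iff _ _).2 (hb g).2.1
    · intro g a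
      rw [conjBy_apply, conjBy_apply, map_mul, map_mul, map_star, (hb g).2.2]

end
end Pool.Agent.Lib.MP_3c1a79_gt
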