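import Mathlib
import Pool.Agent.Lib.MP_3c1a79_gt.Concrete

/-!
Equivariant contractibility of `U(H)` and `GL(H)`, `H = L²(G) ⊗ ℓ²`, for every second countable
compact group.
-/

namespace Pool.Agent.Lib.MP_3c1a79_gt

open MeasureTheory
open scoped ENNReal InnerProductSpace

section
variable {G : Type*} [Group G] [TopologicalSpace G] [IsTopologicalGroup G] [CompactSpace G]
  [T2Space G] [SecondCountableTopology G] [MeasurableSpace G] [BorelSpace G]
  (μ : Measure G) [μ.IsHaarMeasure] [IsProbabilityMeasure μ]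

/-- the regular representation is strongly continuous -/
theorem lam_continuous (f : Lp ℂ 2 μ) : Continuous fun g => lam μ g f := by
  have := TopologicalSpace.metrizableSpace_of_t3_secondCountable G
  have : Fact ((2 : ℝ≥0∞) ≠ ⊤) := ⟨by norm_num⟩
  have h1 : Continuous fun g : G => (DomMulAct.mk g⁻¹ : Gᵈᵐᵃ) • f :=
    (DomMulAct.continuous_mk.comp continuous_inv).smul continuous_const
  exact h1

theorem separable_L2 : TopologicalSpace.SeparableSpace (Lp ℂ 2 μ) := by
  have : Fact ((2 : ℝ≥0∞) ≠ ⊤) := ⟨by norm_num⟩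
  infer_instance

theorem hyp_G : Hyp (fun g : G => conjBy (piG μ g) (piG_mem μ g)) := by
  have := separable_L2 μ
  exact hyp_rep μ (lam_continuous μ) (lam_inner μ) (lam_one μ) (lam_mul μ)

theorem main_U : EquivariantlyContractible (actU μ) := by
  obtain ⟨h, h0, h1, h2⟩ := unitary_contractible (hyp_G μ)
  refine ⟨1, ?_, fun p => h p, h.continuous, h0, h1, ?_⟩
  · intro g
    apply Subtype.ext
    show piG μ g * 1 * star (piG μ g) = 1
    rw [mul_one]
    exact (Unitary.mem_iff.1 (piG_mem μ g)).2
  · intro t g y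
    apply Subtype.ext
    exact h2 g t y (actU μ g y) rfl

theorem main_GL : EquivariantlyContractible (actGL μ) := by
  obtain ⟨h, h0, h1, h2⟩ := units_contractible (hyp_G μ)
  refine ⟨⟨1, isUnit_one⟩, ?_, fun p => h p, h.continuous, h0, ?_, ?_⟩
  · intro g
    apply Subtype.ext
    show piG μ g * 1 * star (piG μ g) = 1
    rw [mul_one]
    exact (Unitary.mem_iff.1 (piG_mem μ g)).2
  · intro y
    apply Subtype.ext
    exact h1 y
  · intro t g y
    apply Subtype.ext
    exact h2 g t y (actGL μ g y) rfl

end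
end Pool.Agent.Lib.MP_3c1a79_gt
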