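import Mathlib
import Pool.Agent.Lib.MP_3c1a79_gt.Main

/-!
Transport of the hypotheses along a star algebra isomorphism, and the final theorem for every
model `H` of `L²(G) ⊗ ℓ²`.
-/

namespace Pool.Agent.Lib.MP_3c1a79_gt

open MeasureTheory
open scoped ENNReal InnerProductSpace

section
variable {A B : Type*} [CStarAlgebra A] [CStarAlgebra B] {G : Type*} [Group G]

theorem Hyp.transport {σ : G → A →⋆ₐ[ℂ] A} {σ' : G → B →⋆ₐ[ℂ] B} (Ψ : A ≃⋆ₐ[ℂ] B)
    (hΨ : ∀ g a, Ψ (σ g a) = σ' g (Ψ a)) (hyp : Hyp σ') : Hyp σ := by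
  have inj : ∀ a b : A, Ψ a = Ψ b → a = b := fun a b h => EquivLike.injective Ψ h
  refine ⟨fun a => inj _ _ (by rw [hΨ, hyp.one]), fun g h a => inj _ _ (by rw [hΨ, hyp.mul, hΨ, hΨ]),
    ?_, ?_⟩
  · intro 𝒯 h𝒯
    obtain ⟨u, u1, u2, u3⟩ := hyp.gp (Ψ '' 𝒯) (h𝒯.image _)
    refine ⟨fun i => Ψ.symm (u i), ?_, ?_, ?_⟩
    · intro i g
      apply inj
      rw [hΨ, Ψ.apply_symm_apply]
      exact u1 i g
    · intro i
      apply inj
      rw [map_mul, map_star, Ψ.apply_symm_apply, u2, map_one]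
    · intro T hT i j hij
      apply inj
      rw [map_mul, map_mul, map_star, Ψ.apply_symm_apply, Ψ.apply_symm_apply,
        u3 (Ψ T) ⟨T, hT, rfl⟩ i j hij, map_zero]
  · obtain ⟨s, S, φ, hs, hS, ss, SS, hsum, hφ, hσφ⟩ := hyp.ex
    refine ⟨Ψ.symm s, Ψ.symm S,
      (Ψ.symm : B →⋆ₐ[ℂ] A).comp (φ.comp (Ψ : A →⋆ₐ[ℂ] B)), ?_, ?_, ?_, ?_, ?_, ?_, ?_⟩
    · intro g; apply inj; rw [hΨ, Ψ.apply_symm_apply, hs]
    · intro g; apply inj; rw [hΨ, Ψ.apply_symm_apply, hS]
    · apply inj; rw [map_mul, map_star, Ψ.apply_symm_apply, ss, map_one]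
    · apply inj; rw [map_mul, map_star, Ψ.apply_symm_apply, SS, map_one]
    · apply inj
      rw [map_add, map_mul, map_mul, map_star, map_star, Ψ.apply_symm_apply, Ψ.apply_symm_apply,
        hsum, map_one]
    · intro a
      apply inj
      show Ψ (Ψ.symm (φ (Ψ a))) = Ψ (Ψ.symm s * a * star (Ψ.symm s) +
        Ψ.symm S * Ψ.symm (φ (Ψ a)) * star (Ψ.symm S))
      rw [map_add, map_mul, map_mul, map_mul, map_mul, map_star, map_star]
      simp only [Ψ.apply_symm_apply]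
      exact hφ (Ψ a)
    · intro g a
      apply inj
      show Ψ (σ g (Ψ.symm (φ (Ψ a)))) = Ψ (Ψ.symm (φ (Ψ (σ g a))))
      rw [hΨ, Ψ.apply_symm_apply, Ψ.apply_symm_apply, hΨ, hσφ]

end

section
variable {A : Type*} [CStarAlgebra A] [PartialOrder A] [StarOrderedRing A]
  {G : Type*} [Group G]

/-- equivariant contractibility of the unitary group, for conjugation by unitary elements -/
theorem contract_unitary (p : G → unitary A) (σ : G → A →⋆ₐ[ℂ] A)
    (hσ : ∀ g a, σ g a = (p g : A) * a * star (p g : A)) (hyp : Hyp σ) :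
    EquivariantlyContractible (fun g (y : unitary A) => p g * y * star (p g)) := by
  obtain ⟨h, h0, h1, h2⟩ := unitary_contractible hyp
  refine ⟨1, ?_, fun q => h q, h.continuous, h0, h1, ?_⟩
  · intro g
    apply Subtype.ext
    show (p g : A) * 1 * star (p g : A) = 1
    rw [mul_one]
    exact (Unitary.mem_iff.1 (p g).2).2
  · intro t g y
    apply Subtype.ext
    show ((h (t, p g * y * star (p g)) : unitary A) : A) = (p g : A) * (h (t, y) : A) *
      star (p g : A)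
    rw [← hσ]
    exact h2 g t y _ (by rw [hσ]; rfl)

/-- equivariant contractibility of the group of units, for conjugation by unitary elements -/
theorem contract_units (p : G → unitary A) (σ : G → A →⋆ₐ[ℂ] A)
    (hσ : ∀ g a, σ g a = (p g : A) * a * star (p g : A)) (hyp : Hyp σ) :
    EquivariantlyContractible (fun g (y : Aˣ) =>
      Unitary.toUnits (p g) * y * (Unitary.toUnits (p g))⁻¹) := by
  obtain ⟨h, h0, h1, h2⟩ := units_contractible hyp
  let inc : Aˣ → {T : A // IsUnit T} := fun u => ⟨u, u.isUnit⟩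
  have hinc : Continuous inc := Continuous.subtype_mk Units.continuous_val _
  let out : {T : A // IsUnit T} → Aˣ := fun T => T.2.unit
  have hout : Continuous out := by
    rw [Units.isOpenEmbedding_val.isInducing.continuous_iff]
    exact continuous_subtype_val
  have hconj : ∀ g (y : Aˣ), ((Unitary.toUnits (p g) * y * (Unitary.toUnits (p g))⁻¹ : Aˣ) : A) =
      σ g (y : A) := by
    intro g y
    rw [hσ]
    rfl
  refine ⟨1, ?_, fun q => out (h (q.1, inc q.2)), ?_, ?_, ?_, ?_⟩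
  · intro g
    show Unitary.toUnits (p g) * 1 * (Unitary.toUnits (p g))⁻¹ = 1
    rw [mul_one, mul_inv_cancel]
  · exact hout.comp (h.continuous.comp (continuous_fst.prodMk (hinc.comp continuous_snd)))
  · intro y
    apply Units.ext
    show (h (0, inc y) : A) = y
    rw [h0]
  · intro y
    apply Units.ext
    exact h1 (inc y)
  · intro t g y
    apply Units.ext
    rw [hconj]
    exact h2 g t (inc y) _ (hconj g y)

end

section
variable {G : Type*} [Group G] [TopologicalSpace G] [IsTopologicalGroup G] [CompactSpace G]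
  [T2Space G] [SecondCountableTopology G] [MeasurableSpace G] [BorelSpace G]
  {μ : Measure G} [μ.IsHaarMeasure] [IsProbabilityMeasure μ]
  {H : Type*} [NormedAddCommGroup H] [InnerProductSpace ℂ H] [CompleteSpace H]

omit [CompactSpace G] [T2Space G] [SecondCountableTopology G] [IsProbabilityMeasure μ] in
/-- the model isomorphism intertwines the representations -/
theorem intertwine (J : ℕ → Lp ℂ 2 μ →ₗᵢ[ℂ] H) (hJ : IsHilbertSum ℂ (fun _ : ℕ => Lp ℂ 2 μ) J)
    (π : G → unitary (H →L[ℂ] H))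
    (hπ : ∀ g n (f f' : Lp ℂ 2 μ), (∀ᵐ x ∂μ, f' x = f (g⁻¹ * x)) →
      (π g : H →L[ℂ] H) (J n f) = J n f') (g : G) (y : Ell (Lp ℂ 2 μ)) :
    (π g : H →L[ℂ] H) (hJ.linearIsometryEquiv.symm y) =
      hJ.linearIsometryEquiv.symm (piG μ g y) := by
  let e := hJ.linearIsometryEquiv
  let L : Ell (Lp ℂ 2 μ) →L[ℂ] H := (π g : H →L[ℂ] H) ∘L
    (e.symm.toContinuousLinearEquiv : Ell (Lp ℂ 2 μ) →L[ℂ] H)
  let R : Ell (Lp ℂ 2 μ) →L[ℂ] H := (e.symm.toContinuousLinearEquiv : Ell (Lp ℂ 2 μ) →L[ℂ] H) ∘L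
    piG μ g
  have hLR : L = R := by
    refine lp.ext_continuousLinearMap (by norm_num) fun n => ?_
    ext f
    show (π g : H →L[ℂ] H) (e.symm (lp.single 2 n f)) = e.symm (piG μ g (lp.single 2 n f))
    have h1 : e.symm (lp.single 2 n f) = J n f := hJ.linearIsometryEquiv_symm_apply_single f
    have h2 : piG μ g (lp.single 2 n f) = lp.single 2 n (lam μ g f) := diagL_sing (lam μ g) n f
    have h3 : e.symm (lp.single 2 n (lam μ g f)) = J n (lam μ g f) :=
      hJ.linearIsometryEquiv_symm_apply_single (lam μ g f)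
    rw [h1, h2, h3]
    exact hπ g n f (lam μ g f) (lam_ae μ g f)
  exact congrArg (fun T : Ell (Lp ℂ 2 μ) →L[ℂ] H => T y) hLR

theorem model_hyp (J : ℕ → Lp ℂ 2 μ →ₗᵢ[ℂ] H) (hJ : IsHilbertSum ℂ (fun _ : ℕ => Lp ℂ 2 μ) J)
    (π : G → unitary (H →L[ℂ] H))
    (hπ : ∀ g n (f f' : Lp ℂ 2 μ), (∀ᵐ x ∂μ, f' x = f (g⁻¹ * x)) →
      (π g : H →L[ℂ] H) (J n f) = J n f') :
    Hyp (fun g : G => conjBy (π g : H →L[ℂ] H) (π g).2) := by
  have hit := intertwine J hJ π hπ
  refine Hyp.transport (σ' := fun g : G => conjBy (piG μ g) (piG_mem μ g))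
    hJ.linearIsometryEquiv.conjStarAlgEquiv ?_ (hyp_G μ)
  intro g a
  -- inverse intertwining
  have hit' : ∀ g (x : H), hJ.linearIsometryEquiv ((π g : H →L[ℂ] H) x) =
      piG μ g (hJ.linearIsometryEquiv x) := by
    intro g x
    have := hit g (hJ.linearIsometryEquiv x)
    rw [LinearIsometryEquiv.symm_apply_apply] at this
    rw [this, LinearIsometryEquiv.apply_symm_apply]
  have hstar : ∀ y : Ell (Lp ℂ 2 μ), (star (π g : H →L[ℂ] H)) (hJ.linearIsometryEquiv.symm y) =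
      hJ.linearIsometryEquiv.symm ((star (piG μ g)) y) := by
    intro y
    have e1 : y = piG μ g ((star (piG μ g)) y) := by
      have := (Unitary.mem_iff.1 (piG_mem μ g)).2
      exact (congrArg (fun T : Ell (Lp ℂ 2 μ) →L[ℂ] Ell (Lp ℂ 2 μ) => T y) this).symm
    have e2 : ∀ z : H, (star (π g : H →L[ℂ] H)) ((π g : H →L[ℂ] H) z) = z := by
      intro z
      have := (Unitary.mem_iff.1 (π g).2).1
      exact congrArg (fun T : H →L[ℂ] H => T z) this
    nth_rewrite 1 [e1]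
    rw [← hit g, e2]
  ext1 y
  show hJ.linearIsometryEquiv ((π g : H →L[ℂ] H) (a ((star (π g : H →L[ℂ] H))
    (hJ.linearIsometryEquiv.symm y)))) = piG μ g (hJ.linearIsometryEquiv (a
      (hJ.linearIsometryEquiv.symm ((star (piG μ g)) y))))
  rw [hit', hstar]

theorem model_U (J : ℕ → Lp ℂ 2 μ →ₗᵢ[ℂ] H) (hJ : IsHilbertSum ℂ (fun _ : ℕ => Lp ℂ 2 μ) J)
    (π : G → unitary (H →L[ℂ] H))
    (hπ : ∀ g n (f f' : Lp ℂ 2 μ), (∀ᵐ x ∂μ, f' x = f (g⁻¹ * x)) →
      (π g : H →L[ℂ] H) (J n f) = J n f') :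
    EquivariantlyContractible (fun g (y : unitary (H →L[ℂ] H)) => π g * y * star (π g)) :=
  contract_unitary π _ (fun _ _ => rfl) (model_hyp J hJ π hπ)

theorem model_GL (J : ℕ → Lp ℂ 2 μ →ₗᵢ[ℂ] H) (hJ : IsHilbertSum ℂ (fun _ : ℕ => Lp ℂ 2 μ) J)
    (π : G → unitary (H →L[ℂ] H))
    (hπ : ∀ g n (f f' : Lp ℂ 2 μ), (∀ᵐ x ∂μ, f' x = f (g⁻¹ * x)) →
      (π g : H →L[ℂ] H) (J n f) = J n f') :
    EquivariantlyContractible (fun g (T : (H →L[ℂ] H)ˣ) =>
      Unitary.toUnits (π g) * T * (Unitary.toUnits (π g))⁻¹) :=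
  contract_units π _ (fun _ _ => rfl) (model_hyp J hJ π hπ)

end
end Pool.Agent.Lib.MP_3c1a79_gt
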